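import Mathlib

-- part Pool.Agent.P.MP_39acbb_lc.Basic
section

set_option autoImplicit false
set_option linter.deprecated false

namespace Pool.Agent.P.MP_39acbb_lc

open Cardinal Set

universe u

/-- `T` is well ordered in the order type of an infinite regular cardinal. -/
structure Reg (T : Type u) [LinearOrder T] : Prop where
  reg : (#T).IsRegular
  init : ∀ a : T, #(Iio a) < #T
  bdd : ∀ s : Set T, #s < #T → ∃ b, ∀ a ∈ s, a < b

lemma bdd_toType {θ : Cardinal.{u}} (s : Set θ.ord.ToType) (hs : #s < θ.ord.cof) :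
    ∃ b, ∀ a ∈ s, a < b := by
  rw [← not_isCofinal_iff]
  intro h
  have := Order.cof_le h
  rw [Ordinal.cof_toType] at this
  exact absurd hs (not_lt.2 this)

lemma reg_toType {κ : Cardinal.{u}} (hκ : κ.IsRegular) : Reg κ.ord.ToType where
  reg := by rwa [mk_ord_toType]
  init a := by rw [mk_ord_toType]; exact mk_Iio_toType_ord_lt a
  bdd s hs := bdd_toType s (by rw [hκ.cof_ord]; rwa [mk_ord_toType] at hs)

lemma mk_Iic_lt {T : Type u} [LinearOrder T] {κ : Cardinal.{u}} (hκ : ℵ₀ ≤ κ) {a : T}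
    (h : #(Iio a) < κ) : #(Iic a) < κ := by
  rw [← Iio_insert]
  exact mk_insert_le.trans_lt (add_lt_of_lt hκ h (one_lt_aleph0.trans_le hκ))

section small
variable {κ : Cardinal.{u}} {Y : Type u}

lemma sm_union (hκ : ℵ₀ ≤ κ) {s t : Set Y} (hs : #s < κ) (ht : #t < κ) : #(s ∪ t : Set Y) < κ :=
  (mk_union_le s t).trans_lt (add_lt_of_lt hκ hs ht)

lemma sm_biUnion (hκ : κ.IsRegular) {I : Type u} {s : Set I} {t : I → Set Y} (hs : #s < κ)
    (ht : ∀ i ∈ s, #(t i) < κ) : #(⋃ i ∈ s, t i : Set Y) < κ :=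
  (card_biUnion_lt_iff_forall_of_isRegular hκ hs).2 ht

lemma sm_image {I : Type u} {s : Set I} (f : I → Y) (hs : #s < κ) : #(f '' s) < κ :=
  mk_image_le.trans_lt hs

lemma sm_single (hκ : ℵ₀ ≤ κ) (y : Y) : #({y} : Set Y) < κ := by
  rw [mk_singleton]; exact one_lt_aleph0.trans_le hκ

lemma sm_finite (hκ : ℵ₀ ≤ κ) {s : Set Y} (hs : s.Finite) : #s < κ :=
  hs.lt_aleph0.trans_le hκ

lemma sm_mono {s t : Set Y} (h : s ⊆ t) (ht : #t < κ) : #s < κ :=
  (mk_le_mk_of_subset h).trans_lt ht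

lemma sm_prod (hκ : ℵ₀ ≤ κ) {Y' : Type u} {s : Set Y} {t : Set Y'} (hs : #s < κ) (ht : #t < κ) :
    #(s ×ˢ t : Set (Y × Y')) < κ := by
  rw [mk_setProd]; exact mul_lt_of_lt hκ hs ht

lemma le_biUnion (hκ : ℵ₀ ≤ κ) {I : Type u} {s : Set I} {t : I → Set Y} (hs : #s ≤ κ)
    (ht : ∀ i ∈ s, #(t i) ≤ κ) : #(⋃ i ∈ s, t i : Set Y) ≤ κ := by
  have h1 : #s < Order.succ κ := Order.lt_succ_of_le hs
  have := sm_biUnion (isRegular_succ hκ) h1 (fun i hi => Order.lt_succ_of_le (ht i hi))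
  exact Order.le_of_lt_succ this

lemma le_union (hκ : ℵ₀ ≤ κ) {s t : Set Y} (hs : #s ≤ κ) (ht : #t ≤ κ) : #(s ∪ t : Set Y) ≤ κ :=
  (mk_union_le s t).trans (add_le_of_le hκ hs ht)

end small

namespace Reg
variable {T : Type u} [LinearOrder T] (h : Reg T)
include h

lemma inf : ℵ₀ ≤ #T := h.reg.aleph0_le

lemma iic (a : T) : #(Iic a) < #T := mk_Iic_lt h.inf (h.init a)

lemma nonempty : Nonempty T := by
  obtain ⟨b, -⟩ := h.bdd ∅ (by rw [mk_emptyCollection]; exact h.reg.pos)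
  exact ⟨b⟩

lemma exists_gt (a : T) : ∃ b, a < b := by
  obtain ⟨b, hb⟩ := h.bdd {a} (sm_single h.inf a)
  exact ⟨b, hb a rfl⟩

end Reg

/-- Recursive construction of an increasing chain of sets. -/
lemma chain_rec {T Y : Type u} [LinearOrder T] [WellFoundedLT T] (q : Set Y) (Pr : Set Y → Prop)
    (D : T → Set Y → Set Y → Prop)
    (hU : ∀ (γ : T) (r : T → Set Y), (∀ β < γ, Pr (r β) ∧ q ⊆ r β ∧ ∀ β' < β, r β' ⊆ r β) →
      Pr (q ∪ ⋃ β ∈ Iio γ, r β))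
    (step : ∀ γ s, Pr s → ∃ s', Pr s' ∧ s ⊆ s' ∧ D γ s s') :
    ∃ r : T → Set Y, ∀ γ, Pr (r γ) ∧ q ⊆ r γ ∧ (∀ β < γ, r β ⊆ r γ) ∧
      D γ (q ∪ ⋃ β ∈ Iio γ, r β) (r γ) := by
  classical
  have step' : ∀ γ s, ∃ s', Pr s → (Pr s' ∧ s ⊆ s' ∧ D γ s s') := by
    intro γ s
    by_cases hs : Pr s
    · obtain ⟨s', h'⟩ := step γ s hs
      exact ⟨s', fun _ => h'⟩
    · exact ⟨s, fun h => absurd h hs⟩
  choose f hf using step'
  let r : T → Set Y := (wellFounded_lt (α := T)).fix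
    (fun γ rec => f γ (q ∪ ⋃ β, ⋃ (hβ : β < γ), rec β hβ))
  have hr : ∀ γ, r γ = f γ (q ∪ ⋃ β ∈ Iio γ, r β) := by
    intro γ
    show (wellFounded_lt (α := T)).fix _ γ = _
    rw [WellFounded.fix_eq]
    rfl
  refine ⟨r, fun γ => ?_⟩
  induction γ using WellFoundedLT.induction with
  | ind γ ih =>
    have h1 := hU γ r (fun β hβ => ⟨(ih β hβ).1, (ih β hβ).2.1, (ih β hβ).2.2.1⟩)
    have h2 := hf γ _ h1
    rw [← hr γ] at h2
    refine ⟨h2.1, subset_union_left.trans h2.2.1, fun β hβ => ?_, h2.2.2⟩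
    exact fun y hy => h2.2.1 (Or.inr (mem_iUnion₂.2 ⟨β, hβ, hy⟩))

/-- `κ ^ {<κ} = κ`, in the form that is used. -/
def Cnt (κ : Cardinal.{u}) : Prop :=
  ∀ (Y : Type u) (S : Set Y), #S ≤ κ → #{c : Set Y | c ⊆ S ∧ #c < κ} ≤ κ

/-- Closing off. -/
lemma close_off {κ : Cardinal.{u}} (hκ : κ.IsRegular) (hc : Cnt κ) {Θ G : Type u} (hG : #G ≤ κ)
    (W : Set (Θ × G) → Set Θ) (hW : ∀ c : Set (Θ × G), #c < κ → #(W c) ≤ κ) (S₀ : Set Θ)
    (hS₀ : #S₀ ≤ κ) :
    ∃ S : Set Θ, S₀ ⊆ S ∧ #S ≤ κ ∧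
      ∀ c : Set (Θ × G), #c < κ → (∀ p ∈ c, p.1 ∈ S) → W c ⊆ S := by
  have hT := reg_toType hκ
  have hk : #κ.ord.ToType = κ := mk_ord_toType κ
  obtain ⟨r, hr⟩ := chain_rec (T := κ.ord.ToType) S₀ (fun s => #s ≤ κ)
    (fun _ s s' => ∀ c : Set (Θ × G), #c < κ → (∀ p ∈ c, p.1 ∈ s) → W c ⊆ s')
    (fun γ r h => le_union hκ.aleph0_le hS₀ (le_biUnion hκ.aleph0_le
      ((hT.init γ).le.trans hk.le) (fun β hβ => (h β hβ).1)))
    (fun γ s hs => by
      refine ⟨s ∪ ⋃ c ∈ {c : Set (Θ × G) | c ⊆ s ×ˢ (Set.univ : Set G) ∧ #c < κ}, W c, ?_, subset_union_left, ?_⟩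
      · refine le_union hκ.aleph0_le hs (le_biUnion hκ.aleph0_le (hc _ _ ?_) fun c h => hW c h.2)
        rw [mk_setProd, mk_univ]
        exact mul_le_of_le hκ.aleph0_le hs hG
      · intro c h1 h2
        exact fun y hy => Or.inr (mem_iUnion₂.2 ⟨c, ⟨fun p hp => ⟨h2 p hp, mem_univ _⟩, h1⟩, hy⟩))
  obtain ⟨a₀⟩ := hT.nonempty
  refine ⟨⋃ γ ∈ (Set.univ : Set κ.ord.ToType), r γ, ?_, ?_, ?_⟩
  · exact (hr a₀).2.1.trans (subset_biUnion_of_mem (u := r) (mem_univ _))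
  · exact le_biUnion hκ.aleph0_le (by rw [mk_univ, hk]) fun γ _ => (hr γ).1
  · intro c h1 h2
    have h3 : ∀ p : c, ∃ γ, p.1.1 ∈ r γ := fun p => by
      obtain ⟨γ, -, hγ⟩ := mem_iUnion₂.1 (h2 p.1 p.2)
      exact ⟨γ, hγ⟩
    choose lv hlv using h3
    obtain ⟨b, hb⟩ := hT.bdd (range lv) (by rw [hk]; exact mk_range_le.trans_lt h1)
    refine ((hr b).2.2.2 c h1 fun p hp => ?_).trans (subset_biUnion_of_mem (u := r) (mem_univ _))
    exact Or.inr (mem_iUnion₂.2 ⟨lv ⟨p, hp⟩, hb _ ⟨_, rfl⟩, hlv ⟨p, hp⟩⟩)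

/-- Bookkeeping. -/
lemma book {θ : Cardinal.{u}} (hθ : ℵ₀ ≤ θ) {Y : Type u} [Nonempty Y] (hY : #Y ≤ θ) :
    ∃ f : θ.ord.ToType → Y, ∀ y b, ∃ η, b < η ∧ f η = y := by
  have h1 : #(Y × θ.ord.ToType) ≤ #θ.ord.ToType := by
    rw [mk_prod, lift_id, lift_id, mk_ord_toType]
    exact mul_le_of_le hθ hY le_rfl
  obtain ⟨e⟩ := (le_def _ _).1 h1
  have : Nonempty θ.ord.ToType := by
    rw [← mk_ne_zero_iff, mk_ord_toType]; exact (aleph0_pos.trans_le hθ).ne'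
  refine ⟨fun η => (Function.invFun e η).1, fun y b => ?_⟩
  by_contra hcon
  push Not at hcon
  have h2 : ∀ x, e (y, x) ∈ Iic b := fun x => by
    by_contra h
    refine hcon (e (y, x)) (not_le.1 h) ?_
    rw [Function.leftInverse_invFun e.injective]
  have h3 : #θ.ord.ToType ≤ #(Iic b) :=
    mk_le_of_injective (f := fun x => (⟨e (y, x), h2 x⟩ : Iic b)) fun x x' h => by
      have := e.injective (congrArg Subtype.val h)
      exact (Prod.ext_iff.1 this).2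
  rw [mk_ord_toType] at h3
  exact absurd (mk_Iic_lt hθ (mk_Iio_toType_ord_lt b)) (not_lt.2 h3)

/-! ### Boolean groups -/

section Bool
variable {G : Type u} [AddCommGroup G]

lemma closure_rep (h2 : ∀ x : G, x + x = 0) {I : Type*} (k : I → G) (A : Set I) {x : G}
    (hx : x ∈ AddSubgroup.closure (k '' A)) : ∃ F : Finset I, (↑F : Set I) ⊆ A ∧ x = ∑ i ∈ F, k i := by
  classical
  induction hx using AddSubgroup.closure_induction with
  | mem x hx =>
    obtain ⟨i, hi, rfl⟩ := hx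
    exact ⟨{i}, by simpa using hi, by simp⟩
  | zero => exact ⟨∅, by simp, by simp⟩
  | add x y _ _ hx hy =>
    obtain ⟨F, hF, rfl⟩ := hx
    obtain ⟨F', hF', rfl⟩ := hy
    refine ⟨(F \ F') ∪ (F' \ F), ?_, ?_⟩
    · intro i hi
      simp only [Finset.coe_union, Finset.coe_sdiff, mem_union, mem_diff] at hi
      rcases hi with hi | hi
      · exact hF hi.1
      · exact hF' hi.1
    · rw [Finset.sum_union disjoint_sdiff_sdiff, ← Finset.sum_sdiff (Finset.inter_subset_left (s₁ := F) (s₂ := F')),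
        ← Finset.sum_sdiff (Finset.inter_subset_right (s₁ := F) (s₂ := F')), Finset.sdiff_inter_self_left,
        Finset.sdiff_inter_self_right]
      have := h2 (∑ i ∈ F ∩ F', k i)
      rw [add_add_add_comm, this, add_zero]
  | neg x _ hx =>
    obtain ⟨F, hF, rfl⟩ := hx
    exact ⟨F, hF, neg_eq_of_add_eq_zero_left (h2 _)⟩

lemma top_lemma (h2 : ∀ x : G, x + x = 0) {I : Type*} [LinearOrder I] (k : I → G) (A : Set I)
    (H : I → AddSubgroup G) (hk : ∀ i ∈ A, ∀ j, i < j → k i ∈ H j) {x : G}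
    (hx : x ∈ AddSubgroup.closure (k '' A)) : x = 0 ∨ ∃ i ∈ A, x - k i ∈ H i := by
  classical
  obtain ⟨F, hF, rfl⟩ := closure_rep h2 k A hx
  rcases F.eq_empty_or_nonempty with rfl | hne
  · left; simp
  · right
    refine ⟨F.max' hne, hF (F.max'_mem hne), ?_⟩
    rw [← Finset.add_sum_erase F k (F.max'_mem hne), add_sub_cancel_left]
    refine AddSubgroup.sum_mem _ fun i hi => hk i (hF (Finset.mem_of_mem_erase hi)) _ ?_
    exact lt_of_le_of_ne (F.le_max' i (Finset.mem_of_mem_erase hi)) (Finset.ne_of_mem_erase hi)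

lemma closure_finite (h2 : ∀ x : G, x + x = 0) {s : Set G} (hs : s.Finite) :
    (AddSubgroup.closure s : Set G).Finite := by
  classical
  refine (hs.toFinset.powerset.finite_toSet.image (fun F => ∑ i ∈ F, i)).subset fun x hx => ?_
  obtain ⟨F, hF, rfl⟩ := closure_rep h2 id s (x := x) (by rwa [image_id])
  refine ⟨F, ?_, rfl⟩
  rw [Finset.mem_coe, Finset.mem_powerset]
  intro i hi
  exact hs.mem_toFinset.2 (hF hi)

end Bool

end Pool.Agent.P.MP_39acbb_lc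
end

-- part Pool.Agent.P.MP_39acbb_lc.Final
section

set_option autoImplicit false
set_option linter.deprecated false

namespace Pool.Agent.P.MP_39acbb_lc

open Cardinal Set Topology

universe u

section
variable {Θ G : Type u}

/-- `c` is the graph of a function. -/
def Fn (c : Set (Θ × G)) : Prop := ∀ x a b, (x, a) ∈ c → (x, b) ∈ c → a = b

/-- conditions: small graphs of functions -/
def Cond (κ : Cardinal.{u}) (c : Set (Θ × G)) : Prop := #c < κ ∧ Fn c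

lemma Cond.mono {κ : Cardinal.{u}} {c d : Set (Θ × G)} (h : Cond κ d) (hcd : c ⊆ d) : Cond κ c :=
  ⟨sm_mono hcd h.1, fun x a b ha hb => h.2 x a b (hcd ha) (hcd hb)⟩

variable [AddCommGroup G]

/-- the basic open set of a condition -/
def U (K : Θ → AddSubgroup G) (c : Set (Θ × G)) : Set G := {g | ∀ p ∈ c, g - p.2 ∈ K p.1}

lemma U_anti (K : Θ → AddSubgroup G) {c d : Set (Θ × G)} (h : c ⊆ d) : U K d ⊆ U K c :=
  fun _ hg p hp => hg p (h hp)

/-- translate of a condition -/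
def tr (c : Set (Θ × G)) (h : G) : Set (Θ × G) := (fun p => (p.1, p.2 + h)) '' c

lemma mem_tr {c : Set (Θ × G)} {h : G} {p : Θ × G} : p ∈ tr c h ↔ (p.1, p.2 - h) ∈ c := by
  constructor
  · rintro ⟨p', hp', rfl⟩
    simpa using hp'
  · intro hp
    exact ⟨_, hp, by simp⟩

lemma Cond.tr {κ : Cardinal.{u}} {c : Set (Θ × G)} (hc : Cond κ c) (h : G) : Cond κ (tr c h) := by
  refine ⟨sm_image _ hc.1, fun x a b ha hb => ?_⟩
  have := hc.2 x _ _ (mem_tr.1 ha) (mem_tr.1 hb)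
  simpa using this

lemma mem_U_tr {K : Θ → AddSubgroup G} {c : Set (Θ × G)} {h g : G} :
    g ∈ U K (tr c h) ↔ g - h ∈ U K c := by
  constructor
  · intro hg p hp
    have := hg (p.1, p.2 + h) ⟨p, hp, rfl⟩
    simpa [sub_sub, add_comm] using this
  · rintro hg _ ⟨p, hp, rfl⟩
    have := hg p hp
    simpa [sub_sub, add_comm] using this

variable [LinearOrder Θ]

/-- `X` is nowhere dense for the topology given by the columns below `η` (in strong form). -/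
def Good (κ : Cardinal.{u}) (K : Θ → AddSubgroup G) (η : Θ) (X : Set G) : Prop :=
  ∀ q : Set (Θ × G), Cond κ q → (∀ p ∈ q, p.1 < η) →
    ∃ o : Set (Θ × G), Cond κ o ∧ (∀ p ∈ o, p.1 < η) ∧ q ⊆ o ∧ ∀ g ∈ U K o, g ∉ X

lemma U_congr {K K' : Θ → AddSubgroup G} {η : Θ} (h : ∀ ζ < η, K ζ = K' ζ) {o : Set (Θ × G)}
    (ho : ∀ p ∈ o, p.1 < η) : U K o = U K' o := by
  ext g
  exact forall₂_congr fun p hp => by rw [h _ (ho p hp)]

lemma Good_congr {κ : Cardinal.{u}} {K K' : Θ → AddSubgroup G} {η : Θ} (h : ∀ ζ < η, K ζ = K' ζ)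
    (X : Set G) : Good κ K η X ↔ Good κ K' η X := by
  refine forall_congr' fun q => forall_congr' fun _ => forall_congr' fun _ =>
    exists_congr fun o => and_congr_right fun _ => and_congr_right fun ho => ?_
  rw [U_congr h ho]

/-- Recursive definition of the columns. -/
lemma col_rec [WellFoundedLT Θ] (Φ : Θ → (Θ → AddSubgroup G) → AddSubgroup G) :
    ∃ K : Θ → AddSubgroup G, ∀ η, ∃ K' : Θ → AddSubgroup G,
      (∀ ζ < η, K' ζ = K ζ) ∧ K η = Φ η K' := by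
  classical
  let K : Θ → AddSubgroup G := (wellFounded_lt (α := Θ)).fix
    (fun η rec => Φ η (fun ζ => if h : ζ < η then rec ζ h else ⊤))
  refine ⟨K, fun η => ⟨fun ζ => if ζ < η then K ζ else ⊤, fun ζ h => by simp [h], ?_⟩⟩
  show (wellFounded_lt (α := Θ)).fix _ η = _
  rw [WellFounded.fix_eq]
  congr 1

end

/-- The conclusion: a non-discrete Hausdorff group topology on `G` all of whose nowhere dense sets
are closed and discrete. -/
def Nodec (G : Type u) [AddCommGroup G] : Prop :=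
  ∃ _ : TopologicalSpace G, IsTopologicalAddGroup G ∧ T2Space G ∧ ¬ DiscreteTopology G ∧
    ∀ X : Set G, IsNowhereDense X → ∀ x : G, ∃ V ∈ 𝓝 x, V ∩ X ⊆ {x}

theorem final {κ : Cardinal.{u}} (hκ : κ.IsRegular) (hc : Cnt κ) {Θ G : Type u} [LinearOrder Θ]
    [AddCommGroup G] (hG : #G ≤ κ) (K : Θ → AddSubgroup G)
    (book : ∀ (X : Set G) (A : Set Θ), #A ≤ κ → ∃ η, (∀ ζ ∈ A, ζ < η) ∧
      (Good κ K η X → ∀ c, #{g | g ∈ X ∧ g - c ∈ K η} < κ))
    (ne : ∀ q : Set (Θ × G), Cond κ q → ∀ g₀, ∃ g ∈ U K q, g ≠ g₀)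
    (sep : ∀ g : G, g ≠ 0 → ∃ η, g ∉ K η) : Nodec G := by
  classical
  have h0 := hκ.aleph0_le
  let N : Set Θ → Set G := fun s => {g | ∀ ζ ∈ s, g ∈ K ζ}
  let B : AddGroupFilterBasis G := addGroupFilterBasisOfComm {V | ∃ s : Set Θ, #s < κ ∧ V = N s}
    ⟨N ∅, ∅, sm_finite h0 finite_empty, rfl⟩
    (by
      rintro _ _ ⟨s, hs, rfl⟩ ⟨t, ht, rfl⟩
      exact ⟨N (s ∪ t), ⟨_, sm_union h0 hs ht, rfl⟩,
        fun g hg => ⟨fun ζ h => hg ζ (Or.inl h), fun ζ h => hg ζ (Or.inr h)⟩⟩)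
    (by rintro _ ⟨s, -, rfl⟩ ζ -; exact zero_mem _)
    (by
      rintro _ ⟨s, hs, rfl⟩
      refine ⟨N s, ⟨s, hs, rfl⟩, ?_⟩
      rintro _ ⟨a, ha, b, hb, rfl⟩ ζ h
      exact add_mem (ha ζ h) (hb ζ h))
    (by
      rintro _ ⟨s, hs, rfl⟩
      exact ⟨N s, ⟨s, hs, rfl⟩, fun g hg ζ h => neg_mem (hg ζ h)⟩)
  have hBm : ∀ V, V ∈ B ↔ ∃ s : Set Θ, #s < κ ∧ V = N s := fun V => Iff.rfl
  let _ : TopologicalSpace G := B.topology
  have hnh : ∀ (x : G) (V : Set G), V ∈ 𝓝 x ↔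
      ∃ s : Set Θ, #s < κ ∧ ∀ g, (∀ ζ ∈ s, g - x ∈ K ζ) → g ∈ V := by
    intro x V
    rw [(B.nhds_hasBasis x).mem_iff]
    constructor
    · rintro ⟨_, ⟨s, hs, rfl⟩, h⟩
      exact ⟨s, hs, fun g hg => h ⟨g - x, hg, by simp⟩⟩
    · rintro ⟨s, hs, h⟩
      refine ⟨N s, ⟨s, hs, rfl⟩, ?_⟩
      rintro _ ⟨g, hg, rfl⟩
      exact h _ fun ζ hζ => by simpa using hg ζ hζ
  refine ⟨B.topology, B.isTopologicalAddGroup, ?_, ?_, ?_⟩
  · rw [B.t2Space_iff_sInter_subset rfl]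
    intro g hg
    by_contra hg0
    obtain ⟨η, hη⟩ := sep g hg0
    exact hη (hg (N {η}) ⟨_, sm_single h0 η, rfl⟩ η rfl)
  · intro hd
    obtain ⟨s, hs, h⟩ := (hnh 0 {0}).1 ((isOpen_discrete _).mem_nhds rfl)
    obtain ⟨g, hg, hg0⟩ := ne ((fun ζ => (ζ, (0 : G))) '' s)
      ⟨sm_image _ hs, by
        rintro x a b ⟨_, -, ha⟩ ⟨_, -, hb⟩
        exact (Prod.ext_iff.1 ha).2.symm.trans (Prod.ext_iff.1 hb).2⟩ 0
    exact hg0 (h g fun ζ hζ => hg (ζ, 0) ⟨ζ, hζ, rfl⟩)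
  · intro X hX x
    have h1 : ∀ q : Set (Θ × G), ∃ o : Set (Θ × G), Cond κ q →
        (Cond κ o ∧ q ⊆ o ∧ ∀ g ∈ U K o, g ∉ X) := by
      intro q
      by_cases hq : Cond κ q
      swap
      · exact ⟨q, fun h => absurd h hq⟩
      have hopen : IsOpen (U K q) := by
        rw [isOpen_iff_mem_nhds]
        intro g hg
        refine (hnh g _).2 ⟨Prod.fst '' q, sm_image _ hq.1, fun y hy p hp => ?_⟩
        have := add_mem (hy p.1 ⟨p, hp, rfl⟩) (hg p hp)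
        simpa using this
      obtain ⟨g₁, hg₁, -⟩ := ne q hq 0
      have : ¬ U K q ⊆ closure X := fun h => by
        have h2 := interior_maximal h hopen hg₁
        rw [hX] at h2
        exact h2
      obtain ⟨g, hg, hgX⟩ := not_subset.1 this
      obtain ⟨s, hs, h⟩ := (hnh g _).1 (isClosed_closure.isOpen_compl.mem_nhds hgX)
      refine ⟨q ∪ (fun ζ => (ζ, g)) '' (s \ Prod.fst '' q), fun _ => ⟨⟨?_, ?_⟩, subset_union_left, ?_⟩⟩
      · exact sm_union h0 hq.1 (sm_image _ (sm_mono diff_subset hs))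
      · rintro z a b (ha | ⟨ζ, hζ, ha⟩) (hb | ⟨ζ', hζ', hb⟩)
        · exact hq.2 z a b ha hb
        · obtain ⟨rfl, rfl⟩ := Prod.ext_iff.1 hb
          exact absurd ⟨_, ha, rfl⟩ hζ'.2
        · obtain ⟨rfl, rfl⟩ := Prod.ext_iff.1 ha
          exact absurd ⟨_, hb, rfl⟩ hζ.2
        · exact (Prod.ext_iff.1 ha).2.symm.trans (Prod.ext_iff.1 hb).2
      · intro y hy hyX
        refine h y (fun ζ hζ => ?_) (subset_closure hyX)
        by_cases hz : ζ ∈ Prod.fst '' q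
        · obtain ⟨p, hp, rfl⟩ := hz
          have := sub_mem (hy p (Or.inl hp)) (hg p hp)
          simpa using this
        · exact hy (ζ, g) (Or.inr ⟨ζ, ⟨hζ, hz⟩, rfl⟩)
    choose o ho using h1
    obtain ⟨A, -, hA, hAW⟩ := close_off hκ hc hG
      (fun q : Set (Θ × G) => if Cond κ q then Prod.fst '' o q else ∅)
      (fun q _ => by
        split_ifs with h
        · exact (sm_image _ (ho q h).1.1).le
        · simp) ∅ (by simp)
    obtain ⟨η, hη, hgood⟩ := book X A hA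
    have hgd : Good κ K η X := by
      intro q hq hqη
      have hq' : Cond κ {p ∈ q | p.1 ∈ A} := hq.mono (sep_subset _ _)
      have hsub := hAW _ hq'.1 (fun p hp => hp.2)
      rw [if_pos hq'] at hsub
      obtain ⟨ho1, ho2, ho3⟩ := ho _ hq'
      refine ⟨q ∪ o {p ∈ q | p.1 ∈ A}, ⟨sm_union h0 hq.1 ho1.1, ?_⟩, ?_, subset_union_left, ?_⟩
      · rintro z a b (ha | ha) (hb | hb)
        · exact hq.2 z a b ha hb
        · exact ho1.2 z a b (ho2 ⟨ha, hsub ⟨_, hb, rfl⟩⟩) hb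
        · exact ho1.2 z a b ha (ho2 ⟨hb, hsub ⟨_, ha, rfl⟩⟩)
        · exact ho1.2 z a b ha hb
      · rintro p (hp | hp)
        · exact hqη p hp
        · exact hη _ (hsub ⟨_, hp, rfl⟩)
      · exact fun g hg => ho3 g (U_anti K subset_union_right hg)
    have hsm := hgood hgd x
    have h2 : ∀ g : G, ∃ ζ, g ≠ x → g - x ∉ K ζ := fun g => by
      by_cases hg : g = x
      · exact ⟨η, fun h => absurd hg h⟩
      · obtain ⟨ζ, hζ⟩ := sep (g - x) (sub_ne_zero.2 hg)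
        exact ⟨ζ, fun _ => hζ⟩
    choose z hz using h2
    refine ⟨{g | ∀ ζ ∈ {η} ∪ z '' {g | g ∈ X ∧ g - x ∈ K η}, g - x ∈ K ζ},
      (hnh x _).2 ⟨_, sm_union h0 (sm_single h0 η) (sm_image z hsm), fun g hg => hg⟩, ?_⟩
    rintro g ⟨hg, hgX⟩
    by_contra hgx
    exact hz g hgx (hg _ (Or.inr ⟨g, ⟨hgX, hg η (Or.inl rfl)⟩, rfl⟩))

end Pool.Agent.P.MP_39acbb_lc
end

-- part Pool.Agent.P.MP_39acbb_lc.Cols
section

set_option autoImplicit false
set_option linter.deprecated false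

namespace Pool.Agent.P.MP_39acbb_lc

open Cardinal Set

universe u

/-- The diamond principle, with clubs replaced by sets of closure points. -/
def Guess (T : Type u) [LinearOrder T] : Prop :=
  ∃ D : T → Set T, ∀ (Z : Set T) (F : T → Set T), (∀ γ, #(F γ) < #T) → ∀ a,
    ∃ ε, a < ε ∧ (∀ γ < ε, F γ ⊆ Iio ε) ∧ Z ∩ Iio ε = D ε

variable {T : Type u} [LinearOrder T]

lemma Guess.cnt (hT : Reg T) (hg : Guess T) : Cnt #T := by
  classical
  intro Y S hS
  obtain ⟨D, hD⟩ := hg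
  obtain ⟨j⟩ := (le_def _ _).1 hS
  have h1 : ∀ c : {c : Set Y | c ⊆ S ∧ #c < #T}, ∃ ε, D ε = j '' {y : S | y.1 ∈ c.1} := by
    rintro ⟨c, hc1, hc2⟩
    have hsm : #(j '' {y : S | y.1 ∈ c}) < #T := by
      refine sm_image _ (lt_of_le_of_lt ?_ hc2)
      exact mk_le_of_injective (f := fun y => (⟨y.1.1, y.2⟩ : c)) fun y y' h =>
        Subtype.ext (Subtype.ext (congrArg (fun z : c => z.1) h))
    obtain ⟨b, hb⟩ := hT.bdd _ hsm
    obtain ⟨ε, h1, -, h2⟩ := hD (j '' {y : S | y.1 ∈ c}) (fun _ => ∅)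
      (fun _ => sm_finite hT.inf finite_empty) b
    exact ⟨ε, h2.symm.trans (inter_eq_left.2 fun z hz => (hb z hz).trans h1)⟩
  choose f hf using h1
  refine mk_le_of_injective (f := f) fun c c' h => ?_
  have h2 : j '' {y : S | y.1 ∈ c.1} = j '' {y : S | y.1 ∈ c'.1} := by rw [← hf, ← hf, h]
  rw [image_eq_image j.injective] at h2
  apply Subtype.ext
  ext y
  constructor
  · intro hy
    have : (⟨y, c.2.1 hy⟩ : S) ∈ {y : S | y.1 ∈ c'.1} := h2 ▸ hy
    exact this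
  · intro hy
    have : (⟨y, c'.2.1 hy⟩ : S) ∈ {y : S | y.1 ∈ c.1} := h2 ▸ hy
    exact this

lemma mk_supp_le {T : Type u} (s : Set T) :
    #{g : T →₀ ZMod 2 | ∀ β, β ∉ s → g β = 0} ≤ max ℵ₀ #s := by
  classical
  refine le_trans ?_ (mk_list_le_max s)
  refine mk_le_of_injective (f := fun g => (g.1.support.subtype (· ∈ s)).toList) fun g g' h => ?_
  have h1 : g.1.support.subtype (· ∈ s) = g'.1.support.subtype (· ∈ s) := by
    rw [← Finset.toList_toFinset (g.1.support.subtype (· ∈ s)),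
      ← Finset.toList_toFinset (g'.1.support.subtype (· ∈ s))]
    exact congrArg List.toFinset h
  apply Subtype.ext
  ext β
  by_cases hβ : β ∈ s
  · have h2 : (⟨β, hβ⟩ : s) ∈ g.1.support.subtype (· ∈ s) ↔
        (⟨β, hβ⟩ : s) ∈ g'.1.support.subtype (· ∈ s) := by rw [h1]
    simp only [Finset.mem_subtype, Finsupp.mem_support_iff] at h2
    have : ∀ a b : ZMod 2, (a ≠ 0 ↔ b ≠ 0) → a = b := by decide
    exact this _ _ h2
  · rw [g.2 β hβ, g'.2 β hβ]

lemma bool_G {T : Type u} (x : T →₀ ZMod 2) : x + x = 0 := by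
  ext β
  have : ∀ a : ZMod 2, a + a = 0 := by decide
  simpa using this (x β)

/-- the filtration -/
def H (ε : T) : AddSubgroup (T →₀ ZMod 2) where
  carrier := {g | ∀ β, ε ≤ β → g β = 0}
  zero_mem' := fun _ _ => rfl
  add_mem' := fun {a b} ha hb β h => by simp [ha β h, hb β h]
  neg_mem' := fun {a} ha β h => by simp [ha β h]

lemma H_mono {ε δ : T} (h : ε ≤ δ) : H ε ≤ H δ := fun _ hg β hβ => hg β (h.trans hβ)

lemma single_mem_H {ε δ : T} (h : ε < δ) : Finsupp.single ε (1 : ZMod 2) ∈ H δ := fun _ hβ =>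
  Finsupp.single_eq_of_ne (h.trans_le hβ).ne'

lemma single_not_mem_H (ε : T) : Finsupp.single ε (1 : ZMod 2) ∉ H ε := fun h => by
  simpa using h ε le_rfl

lemma exists_mem_H (hT : Reg T) (g : T →₀ ZMod 2) : ∃ a, g ∈ H a := by
  obtain ⟨b, hb⟩ := hT.bdd g.support (sm_finite hT.inf g.support.finite_toSet)
  refine ⟨b, fun β hβ => ?_⟩
  by_contra h
  exact absurd (hb β (Finsupp.mem_support_iff.2 h)) (not_lt.2 hβ)

lemma sm_supp {T : Type u} (hun : ℵ₀ < #T) {s : Set T} (hs : #s < #T) :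
    #{g : T →₀ ZMod 2 | ∀ β, β ∉ s → g β = 0} < #T :=
  (mk_supp_le s).trans_lt (max_lt hun hs)

lemma mk_G_le (hT : Reg T) : #(T →₀ ZMod 2) ≤ #T := by
  have := mk_supp_le (Set.univ : Set T)
  rw [mk_univ, max_eq_right hT.inf] at this
  refine le_trans (le_of_eq ?_) this
  rw [← mk_univ]
  congr 2
  ext g
  simp

/-- an element of `H ε` is supported in a closed initial segment below `ε` -/
lemma H_bound {a ε : T} (ha : a < ε) {g : T →₀ ZMod 2} (hg : g ∈ H ε) :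
    ∃ γ < ε, a ≤ γ ∧ ∀ β, β ∉ Iic γ → g β = 0 := by
  classical
  have hne : (insert a g.support).Nonempty := Finset.insert_nonempty _ _
  refine ⟨(insert a g.support).max' hne, ?_, Finset.le_max' _ _ (Finset.mem_insert_self _ _), ?_⟩
  · rw [Finset.max'_lt_iff]
    intro y hy
    rcases Finset.mem_insert.1 hy with rfl | hy
    · exact ha
    · by_contra h
      exact Finsupp.mem_support_iff.1 hy (hg y (not_lt.1 h))
  · intro β hβ
    by_contra h
    exact hβ (Finset.le_max' _ _ (Finset.mem_insert_of_mem (Finsupp.mem_support_iff.2 h)))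

/-- A generic chain of conditions inside a closed set of columns. -/
lemma generic_chain [WellFoundedLT T] (hT : Reg T) (hc : Cnt #T) {Θ G : Type u} [LinearOrder Θ]
    [Nonempty Θ] [AddCommGroup G] (hG : #G ≤ #T) (K : Θ → AddSubgroup G) (X : Θ → Set G)
    (q : Set (Θ × G)) (hq : Cond #T q) :
    ∃ (η : T → Θ) (p : T → G) (τ : T → G → T) (R : T → Set T),
      (∀ i j, η i = η j → p i = p j) ∧ (∀ γ, #(R γ) < #T) ∧
      (∀ γ, ∀ y ∈ q, ∃ j ∈ R γ, y = (η j, p j)) ∧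
      ∀ i h, Good #T K (η i) (X (η i)) → ∃ o : Set (Θ × G), (∀ y ∈ o, y.1 < η i) ∧
        (∀ g ∈ U K o, g ∉ X (η i)) ∧ ∀ y ∈ o, ∃ j ∈ R (τ i h), y = (η j, p j + h) := by
  classical
  have h0 := hT.inf
  have h1 : ∀ (ζ : Θ) (r : Set (Θ × G)), ∃ o : Set (Θ × G), Cond #T r → (∀ y ∈ r, y.1 < ζ) →
      Good #T K ζ (X ζ) →
        (Cond #T o ∧ (∀ y ∈ o, y.1 < ζ) ∧ r ⊆ o ∧ ∀ g ∈ U K o, g ∉ X ζ) := by
    intro ζ r
    by_cases h : Cond #T r ∧ (∀ y ∈ r, y.1 < ζ) ∧ Good #T K ζ (X ζ)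
    · obtain ⟨o, ho⟩ := h.2.2 r h.1 h.2.1
      exact ⟨o, fun _ _ _ => ho⟩
    · exact ⟨r, fun a b c => absurd ⟨a, b, c⟩ h⟩
  choose o ho using h1
  have ho' : ∀ (c : Set (Θ × G)) (ζ : Θ) (h : G), Cond #T c → Good #T K ζ (X ζ) →
      (Cond #T (o ζ (tr {y ∈ c | y.1 < ζ} h)) ∧ (∀ y ∈ o ζ (tr {y ∈ c | y.1 < ζ} h), y.1 < ζ) ∧
        tr {y ∈ c | y.1 < ζ} h ⊆ o ζ (tr {y ∈ c | y.1 < ζ} h) ∧
        ∀ g ∈ U K (o ζ (tr {y ∈ c | y.1 < ζ} h)), g ∉ X ζ) := fun c ζ h hc hg =>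
    ho ζ _ ((hc.mono (sep_subset _ _)).tr h) (fun y hy => (mem_tr.1 hy).2) hg
  obtain ⟨θ₀⟩ := ‹Nonempty Θ›
  obtain ⟨S, hS₀, hS, hSW⟩ := close_off hT.reg hc hG
    (fun c : Set (Θ × G) => ⋃ ζ ∈ Prod.fst '' c, ⋃ h ∈ (Set.univ : Set G),
      if Cond #T c ∧ Good #T K ζ (X ζ) then Prod.fst '' o ζ (tr {y ∈ c | y.1 < ζ} h) else ∅)
    (fun c hc => by
      refine le_biUnion h0 (sm_image _ hc).le fun ζ _ => le_biUnion h0 (by rwa [mk_univ]) fun h _ => ?_
      split_ifs with hh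
      · exact (sm_image _ (ho' c ζ h hh.1 hh.2).1.1).le
      · simp)
    ({θ₀} ∪ Prod.fst '' q) (sm_union h0 (sm_single h0 _) (sm_image _ hq.1)).le
  have hSne : Nonempty S := ⟨⟨θ₀, hS₀ (Or.inl rfl)⟩⟩
  obtain ⟨jS⟩ := (le_def _ _).1 hS
  let η : T → Θ := fun i => (Function.invFun jS i).1
  have hη1 : ∀ i, η i ∈ S := fun i => (Function.invFun jS i).2
  have hη2 : ∀ ζ (hζ : ζ ∈ S), η (jS ⟨ζ, hζ⟩) = ζ := fun ζ hζ => by
    simp only [η]
    rw [Function.leftInverse_invFun jS.injective]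
  have h2 : #(T × G) ≤ #T := by
    rw [mk_prod, lift_id, lift_id]; exact mul_le_of_le h0 le_rfl hG
  obtain ⟨jT⟩ := (le_def _ _).1 h2
  obtain ⟨a₀⟩ := hT.nonempty
  have : Nonempty (T × G) := ⟨(a₀, 0)⟩
  let σ : T → T × G := Function.invFun jT
  have hσ : ∀ x, σ (jT x) = x := Function.leftInverse_invFun jT.injective
  obtain ⟨r, hr⟩ := chain_rec (T := T) q (fun r => Cond #T r ∧ ∀ y ∈ r, y.1 ∈ S)
    (fun γ _ r => (∃ v, (η (σ γ).1, v) ∈ r) ∧ (Good #T K (η (σ γ).1) (X (η (σ γ).1)) →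
      ∃ o : Set (Θ × G), (∀ y ∈ o, y.1 < η (σ γ).1) ∧ (∀ g ∈ U K o, g ∉ X (η (σ γ).1)) ∧
        ∀ y ∈ o, (y.1, y.2 - (σ γ).2) ∈ r))
    (fun γ r h => by
      refine ⟨⟨sm_union h0 hq.1 (sm_biUnion hT.reg (hT.init γ) fun β hβ => (h β hβ).1.1.1), ?_⟩, ?_⟩
      · rintro x a b (ha | ha) (hb | hb)
        · exact hq.2 x a b ha hb
        · obtain ⟨β, hβ, hb⟩ := mem_iUnion₂.1 hb
          exact (h β hβ).1.1.2 x a b ((h β hβ).2.1 ha) hb
        · obtain ⟨β, hβ, ha⟩ := mem_iUnion₂.1 ha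
          exact (h β hβ).1.1.2 x a b ha ((h β hβ).2.1 hb)
        · obtain ⟨β, hβ, ha⟩ := mem_iUnion₂.1 ha
          obtain ⟨β', hβ', hb⟩ := mem_iUnion₂.1 hb
          rcases lt_trichotomy β β' with hl | rfl | hl
          · exact (h β' hβ').1.1.2 x a b ((h β' hβ').2.2 β hl ha) hb
          · exact (h β hβ).1.1.2 x a b ha hb
          · exact (h β hβ).1.1.2 x a b ha ((h β hβ).2.2 β' hl hb)
      · rintro y (hy | hy)
        · exact hS₀ (Or.inr ⟨y, hy, rfl⟩)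
        · obtain ⟨β, hβ, hy⟩ := mem_iUnion₂.1 hy
          exact (h β hβ).1.2 y hy)
    (fun γ s hs => by
      set ζ := η (σ γ).1 with hζ
      set h := (σ γ).2 with hh
      obtain ⟨s₁, hs₁, hs₁S, hss₁, v, hv⟩ : ∃ s₁ : Set (Θ × G), Cond #T s₁ ∧ (∀ y ∈ s₁, y.1 ∈ S) ∧
          s ⊆ s₁ ∧ ∃ v, (ζ, v) ∈ s₁ := by
        by_cases hex : ∃ v, (ζ, v) ∈ s
        · exact ⟨s, hs.1, hs.2, subset_rfl, hex⟩
        · refine ⟨s ∪ {(ζ, 0)}, ⟨sm_union h0 hs.1.1 (sm_single h0 _), ?_⟩, ?_, subset_union_left,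
            0, Or.inr rfl⟩
          · rintro x a b (ha | ha) (hb | hb)
            · exact hs.1.2 x a b ha hb
            · obtain ⟨rfl, rfl⟩ := Prod.ext_iff.1 hb
              exact absurd ⟨a, ha⟩ hex
            · obtain ⟨rfl, rfl⟩ := Prod.ext_iff.1 ha
              exact absurd ⟨b, hb⟩ hex
            · exact (Prod.ext_iff.1 ha).2.trans (Prod.ext_iff.1 hb).2.symm
          · rintro y (hy | rfl)
            · exact hs.2 y hy
            · exact hη1 _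
      by_cases hg : Good #T K ζ (X ζ)
      swap
      · exact ⟨s₁, ⟨hs₁, hs₁S⟩, hss₁, ⟨v, hv⟩, fun h => absurd h hg⟩
      obtain ⟨o1, o2, o3, o4⟩ := ho' s₁ ζ h hs₁ hg
      set o₁ := o ζ (tr {y ∈ s₁ | y.1 < ζ} h) with ho₁
      have hoS : ∀ y ∈ o₁, y.1 ∈ S := fun y hy => by
        refine hSW s₁ hs₁.1 hs₁S (mem_iUnion₂.2 ⟨ζ, ⟨_, hv, rfl⟩, mem_iUnion₂.2 ⟨h, mem_univ _, ?_⟩⟩)
        rw [if_pos ⟨hs₁, hg⟩]
        exact ⟨y, hy, rfl⟩
      have key : ∀ x a b, (x, a) ∈ s₁ → (x, b) ∈ tr o₁ (-h) → a = b := by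
        intro x a b ha hb
        have hb' := mem_tr.1 hb
        have ha' : (x, a + h) ∈ o₁ := o3 ⟨(x, a), ⟨ha, o2 (x, b - -h) hb'⟩, rfl⟩
        have := o1.2 x _ _ ha' hb'
        simpa using this
      refine ⟨s₁ ∪ tr o₁ (-h), ⟨⟨sm_union h0 hs₁.1 (o1.tr _).1, ?_⟩, ?_⟩,
        hss₁.trans subset_union_left, ⟨v, Or.inl hv⟩, fun _ => ⟨o₁, o2, o4, fun y hy => ?_⟩⟩
      · rintro x a b (ha | ha) (hb | hb)
        · exact hs₁.2 x a b ha hb
        · exact key x a b ha hb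
        · exact (key x b a hb ha).symm
        · exact (o1.tr _).2 x a b ha hb
      · rintro y (hy | hy)
        · exact hs₁S y hy
        · exact hoS (y.1, y.2 - -h) (mem_tr.1 hy)
      · exact Or.inr (mem_tr.2 (by simpa using hy)))
  have hfn : ∀ γ γ' x a b, (x, a) ∈ r γ → (x, b) ∈ r γ' → a = b := by
    intro γ γ' x a b ha hb
    rcases lt_trichotomy γ γ' with hl | rfl | hl
    · exact (hr γ').1.1.2 x a b ((hr γ').2.2.1 γ hl ha) hb
    · exact (hr γ).1.1.2 x a b ha hb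
    · exact (hr γ).1.1.2 x a b ha ((hr γ).2.2.1 γ' hl hb)
  have h3 : ∀ i, ∃ v, (η i, v) ∈ r (jT (i, 0)) := fun i => by
    have := (hr (jT (i, 0))).2.2.2.1
    rwa [hσ] at this
  choose p hp using h3
  let idx : Θ × G → T := fun y => if hy : y.1 ∈ S then jS ⟨y.1, hy⟩ else a₀
  have hidx : ∀ γ, ∀ y ∈ r γ, y = (η (idx y), p (idx y)) := by
    intro γ y hy
    have hyS := (hr γ).1.2 y hy
    have e1 : η (idx y) = y.1 := by simp only [idx, dif_pos hyS]; exact hη2 _ _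
    refine Prod.ext e1.symm (hfn γ (jT (idx y, 0)) y.1 _ _ hy ?_)
    rw [← e1]
    exact hp _
  refine ⟨η, p, fun i h => jT (i, h), fun γ => idx '' r γ, fun i j hij => ?_,
    fun γ => sm_image _ (hr γ).1.1.1, fun γ y hy => ?_, fun i h hg => ?_⟩
  · exact hfn _ _ (η i) _ _ (hp i) (hij ▸ hp j)
  · exact ⟨idx y, ⟨y, (hr γ).2.1 hy, rfl⟩, hidx γ y ((hr γ).2.1 hy)⟩
  · have := (hr (jT (i, h))).2.2.2.2
    rw [hσ] at this
    obtain ⟨o', o1, o2, o3⟩ := this hg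
    refine ⟨o', o1, o2, fun y hy => ⟨idx (y.1, y.2 - h), ⟨_, o3 y hy, rfl⟩, ?_⟩⟩
    have e := Prod.ext_iff.1 (hidx _ _ (o3 y hy))
    refine Prod.ext e.1 ?_
    have e2 : y.2 - h = p (idx (y.1, y.2 - h)) := e.2
    show y.2 = p (idx (y.1, y.2 - h)) + h
    rw [← e2, sub_add_cancel]

end Pool.Agent.P.MP_39acbb_lc
end

-- part Pool.Agent.P.MP_39acbb_lc.Dia
section

set_option autoImplicit false
set_option linter.deprecated false

namespace Pool.Agent.P.MP_39acbb_lc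

open Cardinal Set

universe u

variable {T : Type u} [LinearOrder T]

/-- The diamond sequence, read as a sequence of functions on `2 ^ κ` many columns. -/
lemma guess_cols (hT : Reg T) (hg : Guess T) {Θ G : Type u} [Zero G] (hG : #G ≤ #T)
    (b : Θ → Set T) (hb : Function.Injective b) :
    ∃ t : T → Θ → G, ∀ (η : T → Θ) (p : T → G), (∀ i j, η i = η j → p i = p j) →
      ∀ (F : T → Set T), (∀ γ, #(F γ) < #T) → ∀ a,
        ∃ ε, a < ε ∧ (∀ γ < ε, F γ ⊆ Iio ε) ∧ ∀ i < ε, t ε (η i) = p i := by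
  classical
  have h0 := hT.inf
  obtain ⟨D, hD⟩ := hg
  have h1 : #(T × (T ⊕ G)) ≤ #T := by
    rw [mk_prod, mk_sum, lift_id, lift_id, lift_id]
    exact mul_le_of_le h0 le_rfl (add_le_of_le h0 le_rfl hG)
  obtain ⟨c⟩ := (le_def _ _).1 h1
  let P : T → Θ → G → Prop := fun ε θ g => ∃ i < ε,
    (∀ β < ε, β ∈ b θ ↔ c (i, Sum.inl β) ∈ D ε) ∧ c (i, Sum.inr g) ∈ D ε
  refine ⟨fun ε θ => if h : ∃ g, P ε θ g then h.choose else 0, fun η p hp F hF a => ?_⟩
  have h2 : ∀ θ θ' : Θ, ∃ β, θ ≠ θ' → ¬ (β ∈ b θ ↔ β ∈ b θ') := fun θ θ' => by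
    by_cases h : θ = θ'
    · exact ⟨a, fun h' => absurd h h'⟩
    · by_contra hcon
      push Not at hcon
      exact h (hb (Set.ext fun β => (hcon β).2))
  choose w hw using h2
  let Z : Set T := c '' {x | match x with
    | (i, Sum.inl β) => β ∈ b (η i)
    | (i, Sum.inr g) => g = p i}
  have hZ1 : ∀ i β, c (i, Sum.inl β) ∈ Z ↔ β ∈ b (η i) := fun i β => by
    rw [c.injective.mem_set_image]; rfl
  have hZ2 : ∀ i g, c (i, Sum.inr g) ∈ Z ↔ g = p i := fun i g => by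
    rw [c.injective.mem_set_image]; rfl
  obtain ⟨ε, hε, hcl, hZ⟩ := hD Z (fun γ => F γ ∪ ({c (γ, Sum.inr (p γ))} ∪
    ((fun x : T × T => c (x.1, Sum.inl x.2)) '' (Iic γ ×ˢ Iic γ) ∪
      (fun x : T × T => w (η x.1) (η x.2)) '' (Iic γ ×ˢ Iic γ))))
    (fun γ => sm_union h0 (hF γ) (sm_union h0 (sm_single h0 _) (sm_union h0
      (sm_image _ (sm_prod h0 (hT.iic γ) (hT.iic γ)))
      (sm_image _ (sm_prod h0 (hT.iic γ) (hT.iic γ)))))) a
  have c1 : ∀ i < ε, c (i, Sum.inr (p i)) < ε := fun i hi => hcl i hi (Or.inr (Or.inl rfl))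
  have c2 : ∀ i < ε, ∀ β < ε, c (i, Sum.inl β) < ε := fun i hi β hβ =>
    hcl (max i β) (max_lt hi hβ) (Or.inr (Or.inr (Or.inl
      ⟨(i, β), ⟨le_max_left i β, le_max_right i β⟩, rfl⟩)))
  have c3 : ∀ i < ε, ∀ j < ε, w (η i) (η j) < ε := fun i hi j hj =>
    hcl (max i j) (max_lt hi hj) (Or.inr (Or.inr (Or.inr
      ⟨(i, j), ⟨le_max_left i j, le_max_right i j⟩, rfl⟩)))
  have d1 : ∀ i < ε, ∀ β < ε, (β ∈ b (η i) ↔ c (i, Sum.inl β) ∈ D ε) := fun i hi β hβ => by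
    rw [← hZ, mem_inter_iff, hZ1]
    exact ⟨fun h => ⟨h, c2 i hi β hβ⟩, fun h => h.1⟩
  refine ⟨ε, hε, fun γ hγ => subset_union_left.trans (hcl γ hγ), fun i hi => ?_⟩
  have hex : ∃ g, P ε (η i) g := ⟨p i, i, hi, d1 i hi, by
    rw [← hZ]; exact ⟨(hZ2 _ _).2 rfl, c1 i hi⟩⟩
  show (if h : ∃ g, P ε (η i) g then h.choose else 0) = p i
  rw [dif_pos hex]
  obtain ⟨j, hj, e1, e2⟩ := hex.choose_spec
  rw [← hZ] at e2
  rw [(hZ2 _ _).1 e2.1]
  apply hp
  by_contra hne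
  have := c3 j hj i hi
  exact hw _ _ hne ((d1 j hj _ this).trans (e1 _ this).symm)

theorem nodec_of_guess [WellFoundedLT T] (hT : Reg T) (hun : ℵ₀ < #T) (hg : Guess T) :
    Nodec (T →₀ ZMod 2) := by
  classical
  have h0 := hT.inf
  have hc := hg.cnt hT
  have hG := mk_G_le hT
  have hθ : ℵ₀ ≤ 2 ^ #T := h0.trans (cantor _).le
  let Θ := (2 ^ #T : Cardinal.{u}).ord.ToType
  have hΘ : #Θ = 2 ^ #T := mk_ord_toType _
  have hne : Nonempty Θ := by
    rw [← mk_ne_zero_iff, hΘ]; exact (aleph0_pos.trans_le hθ).ne'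
  have := hT.nonempty
  obtain ⟨b⟩ : Nonempty (Θ ↪ Set T) := (le_def _ _).1 (by rw [hΘ, mk_set])
  obtain ⟨t, ht⟩ := guess_cols hT hg hG b b.injective
  obtain ⟨f, hf⟩ := book hθ (Y := Set (T →₀ ZMod 2) × T) (by
    rw [mk_prod, lift_id, lift_id, mk_set]
    exact mul_le_of_le hθ (power_le_power_left two_ne_zero hG) (cantor _).le)
  let X : Θ → Set (T →₀ ZMod 2) := fun η => (f η).1
  let α : Θ → T := fun η => (f η).2
  let A : (Θ → AddSubgroup (T →₀ ZMod 2)) → Θ → Set T := fun K η =>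
    {ε | α η ≤ ε ∧ t ε η ∈ H ε ∧
      (Good #T K η (X η) → ∀ h ∈ H ε, Finsupp.single ε (1 : ZMod 2) + h ∉ X η)}
  let k : Θ → T → (T →₀ ZMod 2) := fun η ε => Finsupp.single ε (1 : ZMod 2) - t ε η
  obtain ⟨K, hK'⟩ := col_rec (Θ := Θ) (fun η K' => AddSubgroup.closure (k η '' A K' η))
  have hK : ∀ η, K η = AddSubgroup.closure (k η '' A K η) := fun η => by
    obtain ⟨K', h1, h2⟩ := hK' η
    rw [h2]
    simp only [A, Good_congr h1]
  have htop : ∀ η, ∀ x ∈ K η, x = 0 ∨ ∃ ε ∈ A K η, x - Finsupp.single ε (1 : ZMod 2) ∈ H ε := by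
    intro η x hx
    rw [hK] at hx
    rcases top_lemma bool_G (k η) (A K η) H (fun i hi j hij =>
      sub_mem (single_mem_H hij) (H_mono hij.le hi.2.1)) hx with h | ⟨ε, hε, h⟩
    · exact Or.inl h
    · refine Or.inr ⟨ε, hε, ?_⟩
      have := sub_mem h hε.2.1
      simp only [k] at this
      convert this using 1
      abel
  refine final hT.reg hc hG K (fun X₀ S hS => ?_) (fun q hq g₀ => ?_) (fun g hg0 => ?_)
  · obtain ⟨b₀, hb₀⟩ := bdd_toType S (hS.trans_lt (lt_cof_ord_power h0 (by norm_num)))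
    obtain ⟨η, hη, hfη⟩ := hf (X₀, Classical.arbitrary T) b₀
    refine ⟨η, fun ζ hζ => (hb₀ ζ hζ).trans hη, fun hgd c => ?_⟩
    have hX : X η = X₀ := congrArg Prod.fst hfη
    obtain ⟨a, ha⟩ := exists_mem_H hT c
    refine sm_mono ?_ (sm_supp hun (hT.init a))
    rintro g ⟨hgX, hgK⟩ β hβ
    have hga : g ∈ H a := by
      rcases htop η _ hgK with h | ⟨ε, hε, h⟩
      · rw [sub_eq_zero.1 h]; exact ha
      · rcases le_or_gt a ε with hl | hl
        · exfalso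
          refine hε.2.2 (hX ▸ hgd) _ (add_mem h (H_mono hl ha)) ?_
          rw [hX]
          convert hgX using 1
          abel
        · have := add_mem (add_mem (H_mono hl.le h) (single_mem_H hl)) ha
          simpa using this
    exact hga β (not_lt.1 hβ)
  · obtain ⟨η, p, τ, R, e1, e2, e3, e4⟩ := generic_chain hT hc hG K X q hq
    obtain ⟨a, ha⟩ := exists_mem_H hT g₀
    obtain ⟨ε, hε, hcl, hte⟩ := ht η p e1 (fun γ => R γ ∪ ({α (η γ)} ∪ ((p γ).support ∪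
      (fun x : T × (T →₀ ZMod 2) => τ x.1 x.2) ''
        (Iic γ ×ˢ {g : T →₀ ZMod 2 | ∀ β, β ∉ Iic γ → g β = 0}))))
      (fun γ => sm_union h0 (e2 γ) (sm_union h0 (sm_single h0 _) (sm_union h0
        (sm_finite h0 (Finset.finite_toSet _))
        (sm_image _ (sm_prod h0 (hT.iic γ) (sm_supp hun (hT.iic γ))))))) a
    have key : ∀ ζ : Θ, ∀ i < ε, η i = ζ → ε ∈ A K ζ := by
      intro ζ
      induction ζ using WellFoundedLT.induction with
      | ind ζ ih =>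
        rintro i hi rfl
        refine ⟨le_of_lt (hcl i hi (Or.inr (Or.inl rfl))), ?_, fun hgd h hh => ?_⟩
        · rw [hte i hi]
          intro β hβ
          by_contra hne
          exact absurd (hcl i hi (Or.inr (Or.inr (Or.inl (Finsupp.mem_support_iff.2 hne)))))
            (not_lt.2 hβ)
        · obtain ⟨γ, hγ, hiγ, hh'⟩ := H_bound hi hh
          have hτ : τ i h < ε := hcl γ hγ (Or.inr (Or.inr (Or.inr ⟨(i, h), ⟨hiγ, hh'⟩, rfl⟩)))
          obtain ⟨o, o1, o2, o3⟩ := e4 i h hgd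
          refine o2 _ fun y hy => ?_
          obtain ⟨j, hj, rfl⟩ := o3 y hy
          have hjε : j < ε := hcl _ hτ (Or.inl hj)
          have hA := ih (η j) (o1 _ hy) j hjε rfl
          have : k (η j) ε ∈ K (η j) := by
            rw [hK]; exact AddSubgroup.subset_closure ⟨ε, hA, rfl⟩
          simp only [k, hte j hjε] at this
          show Finsupp.single ε 1 + h - (p j + h) ∈ K (η j)
          rwa [add_sub_add_right_eq_sub]
    refine ⟨Finsupp.single ε 1, fun y hy => ?_, fun h => ?_⟩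
    · obtain ⟨j, hj, rfl⟩ := e3 a y hy
      have hjε : j < ε := hcl _ hε (Or.inl hj)
      have : k (η j) ε ∈ K (η j) := by
        rw [hK]; exact AddSubgroup.subset_closure ⟨ε, key _ j hjε rfl, rfl⟩
      simpa only [k, hte j hjε] using this
    · exact single_not_mem_H ε (h ▸ H_mono hε.le ha)
  · obtain ⟨a, ha⟩ := exists_mem_H hT g
    obtain ⟨η, -, hfη⟩ := hf (∅, a) (Classical.arbitrary Θ)
    have hα : α η = a := congrArg Prod.snd hfη
    refine ⟨η, fun hgK => ?_⟩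
    rcases htop η _ hgK with h | ⟨ε, hε, h⟩
    · exact hg0 h
    · have := sub_mem (H_mono (hα ▸ hε.1 : a ≤ ε) ha) h
      exact single_not_mem_H ε (by simpa using this)

/-- The usual diamond principle implies the form used above. -/
lemma guess_of_diamond [WellFoundedLT T] (hT : Reg T) (hun : ℵ₀ < #T) (D : T → Set T)
    (hD : ∀ Z : Set T, IsStationary {ε | Z ∩ Iio ε = D ε}) : Guess T := by
  refine ⟨D, fun Z F hF a => ?_⟩
  have hcl : IsClub {ε | a < ε ∧ ∀ γ < ε, F γ ⊆ Iio ε} := by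
    constructor
    · intro s hs hne _ x hx
      obtain ⟨y, hy⟩ := hne
      refine ⟨(hs hy).1.trans_le (hx.1 hy), fun γ hγ => ?_⟩
      obtain ⟨z, hz, hγz, -⟩ := hx.exists_between hγ
      exact fun w hw => lt_of_lt_of_le ((hs hz).2 γ hγz hw) (hx.1 hz)
    · intro x
      have h1 : ∀ y, ∃ z, y < z ∧ ∀ γ ≤ y, F γ ⊆ Iio z := fun y => by
        obtain ⟨z, hz⟩ := hT.bdd ({y} ∪ ⋃ γ ∈ Iic y, F γ) (sm_union hT.inf (sm_single hT.inf _)
          (sm_biUnion hT.reg (hT.iic y) fun γ _ => hF γ))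
        exact ⟨z, hz y (Or.inl rfl), fun γ hγ w hw => hz w (Or.inr (mem_iUnion₂.2 ⟨γ, hγ, hw⟩))⟩
      choose f hf using h1
      let g : ℕ → T := fun n => f^[n] (max a x)
      have hg : ∀ n, g (n + 1) = f (g n) := fun n => Function.iterate_succ_apply' _ _ _
      have hne : {z | ∀ n, g n < z}.Nonempty := by
        obtain ⟨z, hz⟩ := hT.bdd (range g)
          (lt_of_le_of_lt (le_aleph0_iff_set_countable.2 (countable_range g)) hun)
        exact ⟨z, fun n => hz _ ⟨n, rfl⟩⟩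
      let ε := wellFounded_lt.min _ hne
      have hε : ∀ n, g n < ε := wellFounded_lt.min_mem _ hne
      refine ⟨ε, ⟨(le_max_left a x).trans_lt (hε 0), fun γ hγ => ?_⟩,
        ((le_max_right a x).trans_lt (hε 0)).le⟩
      have : ∃ n, γ ≤ g n := by
        by_contra hcon
        push Not at hcon
        exact wellFounded_lt.not_lt_min {z | ∀ n, g n < z} (x := γ) hcon hγ
      obtain ⟨n, hn⟩ := this
      exact fun w hw => lt_trans ((hf (g n)).2 γ hn hw) (hg n ▸ hε (n + 1))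
  obtain ⟨ε, h1, h2⟩ := hD Z hcl
  exact ⟨ε, h2.1, h2.2, h1⟩

end Pool.Agent.P.MP_39acbb_lc
end

-- part Pool.Agent.P.MP_39acbb_lc.Shelah
section

set_option autoImplicit false
set_option linter.deprecated false

namespace Pool.Agent.P.MP_39acbb_lc

open Cardinal Set

universe u

variable {T L : Type u} [LinearOrder T] [LinearOrder L]

/-- closure points whose cofinality differs from that of `L` -/
lemma exists_nice [WellFoundedLT T] (hT : Reg T) [NoMaxOrder L] {σ : Cardinal.{u}}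
    (hσ : σ.IsRegular) (hσT : σ < #T) (hσL : σ ≠ Order.cof L) (F : T → Set T)
    (hF : ∀ γ, #(F γ) < #T) (a : T) :
    ∃ δ, a < δ ∧ (∀ γ < δ, F γ ⊆ Iio δ) ∧
      ∀ g : T → L, ∃ j, ∀ β < δ, ∃ α, β ≤ α ∧ α < δ ∧ g α < j := by
  classical
  have h0 := hT.inf
  have hW := reg_toType hσ
  have hk : #σ.ord.ToType = σ := mk_ord_toType σ
  obtain ⟨r, hr⟩ := chain_rec (T := σ.ord.ToType) ({a} : Set T) (fun s => #s < #T)
    (fun _ s s' => ∃ b ∈ s', (∀ y ∈ s, y < b) ∧ (∀ y ∈ s, ∀ γ ≤ y, F γ ⊆ Iio b) ∧ ∀ y ∈ s', y ≤ b)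
    (fun γ r h => sm_union h0 (sm_single h0 _) (sm_biUnion hT.reg
      (((hW.init γ).trans_eq hk).trans hσT) fun β hβ => (h β hβ).1))
    (fun γ s hs => by
      obtain ⟨b, hb⟩ := hT.bdd (s ∪ ⋃ y ∈ s, ⋃ γ ∈ Iic y, F γ) (sm_union h0 hs
        (sm_biUnion hT.reg hs fun y _ => sm_biUnion hT.reg (hT.iic y) fun γ _ => hF γ))
      refine ⟨s ∪ {b}, sm_union h0 hs (sm_single h0 _), subset_union_left, b, Or.inr rfl,
        fun y hy => hb y (Or.inl hy), fun y hy γ hγ w hw => hb w (Or.inr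
          (mem_iUnion₂.2 ⟨y, hy, mem_iUnion₂.2 ⟨γ, hγ, hw⟩⟩)), ?_⟩
      rintro y (hy | rfl)
      · exact (hb y (Or.inl hy)).le
      · exact le_rfl)
  choose b hb1 hb2 hb3 hb4 using fun γ => (hr γ).2.2.2
  have hmem : ∀ ξ ξ', ξ < ξ' → b ξ ∈ ({a} : Set T) ∪ ⋃ β ∈ Iio ξ', r β := fun ξ ξ' h =>
    Or.inr (mem_iUnion₂.2 ⟨ξ, h, hb1 ξ⟩)
  have hmono : StrictMono b := fun ξ ξ' h => hb2 ξ' _ (hmem ξ ξ' h)
  have hne : {z | ∀ ξ, b ξ < z}.Nonempty := by
    obtain ⟨z, hz⟩ := hT.bdd (range b) (mk_range_le.trans_lt (hk.trans_lt hσT))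
    exact ⟨z, fun n => hz _ ⟨n, rfl⟩⟩
  let δ := wellFounded_lt.min _ hne
  have hδ : ∀ ξ, b ξ < δ := wellFounded_lt.min_mem _ hne
  have hcof : ∀ γ < δ, ∃ ξ, γ ≤ b ξ := fun γ hγ => by
    by_contra hcon
    push Not at hcon
    exact wellFounded_lt.not_lt_min {z | ∀ ξ, b ξ < z} (x := γ) hcon hγ
  obtain ⟨ξ₀⟩ := hW.nonempty
  refine ⟨δ, (hb2 ξ₀ a (Or.inl rfl)).trans (hδ ξ₀), fun γ hγ w hw => ?_, fun g => ?_⟩
  · obtain ⟨ξ, hξ⟩ := hcof γ hγ
    obtain ⟨ξ', hξ'⟩ := hW.exists_gt ξ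
    exact lt_trans (hb3 ξ' _ (hmem ξ ξ' hξ') γ hξ hw) (hδ ξ')
  · by_contra hcon
    push Not at hcon
    have h1 : ∀ j, ∃ ξ, ∀ ξ', ξ ≤ ξ' → j ≤ g (b ξ') := fun j => by
      obtain ⟨β, hβ, h⟩ := hcon j
      obtain ⟨ξ, hξ⟩ := hcof β hβ
      exact ⟨ξ, fun ξ' h' => h _ (hξ.trans (hmono.monotone h')) (hδ ξ')⟩
    choose x hx using h1
    apply hσL
    apply le_antisymm
    · obtain ⟨Y, hY, hYc⟩ := Order.exists_cof_eq L
      by_contra hlt
      rw [not_le, ← hYc] at hlt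
      obtain ⟨ξ, hξ⟩ := hW.bdd (x '' Y) (by rw [hk]; exact sm_image _ hlt)
      obtain ⟨j, hj⟩ := exists_gt (g (b ξ))
      obtain ⟨j', hj', hjj⟩ := hY j
      exact absurd (hx j' ξ (hξ _ ⟨j', hj', rfl⟩).le) (not_le.2 (hj.trans_le hjj))
    · refine (Order.cof_le (s := range fun ξ => g (b ξ)) fun j => ?_).trans
        (mk_range_le.trans hk.le)
      exact ⟨_, ⟨x j, rfl⟩, hx j _ le_rfl⟩

/-- Shelah's theorem: `2 ^ μ = μ⁺` implies diamond at `μ⁺` for uncountable `μ`. -/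
theorem guess_of_gch {μ : Cardinal.{u}} (hμ : ℵ₀ < μ) (h : 2 ^ μ = Order.succ μ) :
    Guess (Order.succ μ).ord.ToType := by
  classical
  have hreg := isRegular_succ hμ.le
  have hT := reg_toType hreg
  set T := (Order.succ μ).ord.ToType with hTdef
  have hkT : #T = Order.succ μ := mk_ord_toType _
  have h0 := hT.inf
  set L := μ.ord.ToType with hLdef
  have hkL : #L = μ := mk_ord_toType _
  have : NoMaxOrder L := noMaxOrder hμ.le
  have hLT : #L < #T := by rw [hkL, hkT]; exact Order.lt_succ μ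
  have hLi : ∀ j : L, #(Iio j) < μ := fun j => mk_Iio_toType_ord_lt j
  have hLne : Nonempty L := by
    rw [← mk_ne_zero_iff, hkL]; exact (aleph0_pos.trans hμ).ne'
  have hTne := hT.nonempty
  obtain ⟨σ, hσ, hσT, hσL⟩ : ∃ σ : Cardinal.{u}, σ.IsRegular ∧ σ < #T ∧ σ ≠ Order.cof L := by
    by_cases hc : Order.cof L = ℵ₀
    · refine ⟨Order.succ ℵ₀, isRegular_succ le_rfl, ?_, ?_⟩
      · rw [hkT]; exact Order.lt_succ_of_le (Order.succ_le_of_lt hμ)
      · rw [hc]; exact (Order.lt_succ _).ne'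
    · exact ⟨ℵ₀, isRegular_aleph0, by rw [hkT]; exact Order.lt_succ_of_le hμ.le, Ne.symm hc⟩
  -- injections of initial segments into `L`
  have h1 : ∀ δ : T, ∃ u : T → L, InjOn u (Iio δ) := fun δ => by
    have : #(Iio δ) ≤ #L := by
      rw [hkL]; exact Order.le_of_lt_succ ((hT.init δ).trans_eq hkT)
    obtain ⟨e⟩ := (le_def _ _).1 this
    refine ⟨fun x => if hx : x < δ then e ⟨x, hx⟩ else Classical.arbitrary L, fun x hx y hy hxy => ?_⟩
    simp only [dif_pos (mem_Iio.1 hx), dif_pos (mem_Iio.1 hy)] at hxy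
    exact congrArg Subtype.val (e.injective hxy)
  choose u hu using h1
  let A : T → L → Set T := fun δ j => {β | β < δ ∧ u δ β < j}
  have hA : ∀ δ j, #(A δ j) < μ := fun δ j =>
    lt_of_le_of_lt (mk_le_of_injective (f := fun β : A δ j => (⟨u δ β.1, β.2.2⟩ : Iio j))
      fun β β' hβ => Subtype.ext (hu δ β.2.1 β'.2.1 (congrArg (fun z : Iio j => z.1) hβ))) (hLi j)
  -- enumeration of the small sets
  obtain ⟨X, hX⟩ : ∃ X : T → Set (L × L × T), ∀ s : Set (L × L × T), #s ≤ μ → ∃ β, X β = s := by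
    have h2 : #{s : Set (L × L × T) // #s ≤ μ} ≤ #T := by
      refine (mk_bounded_set_le _ _).trans ?_
      have : max #(L × L × T) ℵ₀ ≤ 2 ^ μ := by
        rw [h, ← hkT]
        refine max_le ?_ h0
        rw [mk_prod, mk_prod, lift_id, lift_id, lift_id]
        exact mul_le_of_le h0 hLT.le (mul_le_of_le h0 hLT.le le_rfl)
      refine (power_le_power_right this).trans ?_
      rw [← power_mul, mul_eq_self hμ.le, h, hkT]
    obtain ⟨e⟩ := (le_def _ _).1 h2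
    have : Nonempty {s : Set (L × L × T) // #s ≤ μ} := ⟨⟨∅, by simp⟩⟩
    exact ⟨fun β => (Function.invFun e β).1, fun s hs => ⟨e ⟨s, hs⟩, by
      simp only [Function.leftInverse_invFun e.injective _]⟩⟩
  let Xs : T → L → L → Set T := fun β j τ => {x | (j, τ, x) ∈ X β}
  have lem1 : ∃ j : L, ∀ (Z : L → Set T) (F : T → Set T), (∀ γ, #(F γ) < #T) → ∀ a, ∃ δ, a < δ ∧
      (∀ γ < δ, F γ ⊆ Iio δ) ∧ ∀ β' < δ, ∃ α ∈ A δ j, ∃ β ∈ A δ j, β' ≤ α ∧
        ∀ τ, Xs β j τ = Z τ ∩ Iio α := by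
    by_contra hcon
    push Not at hcon
    choose Z F hF a hbad using hcon
    have h3 : ∀ α : T, ∃ β, X β = {y | y.2.2 ∈ Z y.1 y.2.1 ∧ y.2.2 < α} := fun α => by
      apply hX
      refine le_trans (mk_le_mk_of_subset
        (t := (Set.univ : Set L) ×ˢ (Set.univ : Set L) ×ˢ Iio α) fun y hy => ⟨trivial, trivial, hy.2⟩) ?_
      rw [mk_setProd, mk_setProd, mk_univ, hkL]
      exact mul_le_of_le hμ.le le_rfl (mul_le_of_le hμ.le le_rfl
        (Order.le_of_lt_succ ((hT.init α).trans_eq hkT)))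
    choose f hf using h3
    obtain ⟨a₀, ha₀⟩ := hT.bdd (range a) (mk_range_le.trans_lt hLT)
    obtain ⟨δ, d1, d2, d3⟩ := exists_nice (L := L) hT hσ hσT hσL
      (fun γ => {f γ} ∪ ⋃ j ∈ (Set.univ : Set L), F j γ)
      (fun γ => sm_union h0 (sm_single h0 _) (sm_biUnion hT.reg (by rwa [mk_univ])
        fun j _ => hF j γ)) a₀
    obtain ⟨j, hj⟩ := d3 (fun α => max (u δ α) (u δ (f α)))
    obtain ⟨β', hβ', hb⟩ := hbad j δ ((ha₀ _ ⟨j, rfl⟩).trans d1)
      (fun γ hγ w hw => d2 γ hγ (Or.inr (mem_iUnion₂.2 ⟨j, trivial, hw⟩)))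
    obtain ⟨α, e1, e2, e3⟩ := hj β' hβ'
    obtain ⟨τ, hτ⟩ := hb α ⟨e2, (le_max_left _ _).trans_lt e3⟩ (f α)
      ⟨d2 α e2 (Or.inl rfl), (le_max_right _ _).trans_lt e3⟩ e1
    apply hτ
    ext x
    simp only [Xs, hf α, mem_setOf_eq, mem_inter_iff, mem_Iio]
  obtain ⟨j, hj⟩ := lem1
  by_contra hng
  let V : (L → Set T) → L → T → Set (T × T) := fun Z τ δ =>
    {y | y.1 ∈ A δ j ∧ y.2 ∈ A δ j ∧ ∀ η < τ, Xs y.2 j η = Z η ∩ Iio y.1}
  let S : (L → Set T) → L → T → Set T := fun Z τ δ => ⋃ y ∈ V Z τ δ, Xs y.2 j τ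
  have hV : ∀ Z Z' τ δ, (∀ η < τ, Z η = Z' η) → V Z τ δ = V Z' τ δ := fun Z Z' τ δ hZ => by
    ext y
    refine and_congr_right fun _ => and_congr_right fun _ => forall₂_congr fun η hη => ?_
    rw [hZ η hη]
  have h4 : ∀ (τ : L) (Z : L → Set T), ∃ (Z' : Set T) (F : T → Set T), (∀ γ, #(F γ) < #T) ∧ ∃ a,
      ∀ ε, a < ε → (∀ γ < ε, F γ ⊆ Iio ε) → Z' ∩ Iio ε ≠ S Z τ ε := fun τ Z => by
    by_contra hcon
    push Not at hcon
    exact hng ⟨S Z τ, hcon⟩
  choose Zb Fb hFb ab hbad using h4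
  let Z : L → Set T := (wellFounded_lt (α := L)).fix
    (fun τ rec => Zb τ (fun η => if h : η < τ then rec η h else ∅))
  let Z' : L → L → Set T := fun τ η => if η < τ then Z η else ∅
  have hZ : ∀ τ, Z τ = Zb τ (Z' τ) := fun τ => by
    show (wellFounded_lt (α := L)).fix _ τ = _
    rw [WellFounded.fix_eq]
    congr 1
  have hVZ : ∀ τ δ, V (Z' τ) τ δ = V Z τ δ := fun τ δ => hV _ _ _ _ fun η hη => if_pos hη
  choose sc hsc using hT.exists_gt
  obtain ⟨a₀, ha₀⟩ := hT.bdd (range fun τ => ab τ (Z' τ)) (mk_range_le.trans_lt hLT)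
  obtain ⟨δ, d1, d2, d3⟩ := hj Z (fun γ => {sc γ} ∪ ⋃ τ ∈ (Set.univ : Set L), Fb τ (Z' τ) γ)
    (fun γ => sm_union h0 (sm_single h0 _) (sm_biUnion hT.reg (by rwa [mk_univ])
      fun τ _ => hFb τ _ γ)) a₀
  have h5 : ∀ τ, ∃ y ∈ V Z τ δ, Xs y.2 j τ ≠ Z τ ∩ Iio y.1 := fun τ => by
    by_contra hcon
    push Not at hcon
    refine hbad τ (Z' τ) δ ((ha₀ _ ⟨τ, rfl⟩).trans d1)
      (fun γ hγ w hw => d2 γ hγ (Or.inr (mem_iUnion₂.2 ⟨τ, trivial, hw⟩))) ?_
    rw [← hZ]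
    simp only [S, hVZ]
    ext x
    rw [mem_iUnion₂]
    constructor
    · rintro ⟨hx1, hx2⟩
      obtain ⟨α, hα, β, hβ, e1, e2⟩ := d3 (sc x) (d2 x hx2 (Or.inl rfl))
      refine ⟨(α, β), ⟨hα, hβ, fun η _ => e2 η⟩, ?_⟩
      rw [e2 τ]
      exact ⟨hx1, (hsc x).trans_le e1⟩
    · rintro ⟨y, hy, hx⟩
      rw [hcon y hy] at hx
      exact ⟨hx.1, lt_trans hx.2 hy.1.1⟩
  choose w hw1 hw2 using h5
  have h6 : #L ≤ #(A δ j ×ˢ A δ j : Set (T × T)) :=
    mk_le_of_injective (f := fun τ => (⟨w τ, (hw1 τ).1, (hw1 τ).2.1⟩ : (A δ j ×ˢ A δ j : Set (T × T))))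
      fun τ τ' hτ => by
        have e : w τ = w τ' := congrArg (fun z : (A δ j ×ˢ A δ j : Set (T × T)) => z.1) hτ
        rcases lt_trichotomy τ τ' with hl | hl | hl
        · exact absurd (e ▸ (hw1 τ').2.2 τ hl) (hw2 τ)
        · exact hl
        · exact absurd (e ▸ (hw1 τ).2.2 τ' hl) (hw2 τ')
  rw [hkL] at h6
  exact absurd (sm_prod hμ.le (hA δ j) (hA δ j)) (not_lt.2 h6)

end Pool.Agent.P.MP_39acbb_lc
end

-- part Pool.Agent.P.MP_39acbb_lc.CH
section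

set_option autoImplicit false
set_option linter.deprecated false

namespace Pool.Agent.P.MP_39acbb_lc

open Cardinal Set

universe u

lemma cnt_aleph0 : Cnt (ℵ₀ : Cardinal.{u}) := by
  intro Y S hS
  rw [le_aleph0_iff_set_countable] at hS ⊢
  refine (countable_setOf_finite_subset hS).mono fun c hc => ?_
  exact ⟨lt_aleph0_iff_set_finite.1 hc.2, hc.1⟩

section step
variable {Θ G : Type u} [LinearOrder Θ] [AddCommGroup G]

lemma good_finite {K : Θ → AddSubgroup G} {η : Θ} {X : Set G} (hg : Good ℵ₀ K η X)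
    {s : Set G} (hs : s.Finite) (q : Set (Θ × G)) (hq : Cond ℵ₀ q) (hqη : ∀ p ∈ q, p.1 < η) :
    ∃ o : Set (Θ × G), Cond ℵ₀ o ∧ (∀ p ∈ o, p.1 < η) ∧ q ⊆ o ∧
      ∀ g ∈ U K o, ∀ h ∈ s, g + h ∉ X := by
  induction s, hs using Set.Finite.induction_on with
  | empty => exact ⟨q, hq, hqη, subset_rfl, fun _ _ _ h => absurd h (notMem_empty _)⟩
  | @insert h s _ _ ih =>
    obtain ⟨o, o1, o2, o3, o4⟩ := ih
    obtain ⟨o', p1, p2, p3, p4⟩ := hg (tr o h) (o1.tr h) (fun p hp => o2 (p.1, p.2 - h) (mem_tr.1 hp))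
    have hsub : o ⊆ tr o' (-h) := fun p hp => mem_tr.2 (p3 (mem_tr.2 (by simpa using hp)))
    refine ⟨tr o' (-h), p1.tr _, fun p hp => p2 (p.1, p.2 - -h) (mem_tr.1 hp), o3.trans hsub, ?_⟩
    rintro g hg h' (rfl | hh')
    · exact p4 _ (by simpa using mem_U_tr.1 hg)
    · exact o4 g (U_anti K hsub hg) h' hh'

/-- what is asked of a new column -/
def Nice (K : Θ → AddSubgroup G) (η : Θ) (X : Set G) (a : G) (K₁ : AddSubgroup G) : Prop :=
  (∀ q : Set (Θ × G), Cond ℵ₀ q → (∀ p ∈ q, p.1 < η) → ∀ c, {g | g ∈ U K q ∧ g - c ∈ K₁}.Infinite) ∧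
    (Good ℵ₀ K η X → ∀ c, {g | g ∈ X ∧ g - c ∈ K₁}.Finite) ∧ (a ≠ 0 → a ∉ K₁)

lemma Nice_congr {K K' : Θ → AddSubgroup G} {η : Θ} (h : ∀ ζ < η, K ζ = K' ζ) (X : Set G) (a : G)
    (K₁ : AddSubgroup G) : Nice K η X a K₁ ↔ Nice K' η X a K₁ := by
  refine and_congr (forall_congr' fun q => forall_congr' fun _ => forall_congr' fun hq => ?_) ?_
  · rw [U_congr h hq]
  · rw [Good_congr h]

lemma exists_nice_col [Countable G] (h2 : ∀ x : G, x + x = 0) (K : Θ → AddSubgroup G) (η : Θ)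
    (hη : (Iio η).Countable) (X : Set G) (a : G)
    (hinf : ∀ q : Set (Θ × G), Cond ℵ₀ q → (∀ p ∈ q, p.1 < η) → (U K q).Infinite) :
    ∃ K₁, Nice K η X a K₁ := by
  classical
  have hct : {q : Set (Θ × G) | Cond ℵ₀ q ∧ ∀ p ∈ q, p.1 < η}.Countable := by
    refine (countable_setOf_finite_subset (hη.prod (countable_univ (α := G)))).mono fun c hc => ?_
    exact ⟨lt_aleph0_iff_set_finite.1 hc.1.1, fun p hp => ⟨hc.2 p hp, trivial⟩⟩
  obtain ⟨e, he⟩ := hct.exists_eq_range ⟨∅, ⟨sm_finite le_rfl finite_empty,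
    fun _ _ _ h => absurd h (notMem_empty _)⟩, fun _ h => absurd h (notMem_empty _)⟩
  have he1 : ∀ n, Cond ℵ₀ (e n) ∧ ∀ p ∈ e n, p.1 < η := fun n => by
    have : e n ∈ range e := ⟨n, rfl⟩
    rwa [← he] at this
  obtain ⟨gs, hgs⟩ := exists_surjective_nat G
  have step : ∀ (n : ℕ) (s : Finset G), ∃ k, k ∈ U K (e n.unpair.1) ∧
      k ∉ AddSubgroup.closure (s : Set G) ∧
      (Good ℵ₀ K η X → ∀ h ∈ AddSubgroup.closure (s : Set G), k + h ∉ X) := fun n s => by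
    have hfin := closure_finite h2 s.finite_toSet
    by_cases hg : Good ℵ₀ K η X
    · obtain ⟨o, o1, o2, o3, o4⟩ := good_finite hg hfin _ (he1 n.unpair.1).1 (he1 _).2
      obtain ⟨k, hk1, hk2⟩ := (hinf o o1 o2).exists_notMem_finite hfin
      exact ⟨k, U_anti K o3 hk1, hk2, fun _ h hh => o4 k hk1 h hh⟩
    · obtain ⟨k, hk1, hk2⟩ := (hinf _ (he1 n.unpair.1).1 (he1 _).2).exists_notMem_finite hfin
      exact ⟨k, hk1, hk2, fun h => absurd h hg⟩
  choose kf k1 k2 k3 using step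
  let s : ℕ → Finset G := fun n =>
    Nat.rec (motive := fun _ => Finset G) {a} (fun n s => insert (kf n s) (insert (gs n) s)) n
  have hs : ∀ n, s (n + 1) = insert (kf n (s n)) (insert (gs n) (s n)) := fun _ => rfl
  have hsm : Monotone s := monotone_nat_of_le_succ fun n x hx => by
    rw [hs]; exact Finset.mem_insert_of_mem (Finset.mem_insert_of_mem hx)
  let k : ℕ → G := fun n => kf n (s n)
  let H : ℕ → AddSubgroup G := fun n => AddSubgroup.closure ((s n : Finset G) : Set G)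
  have hH : Monotone H := fun n m h => AddSubgroup.closure_mono (Finset.coe_subset.2 (hsm h))
  have hkH : ∀ i j, i < j → k i ∈ H j := fun i j h =>
    hH h (AddSubgroup.subset_closure (by rw [hs]; exact Finset.mem_insert_self _ _))
  have hgH : ∀ i j, i < j → gs i ∈ H j := fun i j h =>
    hH h (AddSubgroup.subset_closure (by
      rw [hs]; exact Finset.mem_insert_of_mem (Finset.mem_insert_self _ _)))
  have haH : ∀ j, a ∈ H j := fun j =>
    hH (Nat.zero_le j) (AddSubgroup.subset_closure (Finset.mem_singleton_self a))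
  have htop : ∀ x ∈ AddSubgroup.closure (k '' Set.univ), x = 0 ∨ ∃ i, x - k i ∈ H i := fun x hx => by
    rcases top_lemma h2 k Set.univ H (fun i _ j h => hkH i j h) hx with h | ⟨i, -, h⟩
    · exact Or.inl h
    · exact Or.inr ⟨i, h⟩
  have hkinj : Function.Injective k := fun i j h => by
    rcases lt_trichotomy i j with hl | hl | hl
    · exact absurd (h ▸ hkH i j hl : k j ∈ H j) (k2 j (s j))
    · exact hl
    · exact absurd (h ▸ hkH j i hl : k i ∈ H i) (k2 i (s i))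
  refine ⟨AddSubgroup.closure (k '' Set.univ), fun q hq hqη c => ?_, fun hg c => ?_, fun ha haK => ?_⟩
  · have : tr q (-c) ∈ range e := he ▸ ⟨hq.tr _, fun p hp => hqη (p.1, p.2 - -c) (mem_tr.1 hp)⟩
    obtain ⟨m, hm⟩ := this
    refine infinite_of_injective_forall_mem (f := fun i => k (Nat.pair m i) + c) (fun i j h => ?_)
      fun i => ⟨?_, ?_⟩
    · have := hkinj (add_right_cancel h)
      exact (Nat.pair_eq_pair.1 this).2
    · have := k1 (Nat.pair m i) (s (Nat.pair m i))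
      rw [Nat.unpair_pair, hm, mem_U_tr] at this
      simpa using this
    · rw [add_sub_cancel_right]
      exact AddSubgroup.subset_closure ⟨_, trivial, rfl⟩
  · obtain ⟨i, rfl⟩ := hgs c
    refine (closure_finite h2 (s (i + 1)).finite_toSet).subset ?_
    rintro g ⟨hgX, hgK⟩
    have hi := hgH i (i + 1) (Nat.lt_succ_self i)
    rcases htop _ hgK with h | ⟨n, h⟩
    · rw [sub_eq_zero.1 h]; exact hi
    · rcases lt_or_ge i n with hl | hl
      · exfalso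
        refine k3 n (s n) hg _ (add_mem h (hgH i n hl)) ?_
        convert hgX using 1
        show k n + _ = _
        abel
      · have := add_mem (add_mem (hH (hl.trans (Nat.le_succ i)) h) (hkH n (i + 1) (Nat.lt_succ_of_le hl))) hi
        have h3 : g ∈ H (i + 1) := by simpa using this
        exact h3
  · rcases htop _ haK with h | ⟨n, h⟩
    · exact ha h
    · have := sub_mem (haH n) h
      exact k2 n (s n) (by simpa using this)

end step

theorem nodec_of_ch (h : (2 : Cardinal.{u}) ^ (ℵ₀ : Cardinal.{u}) = Order.succ ℵ₀) {G : Type u}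
    [AddCommGroup G] [Countable G] [Infinite G] (h2 : ∀ x : G, x + x = 0) : Nodec G := by
  classical
  have hG : #G ≤ ℵ₀ := mk_le_aleph0
  have hθ : ℵ₀ ≤ Order.succ (ℵ₀ : Cardinal.{u}) := Order.le_succ _
  have hreg := isRegular_succ (le_refl (ℵ₀ : Cardinal.{u}))
  let Θ := (Order.succ ℵ₀ : Cardinal.{u}).ord.ToType
  have hΘ : Reg Θ := reg_toType hreg
  have hkΘ : #Θ = Order.succ ℵ₀ := mk_ord_toType _
  have := hΘ.nonempty
  obtain ⟨f, hf⟩ := book hθ (Y := Set G × G) (by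
    rw [mk_prod, lift_id, lift_id, mk_set]
    exact mul_le_of_le hθ ((power_le_power_left two_ne_zero hG).trans h.le) (hG.trans hθ))
  obtain ⟨K, hK'⟩ := col_rec (Θ := Θ) (G := G)
    (fun η K' => if h : ∃ K₁, Nice K' η (f η).1 (f η).2 K₁ then h.choose else ⊥)
  have hstep : ∀ q : Set (Θ × G), Cond ℵ₀ q →
      (∀ p ∈ q, Nice K p.1 (f p.1).1 (f p.1).2 (K p.1)) → (U K q).Infinite := by
    intro q hq hn
    rcases q.eq_empty_or_nonempty with rfl | hne
    · exact infinite_univ.mono fun g _ p hp => absurd hp (notMem_empty _)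
    · obtain ⟨p, hp, hmax⟩ := exists_max_image q Prod.fst (lt_aleph0_iff_set_finite.1 hq.1) hne
      refine ((hn p hp).1 {y ∈ q | y.1 < p.1} (hq.mono (sep_subset _ _)) (fun y hy => hy.2) p.2).mono ?_
      rintro g ⟨hg1, hg2⟩ y hy
      rcases (hmax y hy).lt_or_eq with hl | hl
      · exact hg1 y ⟨hy, hl⟩
      · have : y.2 = p.2 := hq.2 y.1 _ _ hy (hl ▸ hp)
        rw [hl, this]; exact hg2
  have hK : ∀ η, Nice K η (f η).1 (f η).2 (K η) := by
    intro η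
    induction η using WellFoundedLT.induction with
    | ind η ih =>
      obtain ⟨K', h1, h3⟩ := hK' η
      have hex : ∃ K₁, Nice K' η (f η).1 (f η).2 K₁ := by
        obtain ⟨K₁, hK₁⟩ := exists_nice_col h2 K η (le_aleph0_iff_set_countable.1
          (Order.le_of_lt_succ ((hΘ.init η).trans_eq hkΘ))) (f η).1 (f η).2
          (fun q hq hqη => hstep q hq fun p hp => ih _ (hqη p hp))
        exact ⟨K₁, (Nice_congr h1 _ _ _).2 hK₁⟩
      rw [dif_pos hex] at h3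
      rw [h3]
      exact (Nice_congr h1 _ _ _).1 hex.choose_spec
  refine final isRegular_aleph0 cnt_aleph0 hG K (fun X₀ S hS => ?_) (fun q hq g₀ => ?_)
    (fun g hg0 => ?_)
  · obtain ⟨b₀, hb₀⟩ := hΘ.bdd S (by rw [hkΘ]; exact Order.lt_succ_of_le hS)
    obtain ⟨η, hη, hfη⟩ := hf (X₀, 0) b₀
    refine ⟨η, fun ζ hζ => (hb₀ ζ hζ).trans hη, fun hgd c => ?_⟩
    have := (hK η).2.1
    rw [hfη] at this
    exact (this hgd c).lt_aleph0
  · obtain ⟨g, hg1, hg2⟩ := (hstep q hq fun p _ => hK p.1).exists_notMem_finite (finite_singleton g₀)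
    exact ⟨g, hg1, hg2⟩
  · obtain ⟨η, -, hfη⟩ := hf (∅, g) (Classical.arbitrary Θ)
    have := (hK η).2.2
    rw [hfη] at this
    exact ⟨η, this hg0⟩

end Pool.Agent.P.MP_39acbb_lc
end

-- part Pool.Agent.P.MP_39acbb_lc.Key
section

set_option autoImplicit false

namespace Pool.Agent.P.MP_39acbb_lc

universe u

lemma not_nodec
    (h : ∀ (G : Type u) [Group G] [TopologicalSpace G] [IsTopologicalGroup G] [T2Space G],
      ¬ DiscreteTopology G →
        ∃ (A : Set G) (x : G), IsNowhereDense A ∧ AccPt x (Filter.principal A))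
    (G : Type u) [AddCommGroup G] : ¬ Nodec G := by
  rintro ⟨τ, h1, h2, h3, h4⟩
  obtain ⟨A, x, hA, hx⟩ := @h (Multiplicative G) _ τ (inferInstance : IsTopologicalGroup
    (Multiplicative G)) h2 h3
  obtain ⟨V, hV, hVA⟩ := h4 A hA x
  obtain ⟨y, hy, hyx⟩ := accPt_iff_nhds.1 hx V hV
  exact hyx (hVA hy)

end Pool.Agent.P.MP_39acbb_lc
end
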