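import Pool.Agent.P.MP_39acbb_lc.Mi.A2
import Pool.Agent.Lib.PosetForcing.Tools
import Pool.Agent.P.MP_af1204_lc.Inn.TFil
import Pool.Agent.P.MP_39acbb_lc.Mi.Defs
import Pool.Agent.P.MP_af1204_lc.Lk.Count

-- part Pool.Agent.P.MP_39acbb_lc.Mi.A3
section

set_option autoImplicit false
set_option linter.unusedSectionVars false

/-! Fusion and bookkeeping. -/

open Filter Topology Set Function

namespace Pool.Agent.P.MP_39acbb_lc.Mi

universe u

variable {ι : Type u}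

/-- `K n ∘ ⋯ ∘ K (n + m - 1)` -/
def seg (K : ℕ → Om ι → Om ι) (n : ℕ) : ℕ → Om ι → Om ι
  | 0 => id
  | m + 1 => seg K n m ∘ K (n + m)

variable {K : ℕ → Om ι → Om ι}

theorem seg_add (n d e : ℕ) : seg K n (d + e) = seg K n d ∘ seg K (n + d) e := by
  induction e with
  | zero => rfl
  | succ e ih => rw [← Nat.add_assoc, seg, seg, ih, Nat.add_assoc n d e]; rfl

variable [LinearOrder ι]

theorem seg_ind (hK : ∀ n, IsCond (K n)) {Q : (Om ι → Om ι) → Prop} (h0 : Q id)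
    (h1 : ∀ L R, IsCond R → Q L → Q R → Q (L ∘ R)) {n : ℕ} (h : ∀ i, n ≤ i → Q (K i)) (m : ℕ) :
    Q (seg K n m) := by
  induction m with
  | zero => exact h0
  | succ m ih => exact h1 _ _ (hK _) ih (h _ (Nat.le_add_right _ _))

theorem seg_cond (hK : ∀ n, IsCond (K n)) (n m : ℕ) : IsCond (seg K n m) :=
  seg_ind hK isCond_id (fun _ _ _ => IsCond.comp) (fun i _ => hK i) m

theorem seg_fix (hK : ∀ n, IsCond (K n)) {γ : ι} {z : ℕ → ℕ} {k n : ℕ}
    (h : ∀ i, n ≤ i → Fix (K i) γ z k) (m : ℕ) : Fix (seg K n m) γ z k :=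
  seg_ind (Q := fun L => Fix L γ z k) hK ((in_id (I := ∅)).fix id)
    (fun _ _ a b c => b.comp c a) h m

variable [WellFoundedLT ι]

theorem conv (hK : ∀ n, IsCond (K n)) (hf : ∀ γ z k, ∃ d, ∀ n, d ≤ n → Fix (K n) γ z k) (γ : ι) :
    ∀ n x j, ∃ v, ∀ᶠ p : Om ι × ℕ in 𝓝 x ×ˢ atTop, seg K n p.2 p.1 γ j = v := by
  induction γ using WellFoundedLT.induction with
  | ind γ ih =>
    intro n x j
    obtain ⟨d, hd⟩ := hf γ (x γ) (j + 1)
    choose v hv using fun δ h i => ih δ h (n + d) x i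
    let w : Om ι := fun δ => if h : δ < γ then v δ h else x δ
    let w' : Om ι × ℕ → Om ι := fun p δ => if δ < γ then seg K (n + d) p.2 p.1 δ else x δ
    have t : Tendsto w' (𝓝 x ×ˢ atTop) (𝓝 w) := tendsto_pi_nhds.2 fun δ => by
      by_cases h : δ < γ
      · simp only [w, w', if_pos h, dif_pos h]
        exact tendsto_pi_nhds.2 fun i => tendsto_const_nhds.congr' ((hv δ h i).mono fun _ e => e.symm)
      · simp only [w, w', if_neg h, dif_neg h]
        exact tendsto_const_nhds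
    have c := seg_cond hK n d
    have h1 : ∀ᶠ p : Om ι × ℕ in 𝓝 x ×ˢ atTop,
        seg K n d (seg K (n + d) p.2 p.1) γ j = seg K n d w γ j := by
      filter_upwards [t.eventually (cont_iff.1 c.cont γ j w),
        tendsto_fst.eventually (ev_up continuous_id x γ (j + 1))] with p a b
      refine (c.dig (x := w' p) (fun δ h => (if_pos h).symm) ?_ j j.lt_succ_self).trans a
      simp only [w', lt_irrefl, if_false]
      exact (seg_fix hK (fun i hi => hd i (by omega)) p.2 p.1 b).1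
    have t2 : Tendsto (fun p : Om ι × ℕ => (p.1, p.2 - d)) (𝓝 x ×ˢ atTop) (𝓝 x ×ˢ atTop) :=
      tendsto_fst.prodMk ((tendsto_sub_atTop_nat d).comp tendsto_snd)
    refine ⟨seg K n d w γ j, ?_⟩
    filter_upwards [t2.eventually h1, tendsto_snd.eventually (eventually_ge_atTop d)] with p a b
    rw [← Nat.add_sub_cancel' b, seg_add]
    exact a

theorem fusion (hK : ∀ n, IsCond (K n)) (hf : ∀ γ z k, ∃ d, ∀ n, d ≤ n → Fix (K n) γ z k) :
    ∃ M : ℕ → Om ι → Om ι, (∀ n, IsCond (M n)) ∧ (∀ n d, M n = seg K n d ∘ M (n + d)) ∧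
      ∀ n x γ j, ∀ᶠ m in atTop, seg K n m x γ j = M n x γ j := by
  choose M hM using fun n x γ j => conv hK hf γ n x j
  have pt : ∀ n x γ j, ∀ᶠ m in atTop, seg K n m x γ j = M n x γ j := fun n x γ j =>
    (hM n x γ j).curry.self_of_nhds
  have pu : ∀ n x γ k, ∀ᶠ m in atTop, Up k (seg K n m x γ) (M n x γ) := fun n x γ k =>
    (eventually_all_finite (Set.finite_Iio k)).2 fun i _ => pt n x γ i
  have eq2 : ∀ n γ x y, (∀ m, seg K n m x γ = seg K n m y γ) → M n x γ = M n y γ :=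
    fun n γ x y h => funext fun j => by
      obtain ⟨m, a, b⟩ := ((pt n x γ j).and (pt n y γ j)).exists
      rw [← a, ← b, h]
  have sp : ∀ n d, M n = seg K n d ∘ M (n + d) := fun n d => by
    funext x γ j
    have t : Tendsto (fun m => seg K (n + d) m x) atTop (𝓝 (M (n + d) x)) :=
      tendsto_pi_nhds.2 fun δ => tendsto_pi_nhds.2 fun i =>
        tendsto_const_nhds.congr' ((pt _ x δ i).mono fun _ e => e.symm)
    obtain ⟨m, a, b⟩ := (((tendsto_add_atTop_nat d).eventually (pt n x γ j)).and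
      (t.eventually (cont_iff.1 (seg_cond hK n d).cont γ j _))).exists
    rw [← a, Nat.add_comm m d, seg_add]
    exact b
  have ca : ∀ n γ x y, (∀ δ ≤ γ, x δ = y δ) → M n x γ = M n y γ := fun n γ x y h =>
    eq2 n γ x y fun m => (seg_cond hK n m).caus γ x y h
  refine ⟨M, fun n => ⟨cont_iff.2 fun γ j x => (hM n x γ j).curry.mono fun y hy => ?_, ca n, ?_,
    fun γ x k => ?_⟩, sp, pt⟩
  · obtain ⟨m, a, b⟩ := (hy.and (pt n y γ j)).exists
    exact b.symm.trans a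
  · choose S h1 h2 h3 using fun m => (seg_cond hK n m).supp
    refine ⟨⋃ m, S m, countable_iUnion h1, fun x γ h => funext fun j => ?_,
      fun γ hγ x y h => eq2 n γ x y fun m => ?_⟩
    · obtain ⟨m, a⟩ := (pt n x γ j).exists
      rw [← a, h2 m x γ fun e => h (mem_iUnion.2 ⟨m, e⟩)]
    · by_cases e : γ ∈ S m
      · exact h3 m γ e x y fun δ hδ => h δ (mem_iUnion.2 ⟨m, hδ⟩)
      · rw [h2 m x γ e, h2 m y γ e, h γ hγ]
  · obtain ⟨d, hd⟩ := hf γ (x γ) k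
    have f := seg_fix (n := n + d) hK fun i hi => hd i (by omega)
    have f' : Fix (M (n + d)) γ (x γ) k := fun y hy => ⟨by
      obtain ⟨m, a⟩ := (pu (n + d) y γ k).exists
      exact a.symm.trans (f m y hy).1, fun y' h1 h2 h3 => by
      obtain ⟨m, a, b⟩ := ((pt (n + d) y γ k).and (pt (n + d) y' γ k)).exists
      rw [← a, ← b]
      exact (f m y hy).2 y' h1 h2 h3⟩
    obtain ⟨l, hl⟩ := (seg_cond hK n d).mil γ (M (n + d) x) k
    refine ⟨l, fun y y' h1 h2 h3 h4 => ?_⟩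
    have lo : ∀ y, Lo γ y x → Lo γ (M (n + d) y) (M (n + d) x) := fun y h δ hδ =>
      ca _ δ y x fun ε hε => h ε (hε.trans_lt hδ)
    have s := f'.spl (x := x) Up.rfl
    have := hl _ _ (lo y h1) (lo y' h2) (s y x h1 Lo.rfl h3 Up.rfl).1 (s y' x h2 Lo.rfl h4 Up.rfl).1
    rw [sp n d]
    exact ⟨this.1, fun e => this.2 ((s y y' h1 h2 h3 h4).2 e)⟩

theorem lim_mem {M : Om ι → Om ι} {n : ℕ} {x : Om ι} {γ : ι} {c : Pc}
    (h : ∀ j, ∀ᶠ m in atTop, seg K n m x γ j = M x γ j) (e : ∀ m, c.mem (seg K n m x γ)) :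
    c.mem (M x γ) := by
  obtain ⟨m, a⟩ := ((eventually_all_finite (Set.finite_Iio (c.k + 1))).2 fun i _ => h i).exists
  exact (e m).congr fun i hi => (a i hi).symm

omit [LinearOrder ι] [WellFoundedLT ι] in
theorem book {St : Type*} (Inv : ℕ → St → Prop) (Rel : ℕ → St → Finset ι → St → Set ι → Prop)
    (s0 : St) (h0 : Inv 0 s0) (F0 : Finset ι)
    (step : ∀ n s F, Inv n s → ∃ s' S, S.Countable ∧ Inv (n + 1) s' ∧ Rel n s F s' S) :
    ∃ (s : ℕ → St) (F : ℕ → Finset ι) (S : ℕ → Set ι), s 0 = s0 ∧ (∀ n, Inv n (s n)) ∧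
      (∀ n, Rel n (s n) (F n) (s (n + 1)) (S n)) ∧ (∀ n, F0 ⊆ F n) ∧
      ∀ n, ∀ γ ∈ S n, ∃ d, ∀ m, d ≤ m → γ ∈ F m := by
  classical
  let : LinearOrder ι := linearOrderOfSTO WellOrderingRel
  choose s' S h1 h2 h3 using step
  choose G g1 g2 g3 using fun n s F h => exhaust (h1 n s F h)
  let f : ∀ n, {s // Inv n s} × (ℕ → Finset ι) := fun n =>
    Nat.rec (motive := fun n => {s // Inv n s} × (ℕ → Finset ι)) (⟨s0, h0⟩, fun _ => F0)
      (fun n p => (⟨s' n p.1.1 (p.2 n) p.1.2, h2 _ _ _ _⟩,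
        fun j => p.2 j ∪ G n p.1.1 (p.2 n) p.1.2 j)) n
  have mo : ∀ j, Monotone fun n => (f n).2 j := fun j =>
    monotone_nat_of_le_succ fun n => Finset.subset_union_left
  refine ⟨fun n => (f n).1.1, fun n => (f n).2 n, fun n => S n _ ((f n).2 n) (f n).1.2, rfl,
    fun n => (f n).1.2, fun n => h3 n _ _ _, fun n => mo n (Nat.zero_le n), fun n γ hγ => ?_⟩
  obtain ⟨j, hj⟩ := g3 _ _ _ _ γ hγ
  exact ⟨max (n + 1) j, fun m hm => mo m (le_of_max_le_left hm)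
    (Finset.mem_union_right _ (g1 _ _ _ _ (le_of_max_le_right hm) hj))⟩

end Pool.Agent.P.MP_39acbb_lc.Mi
end

-- part Pool.Agent.P.MP_39acbb_lc.Mi.A4
section

set_option autoImplicit false
set_option linter.unusedSectionVars false

/-! Gluing along cells; countably many dense sets are met locally. -/

open Filter Topology Set Function

namespace Pool.Agent.P.MP_39acbb_lc.Mi

universe u

open Pc (triv)

variable {ι : Type u} [LinearOrder ι] {K L R : Om ι → Om ι} {β γ : ι} {x y : Om ι} {n : ℕ}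
  {I S : Set ι} {c : Box ι} {D : (Om ι → Om ι) → Prop}

theorem Pc.res_zero {c : Pc} (h : c.k = 0) (h' : c.r = 0) (a : ℕ → ℕ) : c.res a = a := by
  funext j; simp [Pc.res, h, h']

theorem Pc.drop_zero {c : Pc} (h : c.k = 0) (h' : c.r = 0) (a : ℕ → ℕ) : c.drop a = a := by
  funext j; simp [Pc.drop, h, h']

/-- conditions glued along cells -/
def glue (cell : Om ι → Box ι) (R : Box ι → Om ι → Om ι) (x : Om ι) : Om ι :=
  res (cell x) (R (cell x) (drop (cell x) x))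

section glue
variable {cell : Om ι → Box ι} {T : Box ι → Om ι → Om ι} (hc : Cells (Iic β) cell)
  (hk : ∀ x, (cell x β).k = n ∧ (cell x β).r = 0) (hT : ∀ x, IsCond (T (cell x)))
  (hI : ∀ x, In (Ici β) (T (cell x)))
include hc

theorem glue_res (x : Om ι) : glue cell T ∘ res (cell x) = res (cell x) ∘ T (cell x) := by
  funext y
  simp only [comp_apply, glue, hc.eq x _ mem_res, drop_res]

theorem cell_triv (h : β < γ) : cell x γ = triv :=
  let ⟨_, a, b⟩ := hc.fin x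
  b γ fun e => not_le.2 h (a e)

include hk

theorem cell_eq (h : Lo β y x) (h' : Up n (y β) (x β)) : cell y = cell x := hc.eq x y fun γ => by
  rcases lt_trichotomy γ β with e | rfl | e
  · rw [h γ e]; exact hc.mem x γ
  · exact ⟨((hk x).1 ▸ h').trans (hc.mem x γ).1, (hk x).2 ▸ Nat.zero_le _⟩
  · rw [cell_triv hc e]; exact Pc.triv_mem

theorem glue_lev : Lev (glue cell T) β n := fun x =>
  (hk x).1 ▸ (mem_res β).1.trans (hc.mem x β).1.symm

theorem cell_eq' (h : β < γ ∨ γ = β ∧ n = 0) (e : Lo γ y x) : cell y = cell x := by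
  rcases h with h | ⟨rfl, rfl⟩
  · exact cell_eq hc hk (fun δ hδ => e δ (hδ.trans h)) (e β h ▸ Up.rfl)
  · exact cell_eq hc hk e (up_zero _ _)

theorem glue_fix (h : β < γ ∨ γ = β ∧ n = 0) (e : ∀ x, Fix (T (cell x)) γ 0 0) :
    Fix (glue cell T) γ 0 0 := fun x _ => ⟨up_zero _ _, fun y h1 _ h3 => by
  have z : (cell x γ).k = 0 ∧ (cell x γ).r = 0 := by
    rcases h with h | ⟨rfl, rfl⟩
    · rw [cell_triv hc h]; exact ⟨rfl, rfl⟩
    · exact hk x
  simp only [glue, cell_eq' hc hk h h1, res, Pc.res_zero z.1 z.2]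
  refine (e x _ (up_zero _ _)).2 _ (lo_drop h1) (up_zero _ _) ?_
  simpa only [drop, Pc.drop_zero z.1 z.2] using h3⟩

omit hk in
include hI in
theorem glue_in : In (Ici β) (glue cell T) := fun x γ h => by
  rw [glue, res, hI x _ γ h, drop, Pc.res_drop (hc.mem x γ)]

include hT hI

theorem glue_cond : IsCond (glue cell T) := by
  refine ⟨cont_iff.2 fun γ j x => ?_, fun γ x y h => ?_, ?_, fun γ x k => ?_⟩
  · filter_upwards [hc.lc x, cont_iff.1 (cont_res.comp ((hT x).cont.comp (cont_drop (c := cell x))))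
      γ j x] with y a b
    rw [glue, a]
    exact b
  · by_cases e : γ < β
    · rw [glue_in hc hI x γ (not_le.2 e), glue_in hc hI y γ (not_le.2 e), h γ le_rfl]
    · have e := not_lt.1 e
      rw [glue, glue, cell_eq hc hk (fun δ hδ => h δ (hδ.le.trans e)) (h β e ▸ Up.rfl)]
      exact congrArg _ ((hT y).caus γ _ _ fun δ hδ => congrArg _ (h δ hδ))
  · obtain ⟨S, h1, -, h3, h4⟩ := hc.dep
    have : ∀ c : range cell, IsCond (T c.1) := by
      rintro ⟨_, x, rfl⟩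
      exact hT x
    choose U g1 g2 g3 using fun c => (this c).supp
    have := hc.cnt.to_subtype
    have sub : ∀ x, U ⟨_, x, rfl⟩ ⊆ S ∪ ⋃ c, U c := fun x _ h => Or.inr (mem_iUnion.2 ⟨_, h⟩)
    refine ⟨S ∪ ⋃ c, U c, h1.union (countable_iUnion g1), fun x γ h => ?_, fun γ hγ x y h => ?_⟩
    · rw [glue, res, g2 ⟨_, x, rfl⟩ _ γ fun e => h (sub x e), drop, Pc.res_drop (hc.mem x γ)]
    · simp only [glue, h3 x y fun δ hδ => h δ (Or.inl hδ)]
      refine congrArg (cell y γ).res ?_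
      by_cases e : γ ∈ U ⟨_, y, rfl⟩
      · exact g3 ⟨_, y, rfl⟩ γ e _ _ fun δ hδ => congrArg _ (h δ (sub y hδ))
      · rw [g2 ⟨_, y, rfl⟩ _ γ e, g2 ⟨_, y, rfl⟩ _ γ e, drop, drop, h γ hγ]
  · by_cases e : γ < β
    · exact ⟨k, ((glue_in hc hI).fix (not_le.2 e)).spl Up.rfl⟩
    by_cases e' : γ = β ∧ k < n
    · exact ⟨k, e'.1 ▸ ((glue_lev hc hk).fix e'.2).spl Up.rfl⟩
    have ce : ∀ y, Lo γ y x → Up k (y γ) (x γ) → cell y = cell x := fun y h1 h2 => by
      rcases (not_lt.1 e).eq_or_lt with rfl | e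
      · exact cell_eq hc hk h1 (h2.mono (not_lt.1 fun k => e' ⟨rfl, k⟩))
      · exact cell_eq' hc hk (Or.inl e) h1
    obtain ⟨l, hl⟩ := spl_conj (c := cell x) (γ := γ) (k := k) (hT x) (by
      rcases (not_lt.1 e).eq_or_lt with rfl | e
      · exact (hk x).1 ▸ not_lt.1 fun k => e' ⟨rfl, k⟩
      · rw [cell_triv hc e]; exact Nat.zero_le _) x
    refine ⟨l, fun y y' h1 h2 h3 h4 => ?_⟩
    simp only [glue, ce y h1 h3, ce y' h2 h4]
    exact hl y y' h1 h2 h3 h4 (ce y h1 h3 ▸ hc.mem y γ)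

end glue

theorem Cells.good {cell : Om ι → Box ι} (hc : Cells I cell) (hD : Her I D)
    (h : ∀ x, D (K ∘ res (cell x))) : Good I D K := by
  obtain ⟨S, h1, h2, -, h4⟩ := hc.dep
  refine ⟨S, h1, h2, fun x => ?_⟩
  obtain ⟨F, -, k⟩ := hc.fin x
  obtain ⟨G, k1, m, k2⟩ := ex_nb (ev_mem k (hc.mem x)) (h4 x).dep
  exact ⟨G, k1, m, hD.box (h4 x) h1 h2 cond_nb (on_nb.in_res.mono (k1.trans h2))
    (fun y => k2 _ mem_res) (h x)⟩

theorem res_comm (hI : IsLowerSet I) (h : On c Iᶜ) (hR : IsCond R) (h' : In I R) :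
    res c ∘ R = R ∘ res c := by
  funext x γ
  by_cases e : γ ∈ I
  · exact (h.in_res _ γ (not_not.2 e)).trans
      (hR.low hI (fun δ hδ => (h.in_res _ δ (not_not.2 hδ)).symm) γ e)
  · exact (congrArg (c γ).res (h' x γ e)).trans (h' (res c x) γ e).symm

theorem Her.mono {J : Set ι} (h : Her I D) (e : J ⊆ I) : Her J D :=
  fun K R a b => h K R a (b.mono e)

/-- dense properties of conditions -/
def Dns (I : Set ι) (D : (Om ι → Om ι) → Prop) : Prop :=
  ∀ K, IsCond K → In I K → ∃ R, IsCond R ∧ In I R ∧ D (K ∘ R)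

/-- countably many dense open sets can be met locally -/
def BB (I : Set ι) : Prop :=
  ∀ D : ℕ → (Om ι → Om ι) → Prop, (∀ k, Her I (D k)) → (∀ k, Dns I (D k)) →
    ∀ (F : Finset ι) (n : ℕ), ∃ K, IsCond K ∧ In I K ∧ (∀ γ ∈ F, Lev K γ n) ∧ ∀ k, Good I (D k) K

/-- the box given by `n` digits at one coordinate -/
def one (β : ι) (n : ℕ) (a : ℕ → ℕ) : Box ι := nb (fun _ => a) {β} n

theorem on_one {a : ℕ → ℕ} : On (one β n a) (Iio β)ᶜ := on_nb.mono (by simp)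

theorem one_self {a : ℕ → ℕ} : one β n a β = ⟨n, 0, trunc n a⟩ := by simp [one, nb]

theorem one_trunc (a : ℕ → ℕ) : one β n (trunc n a) = one β n a :=
  nb_eq (mem_nb.2 fun _ _ => up_trunc _ _)

theorem Her.one (hD : Her (Iio β) D) (K : Om ι → Om ι) (a : ℕ → ℕ) :
    Her (Iio β) fun K' => D (K ∘ K' ∘ res (one β n a)) := fun K' R h1 h2 h => by
  have := hD _ R h1 h2 h
  rw [comp_assoc, comp_assoc, res_comm (isLowerSet_Iio β) on_one h1 h2] at this
  exact this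

theorem unif (hI : IsLowerSet I) (hβ : β ∈ I) (hB : BB (Iio β)) (n n' : ℕ) (F : Finset ι)
    (Fp : Set ι) (hp : ∀ γ ∈ Fp, β < γ ∨ γ = β ∧ n = 0) (hD : Her (Iio β) D)
    (hd : ∀ K, IsCond K → In I K → Pure Fp K →
      ∃ R, IsCond R ∧ In I R ∧ Pure Fp R ∧ D (K ∘ R)) :
    ∃ K, IsCond K ∧ In I K ∧ Pure Fp K ∧ (∀ γ ∈ F, γ < β → Lev K γ n') ∧ Lev K β n ∧
      ∀ a, Good (Iio β) (fun K' => D (K ∘ K' ∘ res (one β n a))) id := by
  classical
  have lw := isLowerSet_Iio β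
  have sI : Iio β ⊆ I := fun _ h => hI (le_of_lt h) hβ
  have np : ∀ γ ∈ Fp, γ ∉ Iio β := fun γ h e =>
    (hp γ h).elim (fun k => lt_asymm k e) fun k => lt_irrefl β (k.1 ▸ e)
  have cI : (Iio β)ᶜ = Ici β := compl_Iio
  have i1 : ∀ a, In I (res (one β n a)) := fun a => on_nb.in_res.mono (by simpa using hβ)
  have p1 : ∀ a, Pure Fp (res (one β n a)) := fun a γ h => by
    rcases hp γ h with e | ⟨rfl, rfl⟩
    · exact on_nb.in_res.fix (by simpa using e.ne')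
    · exact (pure_id γ h).of_eq fun x => by rw [res, one_self]; exact Pc.res_zero rfl rfl _
  obtain ⟨f, hf⟩ := (countable_trunc n).exists_eq_range (range_nonempty _)
  let E : ℕ → (Om ι → Om ι) → Prop := fun k K' => ∃ R, IsCond R ∧ In (Ici β) R ∧ In I R ∧
    Pure Fp R ∧ D (K' ∘ res (one β n (f k)) ∘ R)
  have hE : ∀ k, Her (Iio β) (E k) := by
    rintro k K' R' h1 h2 ⟨R, g1, g2, g3, g4, g5⟩
    refine ⟨rst (Iio β)ᶜ (R ∘ R'), (g1.comp h1).rst _, cI ▸ in_rst, (g3.comp (h2.mono sI)).rst_of,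
      (g4.comp (h2.pure np) h1).rst, ?_⟩
    have := hD _ R' h1 h2 g5
    rw [comp_assoc, comp_assoc, ← rst_tl (g1.comp h1) lw, rst_comp g1 lw, In.rst_id (I := Iio β) (cI ▸ g2), h2.rst,
      id_comp, ← comp_assoc (res _), res_comm lw on_one h1 h2] at this
    exact this
  obtain ⟨K', k1, k2, k3, k4⟩ := hB E hE (fun k K' h1 h2 => by
    obtain ⟨R, g1, g2, g3, g4⟩ := hd (K' ∘ res (one β n (f k))) (h1.comp cond_nb)
      ((h2.mono sI).comp (i1 _)) ((h2.pure np).comp (p1 _) cond_nb)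
    refine ⟨rst (Iio β) R, g1.rst _, in_rst, rst (Iio β)ᶜ R, g1.rst _, cI ▸ in_rst, g2.rst_of,
      g3.rst, ?_⟩
    rw [← rst_tl g1 lw, comp_assoc, ← comp_assoc (res _), res_comm lw on_one (g1.rst _) in_rst] at g4
    exact g4) F n'
  choose ce c1 c2 using fun k => (k4 k).cells (hE k)
  have : ∀ a, ∃ k, a ∈ range (trunc n) → f k = a := fun a => by
    by_cases h : a ∈ range (trunc n)
    · exact (hf ▸ h).imp fun _ e _ => e
    · exact ⟨0, fun e => (h e).elim⟩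
  choose κ hκ using this
  have tr : ∀ k x, ce k x β = triv := fun k x =>
    let ⟨_, a, b⟩ := (c1 k).fin x
    b β fun e => lt_irrefl β (a e)
  have lo : ∀ k x a, ce k (update x β a) = ce k x := fun k x a =>
    let ⟨_, _, b, c, _⟩ := (c1 k).dep
    c _ _ fun δ hδ => lo_update β x a δ (b hδ)
  let cell : Om ι → Box ι := fun x =>
    update (ce (κ (trunc n (x β))) x) β ⟨n, 0, trunc n (x β)⟩
  have rc : ∀ x, res (cell x) = res (ce (κ (trunc n (x β))) x) ∘ res (one β n (x β)) := fun x => by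
    funext y γ
    by_cases e : γ = β
    · subst e
      simp only [cell, res, comp_apply, update_self, tr, Pc.triv_res, one_self]
    · simp only [cell, res, comp_apply, update_of_ne e]
      rw [one, on_nb (F := {β}) γ (by simpa using e), Pc.triv_res]
  have hc : Cells (Iic β) cell := by
    refine ⟨fun x γ => ?_, fun x y h => ?_, ?_, fun x => ?_⟩
    · by_cases e : γ = β
      · subst e
        simp only [cell, update_self]
        exact ⟨(up_trunc _ _).symm, Nat.zero_le _⟩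
      · simp only [cell, update_of_ne e]
        exact (c1 _).mem x γ
    · have e : trunc n (y β) = trunc n (x β) := by
        have := h β
        simp only [cell, update_self] at this
        exact trunc_eq (this.1.trans (up_trunc _ _))
      simp only [cell, e]
      rw [(c1 _).eq x y fun γ => ?_]
      by_cases e' : γ = β
      · rw [e', tr]; exact Pc.triv_mem
      · simpa only [cell, update_of_ne e'] using h γ
    · refine (((countable_iUnion fun k => (c1 k).cnt).prod (countable_trunc n)).image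
        fun p => update p.1 β ⟨n, 0, p.2⟩).mono ?_
      rintro _ ⟨x, rfl⟩
      exact ⟨(_, _), ⟨mem_iUnion.2 ⟨_, x, rfl⟩, _, rfl⟩, rfl⟩
    · obtain ⟨G, a, b⟩ := (c1 (κ (trunc n (x β)))).fin x
      refine ⟨insert β G, by simpa using insert_subset self_mem_Iic (a.trans Iio_subset_Iic_self),
        fun γ h => ?_⟩
      simp only [Finset.coe_insert, mem_insert_iff, not_or] at h
      simp only [cell, update_of_ne h.1]
      exact b γ h.2
  have hk : ∀ x, (cell x β).k = n ∧ (cell x β).r = 0 := fun x => by simp [cell]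
  have : ∀ c, ∃ R, c ∈ range cell → IsCond R ∧ In (Ici β) R ∧ In I R ∧ Pure Fp R ∧
      D (K' ∘ res c ∘ R) := fun c => by
    by_cases h : c ∈ range cell
    · obtain ⟨x, rfl⟩ := h
      obtain ⟨R, g⟩ := c2 (κ (trunc n (x β))) x
      rw [hκ _ ⟨_, rfl⟩, one_trunc] at g
      exact ⟨R, fun _ => by rw [rc]; exact g⟩
    · exact ⟨id, fun e => (h e).elim⟩
  choose T hT using this
  replace hT := fun x => hT (cell x) ⟨x, rfl⟩
  have t1 := glue_cond hc hk (fun x => (hT x).1) fun x => (hT x).2.1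
  have t2 := glue_in hc fun x => (hT x).2.1
  refine ⟨K' ∘ glue cell T, k1.comp t1, (k2.mono sI).comp fun x γ h => ?_,
    (k2.pure np).comp (fun γ h => glue_fix hc hk (hp γ h) fun x => (hT x).2.2.2.1 γ h) t1,
    fun γ h e => (k3 γ h).comp (t2.lev (not_le.2 e)),
    (k2.lev (lt_irrefl β)).comp (glue_lev hc hk), fun a => ?_⟩
  · rw [glue, res, (hT x).2.2.1 _ γ h, drop, Pc.res_drop (hc.mem x γ)]
  · refine (c1 (κ (trunc n a))).good (hD.one _ a) fun x => ?_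
    have := (hT (update x β a)).2.2.2.2
    rw [← glue_res hc, rc, update_self, lo] at this
    exact this

theorem one_dense (hI : IsLowerSet I) (hB : ∀ β ∈ I, BB (Iio β)) (hD : Her I D) (hd : Dns I D)
    (F : Finset ι) (n : ℕ) : ∃ K, IsCond K ∧ In I K ∧ (∀ γ ∈ F, Lev K γ n) ∧ Good I D K := by
  classical
  rcases (F.filter (· ∈ I)).eq_empty_or_nonempty with h | h
  · obtain ⟨R, h1, h2, h3⟩ := hd id isCond_id in_id
    exact ⟨R, h1, h2, fun γ hγ => h2.lev (Finset.filter_eq_empty_iff.1 h hγ), Good.of h3 hD⟩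
  obtain ⟨β, hβ, hm⟩ := Finset.exists_max_image _ id h
  have hβ := (Finset.mem_filter.1 hβ).2
  have sI : Iio β ⊆ I := fun _ h => hI (le_of_lt h) hβ
  obtain ⟨K, k1, k2, -, k4, k5, k6⟩ := unif hI hβ (hB β hβ) n n F ∅ (fun _ h => h.elim)
    (hD.mono sI) fun K a b _ =>
      let ⟨R, a, b, c⟩ := hd K a b
      ⟨R, a, b, fun _ h => h.elim, c⟩
  refine ⟨K, k1, k2, fun γ hγ => ?_, ?_⟩
  · by_cases e : γ ∈ I
    · rcases (hm γ (Finset.mem_filter.2 ⟨hγ, e⟩)).eq_or_lt with e' | e'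
      · exact (show γ = β from e') ▸ k5
      · exact k4 γ hγ e'
    · exact k2.lev e
  choose S s1 s2 s3 using k6
  refine ⟨insert β (⋃ a ∈ range (trunc n), S a), ((countable_trunc n).biUnion fun a _ => s1 a).insert β,
    insert_subset hβ (iUnion₂_subset fun a _ => (s2 a).trans sI), fun x => ?_⟩
  obtain ⟨G, g1, m, g2⟩ := s3 (trunc n (x β)) x
  have sub : (↑(insert β G) : Set ι) ⊆ insert β (⋃ a ∈ range (trunc n), S a) := by
    rw [Finset.coe_insert]
    exact insert_subset_insert (g1.trans (subset_biUnion_of_mem (u := S) ⟨_, rfl⟩))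
  have gI : (G : Set ι) ⊆ I := g1.trans ((s2 _).trans sI)
  have m1 : ∀ y, Mem (nb x G m) (res (nb x (insert β G) (max m n)) y) := fun y =>
    nb_mono mem_res (Finset.subset_insert _ _) (le_max_left _ _)
  refine ⟨insert β G, sub, max m n, ?_⟩
  rw [← factor m1]
  refine hD.box (K := K ∘ res (nb x G m)) (c := one β n (trunc n (x β))) on_nb
    (Finset.countable_toSet _) (by simpa using hβ) (cond_nb.drop on_nb G.countable_toSet m1)
    ((on_nb.in_drop.mono gI).comp (on_nb.in_res.mono (by simpa using insert_subset hβ gI)))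
    (fun y => mem_nb.2 fun γ hγ => ?_) g2
  obtain rfl := Finset.mem_singleton.1 hγ
  rw [comp_apply, on_nb.in_drop _ γ fun e => lt_irrefl γ (s2 _ (g1 e))]
  exact ((mem_nb.1 mem_res γ (Finset.mem_insert_self _ _)).mono (le_max_right _ _)).trans
    (up_trunc _ _).symm

variable [WellFoundedLT ι]

theorem lim_in {K : ℕ → Om ι → Om ι} {M : Om ι → Om ι} (hK : ∀ n, IsCond (K n))
    (h : ∀ x γ j, ∀ᶠ m in atTop, seg K n m x γ j = M x γ j) (e : ∀ i, In I (K i)) : In I M :=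
  fun x γ hγ => funext fun j => by
    obtain ⟨m, a⟩ := (h x γ j).exists
    rw [← a, seg_ind (Q := In I) hK in_id (fun _ _ _ => In.comp) (fun i _ => e i) m x γ hγ]

theorem lim_lev {K : ℕ → Om ι → Om ι} {M : Om ι → Om ι} {k : ℕ} (hK : ∀ n, IsCond (K n))
    (h : ∀ x γ j, ∀ᶠ m in atTop, seg K n m x γ j = M x γ j) (e : ∀ i, Lev (K i) γ k) : Lev M γ k :=
  fun x j hj => by
    obtain ⟨m, a⟩ := (h x γ j).exists
    rw [← a, seg_ind (Q := fun L => Lev L γ k) hK (fun _ => Up.rfl) (fun _ _ _ => Lev.comp)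
      (fun i _ => e i) m x j hj]

theorem bb_of (hI : IsLowerSet I) (hB : ∀ β ∈ I, BB (Iio β)) : BB I := by
  intro D hD hd F0 n0
  obtain ⟨s, F, S, h0, h1, h2, h3, h4⟩ := book (St := (Om ι → Om ι) × (Om ι → Om ι))
    (fun _ s => IsCond s.1 ∧ In I s.1)
    (fun n s F s' S => s'.1 = s.1 ∘ s'.2 ∧ IsCond s'.2 ∧ In I s'.2 ∧ In S s'.2 ∧
      (∀ γ ∈ F, Lev s'.2 γ (n0 + n)) ∧ Good I (D n) s'.1) (id, id) ⟨isCond_id, in_id⟩ F0
    fun n s F h => by
      obtain ⟨K, k1, k2, k3, k4⟩ := one_dense (D := fun K => D n (s.1 ∘ K)) hI hB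
        (fun K R a b c => hD n _ R a b c) (fun K a b => hd n _ (h.1.comp a) (h.2.comp b)) F (n0 + n)
      obtain ⟨S, g1, g2, -⟩ := k1.supp
      exact ⟨(s.1 ∘ K, K), S, g1, ⟨h.1.comp k1, h.2.comp k2⟩, rfl, k1, k2, g2, k3,
        k4.imp fun _ _ _ e => e⟩
  let K : ℕ → Om ι → Om ι := fun n => (s (n + 1)).2
  have hK : ∀ n, IsCond (K n) := fun n => (h2 n).2.1
  have e : ∀ n, (s n).1 = seg K 0 n := fun n => by
    induction n with
    | zero => rw [h0]; rfl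
    | succ n ih => rw [(h2 n).1, ih, seg, Nat.zero_add]
  obtain ⟨M, m1, m2, m3⟩ := fusion hK fun γ z k => by
    by_cases h : ∃ n, γ ∈ S n
    · obtain ⟨n, h⟩ := h
      obtain ⟨d, hd⟩ := h4 n γ h
      exact ⟨max d (k + 1), fun m hm => ((h2 m).2.2.2.2.1 γ (hd m (le_of_max_le_left hm))).fix
        (by have := le_of_max_le_right hm; omega)⟩
    · exact ⟨0, fun m _ => (h2 m).2.2.2.1.fix fun k => h ⟨m, k⟩⟩
  have mi : ∀ n, In I (M n) := fun n => lim_in hK (m3 n) fun i => (h2 i).2.2.1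
  refine ⟨M 0, m1 0, mi 0, fun γ hγ => lim_lev hK (m3 0) fun i =>
    ((h2 i).2.2.2.2.1 γ (h3 i hγ)).mono (Nat.le_add_right _ _), fun k => ?_⟩
  rw [m2 0 (k + 1), ← e]
  exact (h2 k).2.2.2.2.2.comp (hD k) hI (m1 _) (mi _)

theorem bb_Iio (β : ι) : BB (Iio β) := by
  induction β using WellFoundedLT.induction with
  | ind β ih => exact bb_of (isLowerSet_Iio β) ih

theorem bb_univ : BB (univ : Set ι) := bb_of isLowerSet_univ fun β _ => bb_Iio β

end Pool.Agent.P.MP_39acbb_lc.Mi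
end

-- part Pool.Agent.P.MP_39acbb_lc.Mi.A5
section

set_option autoImplicit false
set_option linter.unusedSectionVars false

/-! Pure decision. -/

open Filter Topology Set Function

namespace Pool.Agent.P.MP_39acbb_lc.Mi

universe u

open Pc (triv)

variable {ι : Type u} [LinearOrder ι] {K L R : Om ι → Om ι} {β γ : ι} {x y : Om ι} {n : ℕ}
  {I S : Set ι} {c : Box ι} {D : (Om ι → Om ι) → Prop}

/-- thinning of the successors of the root at `β` -/
def thin (β : ι) (g : Om ι → ℕ → ℕ) (x : Om ι) : Om ι :=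
  update x β (update (x β) 0 (g x (x β 0)))

section thin
variable {g : Om ι → ℕ → ℕ}

theorem in_thin : In {β} (thin β g) := fun _ _ h => update_of_ne h _ _

theorem thin_zero : thin β g x β 0 = g x (x β 0) := by simp [thin]

theorem fix_thin (hg : ∀ x, StrictMono (g x)) (hs : S ⊆ Iio β) (hd : Dep S g) :
    Fix (thin β g) β 0 0 := fun x _ => ⟨up_zero _ _, fun y h1 _ h3 => by
  rw [thin_zero, thin_zero, hd y x fun δ hδ => h1 δ (hs hδ)]
  exact hg x h3⟩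

theorem thin_cond (hg : ∀ x, StrictMono (g x)) (hl : ∀ t, LC fun x => g x t) (hS : S.Countable)
    (hs : S ⊆ Iio β) (hd : Dep S g) : IsCond (thin β g) := by
  have key : ∀ x y : Om ι, (∀ δ ∈ S, x δ = y δ) → x β = y β → thin β g x β = thin β g y β :=
    fun x y h e => by simp only [thin, update_self, hd x y h, e]
  refine ⟨continuous_id.update β ((continuous_apply β).update 0 ?_), fun γ x y h => ?_,
    ⟨insert β S, hS.insert β, in_thin.mono (by simp), fun γ hγ x y h => ?_⟩, fun γ x k => ?_⟩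
  · exact continuous_iff_continuousAt.2 fun x => tendsto_const_nhds.congr'
      (((lc_coord β 0).bind (g := fun t x => g x t) hl x).mono fun _ e => e.symm)
  · by_cases e : γ = β
    · subst e
      exact key x y (fun δ hδ => h δ (le_of_lt (hs hδ))) (h γ le_rfl)
    · rw [in_thin x γ e, in_thin y γ e, h γ le_rfl]
  · by_cases e : γ = β
    · subst e
      exact key x y (fun δ hδ => h δ (Or.inr hδ)) (h γ hγ)
    · exact (in_thin x γ e).trans ((h γ hγ).trans (in_thin y γ e).symm)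
  · by_cases e : γ = β
    · subst e
      rcases k with _ | k
      · exact ⟨0, (fix_thin hg hs hd).spl (up_zero _ _)⟩
      · refine ⟨k + 1, fun y y' h1 h2 h3 h4 => ⟨fun i hi => ?_, by simp [thin]⟩⟩
        have u := h3.trans h4.symm
        rcases i with _ | i
        · rw [thin_zero, thin_zero, u 0 hi, hd y y' fun δ hδ => (h1.trans h2.symm) δ (hs hδ)]
        · simpa [thin] using u _ hi
    · exact ⟨k, (in_thin.fix e).spl Up.rfl⟩

end thin

theorem her_box2 (hD : Her I D) (hI : IsLowerSet I) (hβ : β ∈ I) (h : On c S) (hS : S.Countable)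
    (e : S ⊆ Iio β) (hR : IsCond R) (hI' : In I R) (hm : ∀ x, Mem c (R x)) {a : ℕ → ℕ}
    (hm' : ∀ x, Up n (R x β) a) (hK : D (K ∘ res c ∘ res (one β n a))) : D (K ∘ R) := by
  have sI : S ⊆ I := fun _ h => hI (le_of_lt (e h)) hβ
  rw [← factor hm]
  refine hD.box (K := K ∘ res c) (c := one β n a) on_nb (Finset.countable_toSet _)
    (by simpa using hβ) (hR.drop h hS hm) ((h.in_drop.mono sI).comp hI')
    (fun y => mem_nb.2 fun γ hγ => ?_) hK
  obtain rfl := Finset.mem_singleton.1 hγ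
  rw [comp_apply, h.in_drop _ γ fun k => lt_irrefl γ (e k)]
  exact hm' y

theorem LC.const_on {α : Type*} {f : Om ι → α} (h : LC f) (hd : Dep I f) (x : Om ι) :
    ∃ R, IsCond R ∧ In I R ∧ ∀ y, f (R y) = f x := by
  obtain ⟨G, k1, m, k2⟩ := ex_nb (h x) (S := I) fun a b e => by rw [hd a b e]
  exact ⟨_, cond_nb, on_nb.in_res.mono k1, fun y => k2 _ mem_res⟩

theorem Dep.cond {α : Type*} {f : Om ι → α} (h : Dep I f) (hI : IsLowerSet I) (hK : IsCond K) :
    Dep I fun x => f (K x) := fun _ _ e => h _ _ (hK.low hI e)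

theorem lc_find {p : ℕ → Om ι → Prop} [∀ x, DecidablePred fun j => p j x] (h : ∀ j, LC (p j))
    (e : ∀ x, ∃ j, p j x) : LC fun x => Nat.find (e x) := fun x => by
  filter_upwards [(eventually_all_finite (Set.finite_Iic (Nat.find (e x)))).2 fun j _ => h j x]
    with y hy
  exact (Nat.find_eq_iff _).2 ⟨(hy _ self_mem_Iic).mpr (Nat.find_spec (e x)),
    fun m hm k => Nat.find_min (e x) hm ((hy m hm.le).mp k)⟩

variable [WellFoundedLT ι]

theorem pd (F : Finset ι) : ∀ I : Set ι, IsLowerSet I → ∀ D : Bool → (Om ι → Om ι) → Prop,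
    (∀ i, Her I (D i)) → Dns I (fun K => ∃ i, D i K) →
    ∃ K, IsCond K ∧ In I K ∧ Pure F K ∧ ∃ i, Good I (D i) K := by
  classical
  induction F using Finset.induction_on_max with
  | empty =>
    intro I _ D hD hd
    obtain ⟨R, h1, h2, i, h3⟩ := hd id isCond_id in_id
    exact ⟨R, h1, h2, fun _ h => absurd h (by simp), i, Good.of h3 (hD i)⟩
  | insert β F hF ih =>
    intro I hI D hD hd
    by_cases hβ : β ∉ I
    · obtain ⟨K, h1, h2, h3, h4⟩ := ih I hI D hD hd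
      refine ⟨K, h1, h2, fun γ hγ => ?_, h4⟩
      rcases Finset.mem_insert.1 hγ with rfl | hγ
      exacts [h2.fix hβ, h3 γ hγ]
    have hβ := not_not.1 hβ
    have lw := isLowerSet_Iio β
    have sI : Iio β ⊆ I := fun _ h => hI (le_of_lt h) hβ
    have hD' : Her (Iio β) fun K => ∃ i, D i K := fun K R a b ⟨i, e⟩ =>
      ⟨i, hD i K R a (b.mono sI) e⟩
    obtain ⟨K1, a1, a2, -, a4, a5, a6⟩ := unif hI hβ (bb_Iio β) 1 1 F ∅ (fun _ h => h.elim) hD'
      fun K a b _ =>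
        let ⟨R, a, b, c⟩ := hd K a b
        ⟨R, a, b, fun _ h => h.elim, c⟩
    choose ce c1 c2 using fun j : ℕ => (a6 fun _ => j).cells (hD'.one K1 _)
    choose S s1 s2 s3 s4 using fun j => (c1 j).dep
    let cl : ℕ → Om ι → Bool := fun j x =>
      decide (D true (K1 ∘ res (ce j x) ∘ res (one β 1 fun _ => j)))
    have cl1 : ∀ j x, D (cl j x) (K1 ∘ res (ce j x) ∘ res (one β 1 fun _ => j)) := fun j x => by
      obtain ⟨i, h⟩ := c2 j x
      by_cases e : D true (K1 ∘ res (ce j x) ∘ res (one β 1 fun _ => j))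
      · rwa [show cl j x = true from decide_eq_true e]
      · rw [show cl j x = false from decide_eq_false e]
        cases i
        exacts [h, (e h).elim]
    have cl2 : ∀ j, LC (cl j) := fun j => (c1 j).lc.map fun c =>
      decide (D true (K1 ∘ res c ∘ res (one β 1 fun _ => j)))
    have cl3 : ∀ j, Dep (S j) (cl j) := fun j x y e => by simp only [cl, s3 j x y e]
    let E : Bool → (Om ι → Om ι) → Prop := fun i K' => ∀ m R', IsCond R' → In (Iio β) R' →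
      ∃ R'', IsCond R'' ∧ In (Iio β) R'' ∧ ∃ j, m ≤ j ∧ ∀ x, cl j (K' (R' (R'' x))) = i
    have hE : ∀ i, Her (Iio β) (E i) := fun i K R a b h m R' c d =>
      h m (R ∘ R') (a.comp c) (b.comp d)
    obtain ⟨K2, b1, b2, b3, i, b4⟩ := ih (Iio β) lw E hE fun K' h1 h2 => by
      by_contra hc
      push Not at hc
      have h3 := hc id isCond_id in_id true
      simp only [E, not_forall, not_exists, not_and] at h3
      obtain ⟨m1, R1, g1, g2, g3⟩ := h3
      have h4 := hc R1 g1 g2 false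
      simp only [E, not_forall, not_exists, not_and] at h4
      obtain ⟨m2, R2, g4, g5, g6⟩ := h4
      have k := (h1.comp g1).comp g4
      obtain ⟨R, r1, r2, r3⟩ := ((cl2 (max m1 m2)).comp k.cont).const_on
        (((cl3 _).mono (s2 _)).cond lw k) 0
      obtain ⟨x, hx⟩ := g3 (R2 ∘ R) (g4.comp r1) (g5.comp r2) _ (le_max_left m1 m2)
      obtain ⟨y, hy⟩ := g6 R r1 r2 _ (le_max_right m1 m2)
      have := (r3 x).trans (r3 y).symm
      simp only [comp_apply, id_eq] at hx hy this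
      rw [this] at hx
      simp_all
    have b5 : E i K2 := fun m R' g1 g2 => by
      obtain ⟨_, -, k, h⟩ := b4.comp (hE i) lw g1 g2
      obtain ⟨G, k', n, h⟩ := h 0
      obtain ⟨R, r1, r2, r3⟩ := h m id isCond_id in_id
      exact ⟨res (nb 0 G n) ∘ R, cond_nb.comp r1, (on_nb.in_res.mono (k'.trans k)).comp r2, r3⟩
    obtain ⟨K3, d1, d2, d3, d4⟩ := bb_Iio β (fun m R' => ∃ j, m ≤ j ∧ ∀ x, cl j (K2 (R' x)) = i)
      (fun m K R _ _ ⟨j, h, h'⟩ => ⟨j, h, fun x => h' _⟩) (fun m K a b => b5 m K a b) F 1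
    have ex : ∀ m x, ∃ j, m ≤ j ∧ cl j (K2 (K3 x)) = i := fun m =>
      Good.all (p := fun y => ∃ j, m ≤ j ∧ cl j (K2 y) = i)
        ((d4 m).imp fun R _ _ ⟨j, h, h'⟩ x => ⟨j, h, h' x⟩)
    have k := b1.comp d1
    have ki := b2.comp d2
    obtain ⟨T, t1, -, t2, t3⟩ := Dep.comp (f := fun x j => cl j x) (S := ⋃ j, S j)
      (fun x y e => funext fun j => cl3 j x y fun δ hδ => e δ (mem_iUnion.2 ⟨j, hδ⟩))
      (countable_iUnion s1) lw (iUnion_subset s2) k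
    let g : Om ι → ℕ → ℕ := fun x t =>
      Nat.rec (Nat.find (ex 0 x)) (fun _ p => Nat.find (ex (p + 1) x)) t
    have g1 : ∀ x, StrictMono (g x) := fun x =>
      strictMono_nat_of_lt_succ fun t => (Nat.find_spec (ex (g x t + 1) x)).1
    have g2 : ∀ x t, cl (g x t) (K2 (K3 x)) = i := fun x t => by
      cases t
      exacts [(Nat.find_spec (ex 0 x)).2, (Nat.find_spec (ex _ x)).2]
    have lf : ∀ m, LC fun x => Nat.find (ex m x) := fun m =>
      lc_find (p := fun j x => m ≤ j ∧ cl j (K2 (K3 x)) = i)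
        (fun j => ((cl2 j).comp k.cont).map fun b => m ≤ j ∧ b = i) _
    have g3 : ∀ t, LC fun x => g x t := fun t => by
      induction t with
      | zero => exact lf 0
      | succ t ih => exact ih.bind (g := fun p x => Nat.find (ex (p + 1) x)) fun p => lf _
    have g4 : Dep T g := fun x y e => by
      have : ∀ m, Nat.find (ex m x) = Nat.find (ex m y) := fun m =>
        Nat.find_congr' fun {j} => by rw [show cl j (K2 (K3 x)) = _ from congrFun (t3 x y e) j]; rfl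
      simp only [g, this]
    have w := k.comp (thin_cond g1 g3 t1 t2 g4)
    have wi : In I ((K2 ∘ K3) ∘ thin β g) := (ki.mono sI).comp (in_thin.mono (by simpa using hβ))
    refine ⟨K1 ∘ (K2 ∘ K3) ∘ thin β g, a1.comp w, a2.comp wi, fun γ hγ => ?_, i, ?_⟩
    · rcases Finset.mem_insert.1 hγ with rfl | hγ
      · exact (a5.fix Nat.one_pos).comp ((ki.fix (lt_irrefl γ)).comp (fix_thin g1 t2 g4)
          (thin_cond g1 g3 t1 t2 g4)) w
      · exact ((a4 γ hγ (hF γ hγ)).fix Nat.one_pos).comp (((b3 γ hγ).comp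
          ((d3 γ hγ).fix Nat.one_pos) d1).comp (in_thin.fix (hF γ hγ).ne)
          (thin_cond g1 g3 t1 t2 g4)) w
    obtain ⟨U, u1, -, u2, u3⟩ := Dep.comp (f := fun x => (fun j => ce j x, x β))
      (S := insert β (⋃ j, S j)) (fun x y e => Prod.ext (funext fun j => s3 j x y fun δ hδ =>
        e δ (Or.inr (mem_iUnion.2 ⟨j, hδ⟩))) (e β (Or.inl rfl)))
      ((countable_iUnion s1).insert β) hI
      (insert_subset hβ (iUnion_subset fun j => (s2 j).trans sI)) w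
    refine ⟨U, u1, u2, fun x => ?_⟩
    set W := (K2 ∘ K3) ∘ thin β g with hW
    obtain ⟨G, k1, m, k2⟩ := ex_nb (S := U) (p := fun y => ce (W x β 0) (W y) = ce (W x β 0) (W x) ∧
      W y β 0 = W x β 0) (((c1 _).lc.comp w.cont x).and (cont_iff.1 w.cont β 0 x)) fun a b e => by
        have := Prod.ext_iff.1 (u3 a b e)
        simp only at this ⊢
        rw [congrFun this.1, this.2]
    refine ⟨G, k1, m, her_box2 (K := K1) (n := 1) (a := fun _ => W x β 0) (hD i) hI hβ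
      (s4 (W x β 0) (W x)) (s1 _) (s2 _) (w.comp cond_nb)
      (wi.comp (on_nb.in_res.mono (k1.trans u2))) (fun y => ?_) (fun y j hj => ?_) ?_⟩
    · rw [← (k2 _ mem_res).1]
      exact (c1 _).mem _
    · obtain rfl : j = 0 := by omega
      exact (k2 _ mem_res).2
    · have e : cl (W x β 0) (W x) = i := by
        rw [show W x β 0 = g x (x β 0) from (congrFun (ki _ β (lt_irrefl β)) 0).trans thin_zero,
          ← g2 x (x β 0)]
        exact cl3 _ _ _ fun δ hδ => k.low lw (fun ε hε => in_thin x ε (ne_of_lt hε)) δ (s2 _ hδ)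
      exact e ▸ cl1 _ _

end Pool.Agent.P.MP_39acbb_lc.Mi
end

-- part Pool.Agent.P.MP_39acbb_lc.Mi.A6
section

set_option autoImplicit false
set_option linter.unusedSectionVars false

/-! Finite partitions into pieces and amalgamation. -/

open Filter Topology Set Function

namespace Pool.Agent.P.MP_39acbb_lc.Mi

universe u

open Pc (triv)

/-- the piece of `a` in the partition of width `w` -/
def pz (a : ℕ → ℕ) : ℕ → Pc
  | 0 => triv
  | w + 1 => if (pz a w).r < a (pz a w).k then ⟨(pz a w).k, (pz a w).r + 1, (pz a w).z⟩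
      else ⟨(pz a w).k + 1, 0, update (pz a w).z (pz a w).k (pz a w).r⟩

section pz
variable {a b : ℕ → ℕ} {w : ℕ}

theorem pz_old (h : (pz a w).r < a (pz a w).k) :
    pz a (w + 1) = ⟨(pz a w).k, (pz a w).r + 1, (pz a w).z⟩ := if_pos h

theorem pz_new (h : ¬(pz a w).r < a (pz a w).k) :
    pz a (w + 1) = ⟨(pz a w).k + 1, 0, update (pz a w).z (pz a w).k (pz a w).r⟩ := if_neg h

theorem pz_mem (a : ℕ → ℕ) (w : ℕ) : (pz a w).mem a := by
  induction w with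
  | zero => exact Pc.triv_mem
  | succ w ih =>
    by_cases h : (pz a w).r < a (pz a w).k
    · rw [pz_old h]; exact ⟨ih.1, h⟩
    · rw [pz_new h]
      refine ⟨fun i hi => ?_, Nat.zero_le _⟩
      rcases (Nat.le_of_lt_succ hi).eq_or_lt with rfl | e
      · have := ih.2
        simp only [update_self]; omega
      · simp only [update_of_ne e.ne]; exact ih.1 i e

theorem pz_sub (h : (pz a (w + 1)).mem b) : (pz a w).mem b := by
  by_cases e : (pz a w).r < a (pz a w).k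
  · rw [pz_old e] at h
    exact ⟨h.1, Nat.le_of_succ_le h.2⟩
  · rw [pz_new e] at h
    exact ⟨(h.1.mono (Nat.le_succ _)).trans (up_update _ _ le_rfl),
      ((h.1 _ (Nat.lt_succ_self _)).trans (update_self _ _ _)).ge⟩

theorem pz_eq (h : (pz a w).mem b) : pz b w = pz a w := by
  induction w with
  | zero => rfl
  | succ w ih =>
    have ih := ih (pz_sub h)
    by_cases e : (pz a w).r < a (pz a w).k
    · rw [pz_old e] at h ⊢
      rw [pz_old (by rw [ih]; exact h.2), ih]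
    · rw [pz_new e] at h ⊢
      rw [pz_new (by rw [ih]; exact ((h.1 _ (Nat.lt_succ_self _)).trans (update_self _ _ _)).not_gt),
        ih]

theorem pz_fin (w : ℕ) : (range fun a => pz a w).Finite := by
  induction w with
  | zero => exact (finite_singleton triv).subset (by rintro _ ⟨_, rfl⟩; rfl)
  | succ w ih =>
    refine ((ih.image fun c => (⟨c.k, c.r + 1, c.z⟩ : Pc)).union
      (ih.image fun c => (⟨c.k + 1, 0, update c.z c.k c.r⟩ : Pc))).subset ?_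
    rintro _ ⟨a, rfl⟩
    by_cases e : (pz a w).r < a (pz a w).k
    · exact Or.inl ⟨_, ⟨a, rfl⟩, (pz_old e).symm⟩
    · exact Or.inr ⟨_, ⟨a, rfl⟩, (pz_new e).symm⟩

theorem pz_mono (a : ℕ → ℕ) : Monotone fun w => (pz a w).k := monotone_nat_of_le_succ fun w => by
  by_cases e : (pz a w).r < a (pz a w).k
  · rw [pz_old e]
  · rw [pz_new e]; exact Nat.le_succ _

theorem pz_top (a : ℕ → ℕ) (k : ℕ) : ∃ w, k ≤ (pz a w).k := by
  induction k with
  | zero => exact ⟨0, Nat.zero_le _⟩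
  | succ k ih =>
    obtain ⟨w, h⟩ := ih
    have : ∀ d, k < (pz a (w + d)).k ∨ (pz a (w + d)).k = k ∧ d ≤ (pz a (w + d)).r := fun d => by
      induction d with
      | zero => exact h.eq_or_lt.symm.imp id fun e => ⟨e.symm, Nat.zero_le _⟩
      | succ d ih =>
        rcases ih with e | e
        · exact Or.inl (e.trans_le (pz_mono a (Nat.le_succ _)))
        · rw [← Nat.add_assoc]
          by_cases e' : (pz a (w + d)).r < a (pz a (w + d)).k
          · rw [pz_old e']; exact Or.inr ⟨e.1, Nat.succ_le_succ e.2⟩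
          · rw [pz_new e']; exact Or.inl (e.1 ▸ Nat.lt_succ_self _)
    refine ⟨w + (a k + 1), (this _).resolve_right fun e => ?_⟩
    have := (pz_mem a (w + (a k + 1))).2
    rw [e.1] at this
    omega

theorem pz_par {p : ℕ} (h0 : a 0 % 2 = p) (h : ∀ t, a (t + 1) % 2 = 1) (w : ℕ) :
    (w % 2 ≠ p → (pz a w).r < a (pz a w).k) ∧
      ((pz a w).k = 0 ∧ (pz a w).r = w ∨ (pz a w).k ≠ 0 ∧ ((pz a w).r + p + 1 + w) % 2 = 0) := by
  have key : ∀ w, ((pz a w).k = 0 ∧ (pz a w).r = w ∨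
      (pz a w).k ≠ 0 ∧ ((pz a w).r + p + 1 + w) % 2 = 0) → w % 2 ≠ p →
      (pz a w).r < a (pz a w).k := fun w e e' => by
    have := (pz_mem a w).2
    rcases e with ⟨e1, e2⟩ | ⟨e1, e2⟩
    · rw [e1] at this ⊢; omega
    · have := h ((pz a w).k - 1)
      rw [Nat.sub_add_cancel (Nat.pos_of_ne_zero e1)] at this
      omega
  suffices s : _ from ⟨key w s, s⟩
  induction w with
  | zero => exact Or.inl ⟨rfl, rfl⟩
  | succ w ih =>
    by_cases e : (pz a w).r < a (pz a w).k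
    · rw [pz_old e]; simp only; omega
    · have := mt (key w ih) e
      rw [pz_new e]; simp only; omega

end pz

variable {ι : Type u} [LinearOrder ι] {K L R : Om ι → Om ι} {α γ : ι} {x y : Om ι} {k n w : ℕ}
  {I S : Set ι} {c : Box ι} {F G : Finset ι} {D : (Om ι → Om ι) → Prop}

/-- `K` respects the partition of width `w` at `γ` -/
def FixW (K : Om ι → Om ι) (γ : ι) (w : ℕ) : Prop := ∀ a k, k ≤ (pz a w).k → Fix K γ a k

/-- the piece of `x` -/
def box (F : Finset ι) (w : ℕ) (x : Om ι) (γ : ι) : Pc := if γ ∈ F then pz (x γ) w else triv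

theorem on_box : On (box F w x) F := fun _ h => if_neg h

theorem box_in (h : γ ∈ F) : box F w x γ = pz (x γ) w := if_pos h

theorem self_box : Mem (box F w x) x := fun γ => by
  by_cases h : γ ∈ F
  · rw [box_in h]; exact pz_mem _ _
  · rw [on_box γ h]; exact Pc.triv_mem

theorem cond_box : IsCond (res (box F w x)) := on_box.cond F.countable_toSet

theorem box_fin (F : Finset ι) (w : ℕ) : (range (box F w)).Finite := by
  have := (pz_fin w).to_subtype
  refine (finite_range fun (f : F → range fun a => pz a w) γ =>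
    if h : γ ∈ F then (f ⟨γ, h⟩).1 else triv).subset ?_
  rintro _ ⟨x, rfl⟩
  exact ⟨fun γ => ⟨_, x γ, rfl⟩, funext fun γ => by simp [box]⟩

theorem FixW.mono {v : ℕ} (h : FixW K γ w) (e : v ≤ w) : FixW K γ v :=
  fun a k hk => h a k (hk.trans (pz_mono a e))

theorem Fix.mem {d : Pc} (h : Fix K γ d.z d.k) (e : d.mem (x γ)) : d.mem (K x γ) :=
  ⟨(h x e.1).1, e.2.trans (h.ge e.1)⟩

theorem FixW.fix (h : FixW K γ w) (a : ℕ → ℕ) : Fix K γ (pz a w).z (pz a w).k :=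
  (h a _ le_rfl).congr (pz_mem a w).1

theorem box_map (h : ∀ γ ∈ F, FixW K γ w) (e : Mem (box F w x) y) : Mem (box F w x) (K y) :=
  fun γ => by
  by_cases k : γ ∈ F
  · have := e γ
    rw [box_in k] at this ⊢
    exact ((h γ k).fix _).mem this
  · rw [on_box γ k]; exact Pc.triv_mem

theorem pure_conj {c' : Box ι} (hm : ∀ y, Mem c (R (res c' y)))
    (h : ∀ γ ∈ I, Fix R γ (c' γ).z (c' γ).k ∧ (c γ).k = (c' γ).k) :
    Pure I (drop c ∘ R ∘ res c') := fun γ hγ x _ => ⟨up_zero _ _, fun y h1 _ h3 => by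
  refine Pc.drop_lt (hm x γ) ?_
  rw [(h γ hγ).2, Nat.zero_add]
  exact ((h γ hγ).1 _ (mem_res γ).1).2 _ (fun δ hδ => congrArg _ (h1 δ hδ)) (mem_res γ).1
    (by simpa [res] using Pc.res_lt (c := c' γ) h3)⟩

section am
open Classical

/-- `R` transplanted into the box `c` -/
noncomputable def am (c : Box ι) (R : Om ι → Om ι) (x : Om ι) (γ : ι) : ℕ → ℕ :=
  if ∀ δ ≤ γ, (c δ).mem (x δ) then res c (R (drop c x)) γ else x γ

theorem am_res : am c R ∘ res c = res c ∘ R := by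
  funext x γ
  simp only [comp_apply, am, drop_res]
  exact if_pos fun δ _ => mem_res δ

theorem am_low (h : On c (Ici α)) (hR : IsCond R) (e : γ < α) : am c R x γ = R x γ := by
  have t : ∀ δ ≤ γ, c δ = triv := fun δ hδ => h δ (not_le.2 (hδ.trans_lt e))
  rw [am, if_pos fun δ hδ => by rw [t δ hδ]; exact Pc.triv_mem, res, t γ le_rfl, Pc.triv_res]
  exact hR.caus γ _ _ fun δ hδ => by rw [drop, t δ hδ, Pc.triv_drop]

theorem am_lev : Lev (am c R) γ (c γ).k := fun x => by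
  unfold am
  split_ifs with h
  · exact (mem_res γ).1.trans (h γ le_rfl).1.symm
  · exact Up.rfl

theorem am_out (h : ¬(c γ).mem (x γ)) : am c R x γ = x γ := if_neg fun e => h (e γ le_rfl)

theorem am_fix {a : ℕ → ℕ} (hp : Fix R γ 0 0) (h : k ≤ (c γ).k ∨ ¬(c γ).mem a) :
    Fix (am c R) γ a k := by
  rcases lt_trichotomy k (c γ).k with e | rfl | e
  · exact am_lev.fix e
  · refine fun x hx => ⟨(am_lev x).trans hx, fun y h1 h2 h3 => ?_⟩
    have r : ∀ y : Om ι, res c y γ (c γ).k = y γ 0 + (c γ).r := fun y => by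
      simpa [res] using Pc.res_add (c := c γ) (a := y γ) 0
    by_cases e : ∀ δ ≤ γ, (c δ).mem (x δ)
    · have m := e γ le_rfl
      rw [am, am, if_pos e, if_pos fun δ hδ => ?_, r, r]
      · exact Nat.add_lt_add_right ((hp _ (up_zero _ _)).2 _ (lo_drop h1) (up_zero _ _)
          (Pc.drop_lt m (by simpa using h3))) _
      · rcases hδ.eq_or_lt with rfl | hδ
        · exact ⟨(h2.trans hx.symm).trans m.1, m.2.trans h3.le⟩
        · exact h1 δ hδ ▸ e δ hδ.le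
    · rw [am, am, if_neg e]
      split_ifs with e'
      · have := hp.ge (x := drop c y) (up_zero _ _)
        have m := (e' γ le_rfl).2
        rw [r]
        simp only [drop, Pc.drop, Nat.zero_add, if_true] at this
        exact h3.trans_le (by omega)
      · exact h3
  · have o : ∀ x : Om ι, Up k (x γ) a → am c R x γ = x γ := fun x hx =>
      am_out fun m => h.resolve_left (not_le.2 e) (m.congr (hx.symm.mono e))
    exact fun x hx => ⟨o x hx ▸ hx, fun y _ h2 h3 => by rwa [o x hx, o y h2]⟩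

theorem am_cond (h : On c F) (hR : IsCond R) (hp : Pure F R) : IsCond (am c R) := by
  have dp : ∀ γ (x y : Om ι), (∀ δ ∈ F, δ ≤ γ → x δ = y δ) → (∀ δ ≤ γ, (c δ).mem (x δ)) →
      ∀ δ ≤ γ, (c δ).mem (y δ) := fun γ x y e m δ hδ => by
    by_cases k : δ ∈ F
    · exact e δ k hδ ▸ m δ hδ
    · rw [h δ k]; exact Pc.triv_mem
  have eq : ∀ γ (x y : Om ι), (∀ δ ∈ F, δ ≤ γ → x δ = y δ) → x γ = y γ →
      R (drop c x) γ = R (drop c y) γ → am c R x γ = am c R y γ := fun γ x y e1 e2 e3 => by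
    simp only [am, res, e2, e3]
    exact if_congr ⟨dp γ x y e1, dp γ y x fun δ a b => (e1 δ a b).symm⟩ rfl rfl
  refine ⟨cont_iff.2 fun γ j x => ?_, fun γ x y e => eq γ x y (fun δ _ => e δ) (e γ le_rfl)
    (hR.caus γ _ _ fun δ hδ => congrArg _ (e δ hδ)), ?_, fun γ x k => ?_⟩
  · filter_upwards [(eventually_all_finset F).2 fun δ _ => lc_pcmem (c δ) δ x, lc_coord γ j x,
      cont_iff.1 (cont_res.comp (hR.cont.comp (cont_drop (c := c)))) γ j x] with y h1 h2 h3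
    have : (∀ δ ≤ γ, (c δ).mem (y δ)) ↔ ∀ δ ≤ γ, (c δ).mem (x δ) := forall₂_congr fun δ _ => by
      by_cases k : δ ∈ F
      · rw [h1 δ k]
      · simp only [h δ k, Pc.triv_mem]
    simp only [am, this]
    split_ifs
    exacts [h3, h2]
  · obtain ⟨T, h1, h2, h3⟩ := hR.supp
    refine ⟨F ∪ T, F.countable_toSet.union h1, fun x γ k => ?_, fun γ hγ x y k =>
      eq γ x y (fun δ a _ => k δ (Or.inl a)) (k γ hγ) ?_⟩
    · unfold am
      split_ifs with e
      · rw [res, h2 _ γ fun e => k (Or.inr e), drop, Pc.res_drop (e γ le_rfl)]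
      · rfl
    · by_cases e' : γ ∈ T
      · exact h3 γ e' _ _ fun δ hδ => congrArg _ (k δ (Or.inr hδ))
      · rw [h2 _ γ e', h2 _ γ e', drop, drop, k γ hγ]
  · by_cases e : γ ∈ F ∧ (k ≤ (c γ).k ∨ ¬(c γ).mem (x γ))
    · exact ⟨k, (am_fix (hp γ e.1) e.2).spl Up.rfl⟩
    have m : (c γ).k ≤ k ∧ ∀ y : Om ι, Up k (y γ) (x γ) → (c γ).mem (y γ) := by
      by_cases e' : γ ∈ F
      · simp only [e', true_and, not_or, not_le, not_not] at e
        exact ⟨e.1.le, fun y u => e.2.congr (u.mono e.1)⟩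
      · rw [h γ e']; exact ⟨Nat.zero_le _, fun _ _ => Pc.triv_mem⟩
    by_cases e' : ∀ δ < γ, (c δ).mem (x δ)
    · obtain ⟨l, hl⟩ := spl_conj hR m.1 x
      have i : ∀ y, Lo γ y x → Up k (y γ) (x γ) → am c R y γ = res c (R (drop c y)) γ :=
        fun y h1 h2 => if_pos fun δ hδ => by
          rcases hδ.eq_or_lt with rfl | hδ
          exacts [m.2 y h2, h1 δ hδ ▸ e' δ hδ]
      refine ⟨l, fun y y' h1 h2 h3 h4 => ?_⟩
      rw [i y h1 h3, i y' h2 h4]
      exact hl y y' h1 h2 h3 h4 (m.2 y h3)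
    · refine ⟨k, spl_self fun y h1 _ => ?_⟩
      rw [am, if_neg fun a => e' fun δ hδ => h1 δ hδ ▸ a δ hδ.le]
      exact Up.rfl

theorem am_fixW (hp : Pure F R) (h : γ ∈ F) : FixW (am (box F w x) R) γ w := fun a k hk =>
  am_fix (hp γ h) (by
    rw [box_in h]
    exact or_iff_not_imp_right.2 fun e => pz_eq (not_not.1 e) ▸ hk)

end am

theorem fin_iter {α β : Type*} {A : (α → α) → Prop} (h0 : A id)
    (h1 : ∀ f g, A f → A g → A (f ∘ g)) {Q : β → (α → α) → Prop} {C : Set β} (hC : C.Finite)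
    (h2 : ∀ c ∈ C, ∀ f g, A g → Q c f → Q c (f ∘ g))
    (h3 : ∀ c ∈ C, ∀ f, A f → ∃ g, A g ∧ Q c (f ∘ g)) : ∃ f, A f ∧ ∀ c ∈ C, Q c f := by
  induction C, hC using Set.Finite.induction_on with
  | empty => exact ⟨id, h0, fun _ h => h.elim⟩
  | insert _ _ ih =>
    obtain ⟨f, a, b⟩ := ih (fun c h => h2 c (Or.inr h)) fun c h => h3 c (Or.inr h)
    obtain ⟨g, a', b'⟩ := h3 _ (Or.inl rfl) f a
    refine ⟨f ∘ g, h1 f g a a', ?_⟩
    rintro c (rfl | h)
    exacts [b', h2 c (Or.inr h) f g a' (b c h)]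

end Pool.Agent.P.MP_39acbb_lc.Mi
end

-- part Pool.Agent.P.MP_39acbb_lc.Mi.A7
section

set_option autoImplicit false
set_option linter.unusedSectionVars false

/-! One step of the construction. -/

open Filter Topology Set Function

namespace Pool.Agent.P.MP_39acbb_lc.Mi

universe u

open Pc (triv)

variable {ι : Type u} [LinearOrder ι] {K L R : Om ι → Om ι} {α γ : ι} {x y : Om ι} {k n w : ℕ}
  {I S : Set ι} {c : Box ι} {F G : Finset ι} {D : (Om ι → Om ι) → Prop} {e : Om ι → ℕ → ℕ}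
  {N : Om ι → ℕ}

/-- conditions that are pure on `F` -/
def PC (F : Finset ι) (R : Om ι → Om ι) : Prop := IsCond R ∧ Pure F R

theorem pc_id : PC F id := ⟨isCond_id, pure_id⟩

theorem PC.comp (h : PC F L) (h' : PC F R) : PC F (L ∘ R) := ⟨h.1.comp h'.1, h.2.comp h'.2 h'.1⟩

theorem PC.mono (h : PC F R) (e : G ⊆ F) : PC G R := ⟨h.1, h.2.mono e⟩

theorem pc_low (hF : ↑F ⊆ Ici α) (h : IsCond R) (h' : In (Iio α) R) : PC F R :=
  ⟨h, h'.pure fun _ a b => not_le.2 b (hF a)⟩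

/-- locally constant functions of countably many coordinates below `α` -/
def Low {β : Type*} (α : ι) (f : Om ι → β) : Prop :=
  LC f ∧ ∃ S : Set ι, S.Countable ∧ S ⊆ Iio α ∧ Dep S f

section low
variable {β β' β'' : Type*} {f : Om ι → β} {f' : Om ι → β'}

theorem Low.comp (h : Low α f) (hK : IsCond K) : Low α fun x => f (K x) :=
  let ⟨_, a, b, c⟩ := h.2
  let ⟨T, a', _, b', c'⟩ := c.comp a (isLowerSet_Iio α) b hK
  ⟨h.1.comp hK.cont, T, a', b', c'⟩

theorem Low.dep (h : Low α f) : Dep (Iio α) f :=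
  let ⟨_, _, b, c⟩ := h.2
  c.mono b

theorem low_const (b : β) : Low α fun _ : Om ι => b :=
  ⟨lc_const b, ∅, countable_empty, empty_subset _, fun _ _ _ => rfl⟩

theorem Low.map2 (h : Low α f) (h' : Low α f') (g : β → β' → β'') :
    Low α fun x => g (f x) (f' x) :=
  let ⟨S, a, b, c⟩ := h.2
  let ⟨T, a', b', c'⟩ := h'.2
  ⟨h.1.map2 h'.1 g, S ∪ T, a.union a', union_subset b b', fun x y e => congrArg₂ g
    (c x y fun δ k => e δ (Or.inl k)) (c' x y fun δ k => e δ (Or.inr k))⟩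

theorem Low.res (h : Low α f) (hc : On c (Ici α)) (x : Om ι) : f (res c x) = f x :=
  h.dep _ _ fun δ hδ => hc.in_res x δ (not_le.2 hδ)

end low

/-- no pure extension forces a value of `e` into a bounded interval that begins at `N` -/
def NT (e : Om ι → ℕ → ℕ) (N : Om ι → ℕ) (F : Finset ι) (K : Om ι → Om ι) : Prop :=
  ∀ (b : ℕ) (R : Om ι → Om ι), PC F R → ∃ x, ∀ j, e (K (R x)) j < N (K (R x)) ∨ b ≤ e (K (R x)) j

theorem NT.comp (h : NT e N F K) (hR : PC F R) : NT e N F (K ∘ R) :=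
  fun b R' a => h b (R ∘ R') (hR.comp a)

/-- admissible steps -/
def Adm (α : ι) (F G : Finset ι) (w : ℕ) (R : Om ι → Om ι) : Prop :=
  IsCond R ∧ (∀ γ ∈ F, FixW R γ w) ∧ ∀ γ ∈ G, γ < α → Lev R γ w

theorem adm_id : Adm α F G w id :=
  ⟨isCond_id, fun _ _ _ _ _ => (in_id (I := ∅)).fix id, fun _ _ _ _ => Up.rfl⟩

theorem Adm.comp (h : Adm α F G w L) (h' : Adm α F G w R) : Adm α F G w (L ∘ R) :=
  ⟨h.1.comp h'.1, fun γ e a k hk => (h.2.1 γ e a k hk).comp (h'.2.1 γ e a k hk) h'.1,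
    fun γ e e' => (h.2.2 γ e e').comp (h'.2.2 γ e e')⟩

theorem Adm.conj (h : Adm α F G w R) (x : Om ι) :
    ∃ R', PC F R' ∧ R ∘ res (box F w x) = res (box F w x) ∘ R' := by
  have m : ∀ y, Mem (box F w x) (R (res (box F w x) y)) := fun y => box_map h.2.1 mem_res
  exact ⟨_, ⟨(h.1.comp cond_box).drop on_box F.countable_toSet m, pure_conj m fun γ e =>
    ⟨by rw [box_in e]; exact (h.2.1 γ e).fix _, rfl⟩⟩, (factor m).symm⟩

theorem Adm.old {F' : Finset ι} (h : Adm α F' G (w + 1) R) (hF : F ⊆ F') (x : Om ι)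
    (o : ∀ γ ∈ F, (pz (x γ) w).r < x γ (pz (x γ) w).k) :
    ∃ R', PC F R' ∧ R ∘ res (box F' (w + 1) x) = res (box F w x) ∘ R' := by
  have m : ∀ y, Mem (box F w x) (R (res (box F' (w + 1) x) y)) := fun y γ => by
    by_cases e : γ ∈ F
    · have := box_map h.2.1 (mem_res (c := box F' (w + 1) x) (x := y)) γ
      rw [box_in (hF e)] at this
      rw [box_in e]
      exact pz_sub this
    · rw [on_box γ e]; exact Pc.triv_mem
  exact ⟨_, ⟨(h.1.comp cond_box).drop on_box F.countable_toSet m, pure_conj m fun γ e =>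
    ⟨by rw [box_in (hF e)]; exact (h.2.1 γ (hF e)).fix _, by
      rw [box_in e, box_in (hF e), pz_old (o γ e)]⟩⟩, (factor m).symm⟩

variable [WellFoundedLT ι]

theorem push (F : Finset ι) {p : Om ι → Prop} (hp : ∀ x, p x → ∀ᶠ y in 𝓝 x, p y)
    (h : ∀ R, PC F R → ∃ x, ¬p (R x)) : ∃ R, PC F R ∧ ∀ x, ¬p (R x) := by
  obtain ⟨K, k1, -, k2, i, k3⟩ := pd F univ isLowerSet_univ (fun i K => ∀ x, p (K x) ↔ i = true)
    (fun _ _ _ _ _ a x => a _) fun K a _ => by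
      by_cases e : ∃ x, p (K x)
      · obtain ⟨x, e⟩ := e
        obtain ⟨G, -, m, k⟩ := ex_nb (a.cont.continuousAt.eventually (hp _ e)) (dep_univ _)
        exact ⟨_, cond_nb, in_univ, true, fun y => iff_of_true (k _ mem_res) rfl⟩
      · exact ⟨id, isCond_id, in_univ, false, fun y => iff_of_false (fun k => e ⟨y, k⟩) (by simp)⟩
  have := Good.all (p := fun y => p y ↔ i = true) k3
  obtain ⟨x, hx⟩ := h K ⟨k1, k2⟩
  exact ⟨K, ⟨k1, k2⟩, fun y hy => hx ((this x).2 ((this y).1 hy))⟩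

theorem gap (hα : α ∈ F) (hF : ↑F ⊆ Ici α) (hK : IsCond K) (he : ∀ j, LC fun x => e x j)
    (hd : ∀ x j j', j' ≤ j → K x α j' ≤ e x j) : ∃ R, PC F R ∧ ∃ b, NT e (fun _ => b) F R := by
  obtain ⟨l, hl⟩ := hK.mil α 0 0
  obtain ⟨G, g1, m, g2⟩ := ex_nb (hl.ev hK) (S := Iio α) fun a b k => propext
    ⟨fun h => h.congr (fun δ hδ => (k δ hδ).symm) (up_zero _ _), fun h => h.congr k (up_zero _ _)⟩
  have r0 : PC F (res (nb 0 G m)) := pc_low hF cond_nb (on_nb.in_res.mono g1)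
  set R0 := res (nb (0 : Om ι) G m)
  obtain ⟨R1, r1, q1⟩ := fin_iter (A := PC F) pc_id (fun _ _ => PC.comp)
    (Q := fun j R => (∃ b, ∀ y, e (R0 (R y)) j < b) ∨
      ∀ b R', PC F R' → ∃ y, b ≤ e (R0 (R (R' y))) j) (finite_Iio l)
    (fun j _ f g a => Or.imp (fun ⟨b, h⟩ => ⟨b, fun y => h _⟩) fun h b R' a' => h b _ (a.comp a'))
    fun j _ f a => by
      by_cases h : ∃ b R', PC F R' ∧ ∀ y, e (R0 (f (R' y))) j < b
      · obtain ⟨b, R', h1, h2⟩ := h
        exact ⟨R', h1, Or.inl ⟨b, h2⟩⟩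
      · push Not at h
        exact ⟨id, pc_id, Or.inr h⟩
  have : ∀ j, ∃ b, (∃ b, ∀ y, e (R0 (R1 y)) j < b) → ∀ y, e (R0 (R1 y)) j < b := fun j => by
    by_cases h : ∃ b, ∀ y, e (R0 (R1 y)) j < b
    exacts [h.imp fun _ a _ => a, ⟨0, fun a => (h a).elim⟩]
  choose f hf using this
  refine ⟨R0 ∘ R1, r0.comp r1, (Finset.range l).sup f, fun b R r => ?_⟩
  obtain ⟨R2, r2, q2⟩ := fin_iter (A := PC F) pc_id (fun _ _ => PC.comp)
    (Q := fun j R' => (∀ y, e (R0 (R1 (R (R' y)))) j < (Finset.range l).sup f) ∨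
      ∀ y, b ≤ e (R0 (R1 (R (R' y)))) j) (finite_Iio l)
    (fun j _ f g _ => Or.imp (fun h y => h _) fun h y => h _) fun j hj g a => by
      rcases q1 j hj with h | h
      · exact ⟨id, pc_id, Or.inl fun y =>
          (hf j h _).trans_le (Finset.le_sup (Finset.mem_range.2 hj))⟩
      · obtain ⟨R', a', b'⟩ := push F (p := fun y => e (R0 (R1 (R (g y)))) j < b)
          (fun x hx => ((he j).comp (((r0.comp r1).comp r).comp a).1.cont x).mono fun y k =>
            k.trans_lt hx) fun R' a' => (h b _ ((r.comp a).comp a')).imp fun _ => not_lt.2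
        exact ⟨R', a', Or.inr fun y => not_lt.1 (b' y)⟩
  refine ⟨R2 fun _ _ => b, fun j => ?_⟩
  by_cases h : j < l
  · exact (q2 j h).imp (fun a => a _) fun a => a _
  · exact Or.inr (((((r0.comp r1).comp r).comp r2).2.ge hα fun _ _ => b).trans
      ((g2 _ mem_res).ge.trans (hd _ j l (not_lt.1 h))))

theorem loc (hF : ↑F ⊆ Ici α) (G : Finset ι) (w : ℕ) (x : Om ι) (hD : Her (Iio α) D)
    (hd : ∀ K, PC F K → ∃ R, PC F R ∧ D (K ∘ R)) : ∃ R K, Adm α F G w R ∧ PC F K ∧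
      R ∘ res (box F w x) = res (box F w x) ∘ K ∧ Good (Iio α) (fun K' => D (K ∘ K')) id := by
  obtain ⟨K, k1, -, k2, k3, -, k4⟩ := unif isLowerSet_univ (mem_univ α) (bb_Iio α) 0 w G F
    (fun γ h => (mem_Ici.1 (hF h)).eq_or_lt.symm.imp id fun e => ⟨e.symm, rfl⟩) hD fun K a _ b =>
      let ⟨R, a, b⟩ := hd K ⟨a, b⟩
      ⟨R, a.1, in_univ, a.2, b⟩
  have o : res (one α 0 0) = id := by
    funext x γ
    by_cases e : γ = α
    · rw [e, res, one_self]; exact Pc.res_zero rfl rfl _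
    · exact on_nb.in_res x γ (by simpa using e)
  refine ⟨am (box F w x) K, K, ⟨am_cond on_box k1 k2, fun γ => am_fixW k2, fun γ a b y => ?_⟩,
    ⟨k1, k2⟩, am_res, by simpa only [o, comp_id] using k4 0⟩
  rw [am_low (on_box.mono hF) k1 b]
  exact k3 γ a b y

theorem phase1 (hα : α ∈ F) (hF : ↑F ⊆ Ici α) (G : Finset ι) (w : ℕ) (hK : IsCond K)
    (he : ∀ j, LC fun x => e x j) (hd : ∀ x j j', j' ≤ j → K x α j' ≤ e x j) :
    ∃ R N, Adm α F G w R ∧ Low α N ∧ ∀ x, NT (fun x => e (R x)) N F (res (box F w x)) := by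
  obtain ⟨R, r, q⟩ := fin_iter (A := Adm α F G w) adm_id (fun _ _ => Adm.comp)
    (Q := fun c R => ∃ N, Low α N ∧ NT (fun x => e (R x)) N F (res c)) (box_fin F w)
    (by
      rintro _ ⟨x, rfl⟩ f g a ⟨N, h1, h2⟩
      obtain ⟨R', a', b'⟩ := a.conj x
      refine ⟨fun x => N (g x), h1.comp a.1, fun b R r => ?_⟩
      have := h2.comp a' b R r
      rw [← b'] at this
      exact this)
    (by
      rintro _ ⟨x, rfl⟩ f a
      have k := a.1.comp (cond_box (F := F) (w := w) (x := x))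
      obtain ⟨R, K', r1, r2, r3, r4⟩ := loc hF G w x
        (D := fun K => ∃ b, NT (fun y => e (f (res (box F w x) y))) (fun _ => b) F K)
        (fun K R a b ⟨c, h⟩ => ⟨c, h.comp (pc_low hF a b)⟩) fun K' h =>
          gap (e := fun y => e (f (res (box F w x) (K' y)))) hα hF ((hK.comp k).comp h.1)
            (fun j => (he j).comp (k.comp h.1).cont) fun y => hd _
      obtain ⟨ce, c1, c2⟩ := r4.cells fun K R a b ⟨c, h⟩ => ⟨c, h.comp (pc_low hF a b)⟩
      have : ∀ c, ∃ b, c ∈ range ce →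
          NT (fun y => e (f (res (box F w x) y))) (fun _ => b) F (K' ∘ res c) := fun c => by
        by_cases h : c ∈ range ce
        · obtain ⟨y, rfl⟩ := h
          exact (c2 y).imp fun _ a _ => a
        · exact ⟨0, fun a => (h a).elim⟩
      choose t ht using this
      obtain ⟨S, s1, s2, s3, s4⟩ := c1.dep
      have lw : Low α ce := ⟨c1.lc, S, s1, s2, s3⟩
      refine ⟨R, r1, fun y => t (ce y), lw.map2 lw fun a _ => t a, fun b R' r => ?_⟩
      obtain ⟨R2, g1, g2, g3⟩ := (lw.comp r.1).1.const_on (lw.comp r.1).dep 0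
      have m : ∀ y, Mem (ce (R' 0)) ((R' ∘ R2) y) := fun y => g3 y ▸ c1.mem _
      obtain ⟨y, hy⟩ := ht _ ⟨R' 0, rfl⟩ b (drop (ce (R' 0)) ∘ R' ∘ R2)
        ⟨(r.1.comp g1).drop (s4 _) s1 m, Pure.comp (((s4 _).in_drop.mono s2).pure
          fun _ a b => not_le.2 b (hF a)) (r.comp (pc_low hF g1 g2)).2 (r.1.comp g1)⟩
      refine ⟨R2 y, fun j => ?_⟩
      have := hy j
      simp only [comp_apply] at this m ⊢
      rw [res_drop (m y), ← comp_apply (f := res _) (g := K'), ← r3] at this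
      rwa [lw.res (on_box.mono hF), g3])
  choose N h1 h2 using fun c : range (box F w) => q c.1 c.2
  have := (box_fin F w).fintype
  refine ⟨R, fun y => Finset.univ.sup fun c => N c y, r, ?_, fun x b R' r' => ?_⟩
  · classical
    generalize (Finset.univ : Finset (range (box F w))) = s
    induction s using Finset.induction_on with
    | empty => exact low_const 0
    | insert a s _ ih => simpa only [Finset.sup_insert] using (h1 a).map2 ih max
  · obtain ⟨y, hy⟩ := h2 ⟨_, x, rfl⟩ b R' r'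
    exact ⟨y, fun j => (hy j).imp_left fun h =>
      h.trans_le (Finset.le_sup (f := fun c => N c _) (Finset.mem_univ _))⟩

theorem step {F' : Finset ι} (hα : α ∈ F') (hF : ↑F' ⊆ Ici α) (hs : F ⊆ F') (G : Finset ι)
    (hK : IsCond K) (he : ∀ j, LC fun x => e x j) (hd : ∀ x j j', j' ≤ j → K x α j' ≤ e x j)
    (hN : Low α N) (h : ∀ x, NT e N F (res (box F w x))) :
    ∃ R N', Adm α F' G (w + 1) R ∧ Low α N' ∧ (∀ x, N (R x) < N' x) ∧
      (∀ x, NT (fun x => e (R x)) N' F' (res (box F' (w + 1) x))) ∧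
      ∀ x, (∀ γ ∈ F, (pz (x γ) w).r < x γ (pz (x γ) w).k) → ∀ y, Mem (box F' (w + 1) x) y →
        ∀ j, e (R y) j < N (R y) ∨ N' y ≤ e (R y) j := by
  obtain ⟨R1, N1, r1, l1, q1⟩ := phase1 hα hF G (w + 1) hK he hd
  have l2 := l1.map2 (hN.comp r1.1) fun a b => max a (b + 1)
  set N2 := fun x => max (N1 x) (N (R1 x) + 1)
  obtain ⟨R, r, q⟩ := fin_iter (A := Adm α F' G (w + 1)) adm_id (fun _ _ => Adm.comp)
    (Q := fun c R => ∀ y j, e (R1 (R (res c y))) j < N (R1 (R (res c y))) ∨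
      N2 (R (res c y)) ≤ e (R1 (R (res c y))) j)
    ((box_fin F' (w + 1)).subset (image_subset_range _
      {x | ∀ γ ∈ F, (pz (x γ) w).r < x γ (pz (x γ) w).k}))
    (by
      rintro _ ⟨x, -, rfl⟩ f g a k y
      obtain ⟨R', -, b'⟩ := a.conj x
      have := k (R' y)
      rw [← comp_apply (f := res _) (g := R'), ← b'] at this
      exact this)
    (by
      rintro _ ⟨x, o, rfl⟩ f a
      have k := a.1.comp (cond_box (F := F') (w := w + 1) (x := x))
      obtain ⟨T, t1, t2⟩ := (r1.comp a).old hs x o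
      set c := box F' (w + 1) x
      obtain ⟨R, K', g1, -, g3, g4⟩ := loc hF G (w + 1) x
        (D := fun K => ∀ y j, e (R1 (f (res c (K y)))) j < N (R1 (f (res c (K y)))) ∨
          N2 (f (res c (K y))) ≤ e (R1 (f (res c (K y)))) j)
        (fun K R _ _ h y => h _) fun K' h' => by
          have lw := l2.comp (k.comp h'.1)
          obtain ⟨R2, g1, g2, g3⟩ := lw.1.const_on lw.dep 0
          have p2 := h'.comp (pc_low hF g1 g2)
          have k' := (r1.1.comp k).comp p2.1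
          obtain ⟨R3, g4, g5⟩ := push F' (p := fun y => ¬∀ j,
            e (R1 (f (res c (K' (R2 y))))) j < N (R1 (f (res c (K' (R2 y))))) ∨
              N2 (f (res c (K' 0))) ≤ e (R1 (f (res c (K' (R2 y))))) j)
            (fun y hy => by
              obtain ⟨j, hj⟩ := not_forall.1 hy
              filter_upwards [(he j).comp k'.cont y, hN.1.comp k'.cont y] with z a b k
              simp only [comp_apply] at a b
              exact hj (a ▸ b ▸ k j))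
            fun R' a' => by
              obtain ⟨y, hy⟩ := (h x).comp t1 _ _ ((p2.comp a').mono hs)
              rw [← t2] at hy
              exact ⟨y, not_not.2 hy⟩
          refine ⟨R2 ∘ R3, (pc_low hF g1 g2).comp g4, fun y j => ?_⟩
          have := g3 (R3 y)
          simp only [comp_apply] at this ⊢
          exact this ▸ not_not.1 (g5 y) j
      refine ⟨R, g1, fun y => ?_⟩
      have := Good.all (p := fun y => ∀ j, e (R1 (f (res c (K' y)))) j < N (R1 (f (res c (K' y)))) ∨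
          N2 (f (res c (K' y))) ≤ e (R1 (f (res c (K' y)))) j) g4 y
      rw [← comp_apply (f := res _) (g := K'), ← g3] at this
      exact this)
  refine ⟨R1 ∘ R, fun x => N2 (R x), r1.comp r, l2.comp r.1,
    fun x => Nat.lt_of_succ_le (le_max_right _ _),
    fun x b R' r' => ?_, fun x o y m => ?_⟩
  · obtain ⟨T, t1, t2⟩ := r.conj x
    obtain ⟨y, hy⟩ := (q1 x).comp t1 b R' r'
    rw [← t2] at hy
    exact ⟨y, fun j => (hy j).imp_left fun a => a.trans_le (le_max_left _ _)⟩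
  · have := q _ ⟨x, o, rfl⟩ (drop (box F' (w + 1) x) y)
    rw [res_drop m] at this
    exact this

end Pool.Agent.P.MP_39acbb_lc.Mi
end

-- part Pool.Agent.P.MP_39acbb_lc.Mi.A8
section

set_option autoImplicit false
set_option linter.unusedSectionVars false

/-! The main combinatorial theorem. -/

open Filter Topology Set Function

namespace Pool.Agent.P.MP_39acbb_lc.Mi

universe u

open Pc (triv)

variable {ι : Type u} [LinearOrder ι] {K : Om ι → Om ι} {α : ι} {S : Set ι} {e : Om ι → ℕ → ℕ}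

open Classical in
/-- the first digit gets parity `p`, the others are odd -/
noncomputable def th (S : Set ι) (p : ℕ) (x : Om ι) (γ : ι) (t : ℕ) : ℕ :=
  if γ ∈ S then 2 * x γ t + if t = 0 then p else 1 else x γ t

theorem in_th {p : ℕ} : In S (th S p) := fun _ _ h => funext fun _ => if_neg h

theorem th_cond {p : ℕ} (hS : S.Countable) : IsCond (th S p) := by
  classical
  have k : ∀ γ t (x y : Om ι), x γ t = y γ t → th S p x γ t = th S p y γ t := fun γ t x y h => by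
    simp only [th, h]
  refine ⟨cont_iff.2 fun γ t => (lc_coord γ t).map fun v =>
    if γ ∈ S then 2 * v + if t = 0 then p else 1 else v,
    fun γ x y h => funext fun t => k γ t x y (congrFun (h γ le_rfl) t),
    ⟨S, hS, in_th, fun γ hγ x y h => funext fun t => k γ t x y (congrFun (h γ hγ) t)⟩,
    fun γ x l => ⟨l, fun y y' _ _ h3 h4 => ⟨fun t ht => k γ t y y' (h3.trans h4.symm t ht),
      fun h => ?_⟩⟩⟩
  by_cases e : γ ∈ S
  · simp only [th, if_pos e]; omega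
  · simpa only [th, if_neg e] using h

variable [WellFoundedLT ι]

theorem main (hK : IsCond K) (he : ∀ j, LC fun x => e x j)
    (hd : ∀ x j j', j' ≤ j → K x α j' ≤ e x j) :
    ∃ (M : Om ι → Om ι) (B : Om ι → ℕ → Prop) (b : ℕ) (R0 R1 : Om ι → Om ι), IsCond M ∧
      (∃ S : Set ι, S.Countable ∧ S ⊆ Iio α ∧ Dep S B) ∧
      IsCond R0 ∧ In (Ici α) R0 ∧ IsCond R1 ∧ In (Ici α) R1 ∧
      (∀ x j, ¬B x (e (M (R0 x)) j)) ∧ ∀ x j, e (M (R1 x)) j < b ∨ B x (e (M (R1 x)) j) := by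
  classical
  have h1 : (↑({α} : Finset ι) : Set ι) ⊆ Ici α := by simp
  obtain ⟨L, l1, b, l2⟩ := gap (Finset.mem_singleton_self α) h1 hK he hd
  obtain ⟨s, G, S, h0, h1, h2, -, h4⟩ := book
    (St := (Om ι → Om ι) × (Om ι → ℕ) × Finset ι × (Om ι → Om ι))
    (fun n s => IsCond s.1 ∧ Low α s.2.1 ∧ α ∈ s.2.2.1 ∧ ↑s.2.2.1 ⊆ Ici α ∧
      ∀ x, NT (fun x => e (s.1 x)) s.2.1 s.2.2.1 (res (box s.2.2.1 n x)))
    (fun n s G s' S => s'.1 = s.1 ∘ s'.2.2.2 ∧ s.2.2.1 ⊆ s'.2.2.1 ∧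
      (∀ γ ∈ G, α ≤ γ → γ ∈ s'.2.2.1) ∧ Adm α s'.2.2.1 G (n + 1) s'.2.2.2 ∧ In S s'.2.2.2 ∧
      (∀ x, s.2.1 (s'.2.2.2 x) < s'.2.1 x) ∧
      ∀ x, (∀ γ ∈ s.2.2.1, (pz (x γ) n).r < x γ (pz (x γ) n).k) →
        ∀ y, Mem (box s'.2.2.1 (n + 1) x) y →
          ∀ j, e (s'.1 y) j < s.2.1 (s'.2.2.2 y) ∨ s'.2.1 y ≤ e (s'.1 y) j)
    (L, fun _ => b, {α}, id) ⟨l1.1, low_const b, Finset.mem_singleton_self α, h1, fun x => by
      have : res (box {α} 0 x) = id := by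
        funext y γ
        simp only [res, box, pz, ite_self, Pc.triv_res, id]
      rw [this]
      exact l2⟩ ∅ fun n s G ⟨a1, a2, a3, a4, a5⟩ => by
      have u : (↑(s.2.2.1 ∪ G.filter (α ≤ ·)) : Set ι) ⊆ Ici α := by
        rw [Finset.coe_union]
        exact union_subset a4 fun _ h => (Finset.mem_filter.1 h).2
      obtain ⟨R, N, b1, b2, b3, b4, b5⟩ := step (Finset.mem_union_left _ a3) u
        Finset.subset_union_left G (hK.comp a1) (fun j => (he j).comp a1.cont) (fun x => hd _) a2 a5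
      obtain ⟨S, g1, g2, -⟩ := b1.1.supp
      exact ⟨(s.1 ∘ R, N, s.2.2.1 ∪ G.filter (α ≤ ·), R), S, g1,
        ⟨a1.comp b1.1, b2, Finset.mem_union_left _ a3, u, b4⟩, rfl, Finset.subset_union_left,
        fun γ h h' => Finset.mem_union_right _ (Finset.mem_filter.2 ⟨h, h'⟩), b1, g2, b3, b5⟩
  let R : ℕ → Om ι → Om ι := fun n => (s (n + 1)).2.2.2
  let F : ℕ → Finset ι := fun n => (s n).2.2.1
  have hR : ∀ n, IsCond (R n) := fun n => (h2 n).2.2.2.1.1
  have mo : Monotone F := monotone_nat_of_le_succ fun n => (h2 n).2.1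
  have eL : ∀ n, (s n).1 = L ∘ seg R 0 n := fun n => by
    induction n with
    | zero => rw [h0]; rfl
    | succ n ih => rw [(h2 n).1, ih, seg, Nat.zero_add]; rfl
  obtain ⟨M, m1, m2, m3⟩ := fusion hR fun γ z k => by
    by_cases h : ∃ n, γ ∈ S n
    · obtain ⟨n, h⟩ := h
      obtain ⟨d, hd⟩ := h4 n γ h
      obtain ⟨w, hw⟩ := pz_top z k
      refine ⟨max d (max w k), fun m hm => ?_⟩
      have g := hd m (le_of_max_le_left hm)
      have := max_le_iff.1 (le_of_max_le_right hm)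
      rcases lt_or_ge γ α with e | e
      · exact ((h2 m).2.2.2.1.2.2 γ g e).fix (by omega)
      · exact (h2 m).2.2.2.1.2.1 γ ((h2 m).2.2.1 γ g e) z k (hw.trans (pz_mono z (by omega)))
    · exact ⟨0, fun m _ => (h2 m).2.2.2.2.1.fix fun k => h ⟨m, k⟩⟩
  let a : ℕ → Om ι → ℕ := fun n x => (s n).2.1 (M n x)
  have la : ∀ n, Low α (a n) := fun n => (h1 n).2.1.comp (m1 n)
  have eM : ∀ n x, M n x = R n (M (n + 1) x) := fun n x => congrFun (m2 n 1) x
  have sm : ∀ x, StrictMono fun n => a n x := fun x => strictMono_nat_of_lt_succ fun n => by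
    simp only [a, eM n x]
    exact (h2 n).2.2.2.2.2.1 _
  have av : ∀ n x, (∀ γ ∈ F n, (pz (x γ) n).r < x γ (pz (x γ) n).k) →
      ∀ j, e (L (M 0 x)) j < a n x ∨ a (n + 1) x ≤ e (L (M 0 x)) j := fun n x o j => by
    have := (h2 n).2.2.2.2.2.2 x o (M (n + 1) x) (fun γ => lim_mem (m3 (n + 1) x γ) fun m =>
      box_map (seg_ind (Q := fun L => ∀ γ ∈ F (n + 1), FixW L γ (n + 1)) hR
        (adm_id (α := α) (G := ∅)).2.1
        (fun _ _ c a b γ h z k hk => (a γ h z k hk).comp (b γ h z k hk) c)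
        (fun i hi γ h => ((h2 i).2.2.2.1.2.1 γ (mo (by omega) h)).mono (by omega)) m) self_box γ) j
    rw [eL, comp_apply, ← comp_apply (f := seg R 0 _), ← Nat.zero_add (n + 1), Nat.zero_add (n + 1)]
      at this
    have k := m2 0 (n + 1)
    rw [Nat.zero_add] at k
    rw [← k] at this
    simpa only [a, eM n x] using this
  have cF : (⋃ n, (F n : Set ι)).Countable := countable_iUnion fun n => (F n).countable_toSet
  have iF : ∀ p, In (Ici α) (th (⋃ n, (F n : Set ι)) p) := fun p =>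
    in_th.mono (iUnion_subset fun n => (h1 n).2.2.2.1)
  have av2 : ∀ p < 2, ∀ n, n % 2 ≠ p → ∀ x j, e (L (M 0 (th (⋃ n, (F n : Set ι)) p x))) j < a n x ∨
      a (n + 1) x ≤ e (L (M 0 (th (⋃ n, (F n : Set ι)) p x))) j := fun p hp n hn x j => by
    have k : ∀ n, a n (th (⋃ n, (F n : Set ι)) p x) = a n x := fun n =>
      (la n).dep _ _ fun δ hδ => iF p x δ (not_le.2 hδ)
    rw [← k, ← k]
    refine av n _ (fun γ h => (pz_par (p := p) ?_ (fun t => ?_) n).1 hn) j <;>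
      simp only [th, if_pos (mem_iUnion.2 ⟨n, h⟩ : γ ∈ ⋃ n, (F n : Set ι))]
    · simp; omega
    · simp
  choose T t1 t2 t3 using fun n => (la n).2
  refine ⟨L ∘ M 0, fun x v => ∃ n, n % 2 = 0 ∧ a n x ≤ v ∧ v < a (n + 1) x, b, _, _,
    l1.1.comp (m1 0), ⟨⋃ n, T n, countable_iUnion t1, iUnion_subset t2,
      fun x y h => ?_⟩, th_cond cF, iF 1, th_cond cF, iF 0, fun x j ⟨n, c1, c2, c3⟩ => ?_,
    fun x j => ?_⟩
  · simp only [fun n => t3 n x y fun δ k => h δ (mem_iUnion.2 ⟨n, k⟩)]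
  · have := av2 1 (by omega) n (by omega) x j
    simp only [comp_apply] at c2 c3
    omega
  · refine or_iff_not_imp_left.2 fun h => ?_
    simp only [comp_apply] at h ⊢
    generalize hv : e (L (M 0 (th (⋃ n, (F n : Set ι)) 0 x))) j = v at h
    have ex : ∃ n, v < a (n + 1) x := ⟨v, (sm x).le_apply (x := v + 1)⟩
    have c1 := Nat.find_spec ex
    have c2 : a (Nat.find ex) x ≤ v := by
      rcases k : Nat.find ex with _ | n
      · simp only [a, h0]; omega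
      · exact not_lt.1 (Nat.find_min ex (k ▸ n.lt_succ_self))
    refine ⟨_, by_contra fun c3 => ?_, c2, c1⟩
    have := av2 0 (by omega) _ c3 x j
    omega

end Pool.Agent.P.MP_39acbb_lc.Mi
end

-- part Pool.Agent.P.MP_39acbb_lc.Mi.A9
section

set_option autoImplicit false
set_option linter.unusedSectionVars false
set_option synthInstance.maxSize 4000

/-! A model of ZFC without rapid filters. -/

open Filter Topology Set Function Pool.Agent.Lib.PosetForcing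

namespace Pool.Agent.P.MP_39acbb_lc.Mi

universe v

/-- no filter on `ω` is rapid -/
def NR {M : Type v} (mem : M → M → Prop) : Prop := ∀ w u, IsOmega mem w →
  (∀ a b n, mem a u → mem b u → mem n w → ∃ k, mem k a ∧ mem k b ∧ mem n k) →
  ∃ m, IsFun mem m w w ∧ ∀ e r, IsFun mem e w w →
    (∀ j j' y y', App mem m j' y' → App mem e j y → j' = j ∨ mem j' j → y' = y ∨ mem y' y) →
    (∀ k, mem k r → ∃ j, App mem e j k) → ¬mem r u

/-- well-founded countably branching trees -/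
inductive Tr : Type
  | nil : Tr
  | sup (t : ℕ → Tr) : Tr

theorem ex_bound {S : Set Ordinal.{0}} (h : S.Countable) : ∃ β, S ⊆ Iio β := by
  have := h.to_subtype
  obtain ⟨β, hβ⟩ := Ordinal.bddAbove_of_small (s := S)
  exact ⟨β + 1, fun δ k => (hβ k).trans_lt (lt_add_one β)⟩

theorem ex_closed (g : Ordinal.{0} → Ordinal.{0}) (b : Ordinal.{0}) : ∃ α, b ≤ α ∧
    ∀ S : Set Ordinal.{0}, S.Countable → S ⊆ Iio α → ∃ β, S ⊆ Iio β ∧ β ≤ α ∧ g β ≤ α := by
  let f : Tr → Ordinal.{0} := fun t =>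
    Tr.rec b (fun _ v => max (⨆ n, v n) (g (⨆ n, v n))) t
  have le : ∀ t, f t ≤ ⨆ t, f t := Ordinal.le_iSup f
  refine ⟨⨆ t, f t, le .nil, fun S h1 h2 => ?_⟩
  obtain ⟨s, hs⟩ := countable_iff_exists_subset_range.1 (h1.image some)
  have : ∀ o : Option Ordinal.{0}, ∃ t, ∀ δ ∈ S, some δ = o → δ < f t := fun o => by
    by_cases e : o ∈ some '' S
    · obtain ⟨δ, k, rfl⟩ := e
      obtain ⟨t, ht⟩ := (Ordinal.lt_iSup_iff).1 (h2 k)
      exact ⟨t, fun _ _ e => Option.some_inj.1 e ▸ ht⟩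
    · exact ⟨.nil, fun δ k e' => (e ⟨δ, k, e'⟩).elim⟩
  choose t ht using this
  refine ⟨⨆ n, f (t (s n)), fun δ k => ?_, (le_max_left _ _).trans (le (.sup fun n => t (s n))),
    (le_max_right _ _).trans (le (.sup fun n => t (s n)))⟩
  obtain ⟨n, hn⟩ := hs ⟨δ, k, rfl⟩
  exact (ht _ δ k hn.symm).trans_le (Ordinal.le_iSup (fun n => f (t (s n))) n)

/-- the forcing -/
def Cd : Type 1 := {K : Om Ordinal.{0} → Om Ordinal.{0} // IsCond K}

instance : Preorder Cd where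
  le q p := ∃ R, IsCond R ∧ q.1 = p.1 ∘ R
  le_refl _ := ⟨id, isCond_id, rfl⟩
  le_trans := fun _ _ _ ⟨R, a, b⟩ ⟨T, c, d⟩ => ⟨T ∘ R, c.comp a, by rw [b, d]; rfl⟩

instance : OrderTop Cd where
  top := ⟨id, isCond_id⟩
  le_top p := ⟨p.1, p.2, rfl⟩

/-- extension of a condition -/
def Cd.ext (p : Cd) (R : Om Ordinal.{0} → Om Ordinal.{0}) (h : IsCond R) : Cd :=
  ⟨p.1 ∘ R, p.2.comp h⟩

theorem Cd.ext_le {p : Cd} {R : Om Ordinal.{0} → Om Ordinal.{0}} {h : IsCond R} :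
    p.ext R h ≤ p := ⟨R, h, rfl⟩

theorem small_cd (β : Ordinal.{0}) : Small.{0} {q : Cd // In (Iio β) q.1} := by
  classical
  refine small_of_injective (f := fun q (x : Iio β → ℕ → ℕ) (γ : Iio β) =>
    q.1.1 (fun δ => if h : δ < β then x ⟨δ, h⟩ else 0) γ) fun p q h =>
      Subtype.ext (Subtype.ext (funext fun x => funext fun γ => ?_))
  by_cases e : γ < β
  · have k : ∀ δ ∈ Iio β, x δ = if h : δ < β then x δ else 0 := fun δ h => by
      rw [dif_pos (mem_Iio.1 h)]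
    exact (p.1.2.low (isLowerSet_Iio β) k γ e).trans ((congrFun (congrFun h fun δ => x δ) ⟨γ, e⟩).trans
      (q.1.2.low (isLowerSet_Iio β) k γ e).symm)
  · exact (p.2 x γ e).trans (q.2 x γ e).symm

theorem Cd.bound (p : Cd) : ∃ β, In (Iio β) p.1 :=
  let ⟨_, a, b, _⟩ := p.2.supp
  let ⟨β, h⟩ := ex_bound a
  ⟨β, In.mono b h⟩

/-- names for sets of natural numbers -/
def nm (A : Set (ℕ × Cd)) : Name Cd := .mk A (fun x => natName x.1.1) fun x => x.1.2

/-- the generic real at `α` -/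
def gn (α : Ordinal.{0}) : Name Cd :=
  graphName (ι := {t : ℕ × ℕ × Cd // ∀ x, t.2.2.1 x α t.1 = t.2.1}) (fun t => natName t.1.1)
    (fun t => natName t.1.2.1) fun t => t.1.2.2

theorem ex_const {β : Type*} {f : Om Ordinal.{0} → β} (h : LC f) (x : Om Ordinal.{0}) :
    ∃ R, IsCond R ∧ ∀ y, f (R y) = f x :=
  let ⟨R, a, _, b⟩ := h.const_on (dep_univ f) x
  ⟨R, a, b⟩

theorem gn_fun (α : Ordinal.{0}) (p : Cd) :
    Forces p fun U => IsFun Mod.mem ((gn α).val U) (omegaName.val U) (omegaName.val U) := by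
  refine forces_isFunOn_graph (V := fun U y => Mod.mem y (omegaName.val U))
    (fun i q _ _ => ⟨q, le_rfl, .of_forall (fun U => ⟨natName_mem_omega _ U,
      natName_mem_omega _ U⟩) _⟩) (fun j q _ _ => ?_) fun i j q _ ⟨R, _, a⟩ ⟨T, _, b⟩ h => ?_
  · obtain ⟨R, a, b⟩ := ex_const (cont_iff.1 q.2.cont α j.down) 0
    exact ⟨q.ext R a, Cd.ext_le, ⟨(j.down, _, q.ext R a), b⟩, le_rfl, .of_forall (fun _ => rfl) _⟩
  · refine ⟨q, le_rfl, .of_forall (fun U => ?_) _⟩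
    rw [← i.2 (R 0), ← j.2 (T 0), h.natName_inj, ← comp_apply (f := i.1.2.2.1), ← a, b]
    rfl

theorem read {p : Cd} {e : Name Cd}
    (h : Forces p fun U => IsFun Mod.mem (e.val U) (omegaName.val U) (omegaName.val U)) :
    ∃ q ≤ p, ∃ f : Om Ordinal.{0} → ℕ → ℕ, (∀ j, LC fun x => f x j) ∧ ∀ j R (hR : IsCond R) x,
      ∃ T, ∃ hT : IsCond T, (∀ y, f (R (T y)) j = f (R x) j) ∧ Forces ((q.ext R hR).ext T hT)
        fun U => App Mod.mem (e.val U) ((natName j).val U) ((natName (f (R x) j)).val U) := by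
  let D : ℕ → ℕ → (Om Ordinal.{0} → Om Ordinal.{0}) → Prop := fun j v K => ∃ hK : IsCond K,
    Forces (p.ext K hK) fun U => App Mod.mem (e.val U) ((natName j).val U) ((natName v).val U)
  have hD : ∀ j v, Her univ (D j v) := fun j v K R a _ ⟨b, c⟩ => ⟨b.comp a, c.mono ⟨R, a, rfl⟩⟩
  have hD' : ∀ j, Her univ fun K => ∃ v, D j v K := fun j K R a b ⟨v, c⟩ => ⟨v, hD j v K R a b c⟩
  obtain ⟨K, k1, -, -, k2⟩ := bb_univ _ hD' (fun j K a _ => by
    obtain ⟨y, hy⟩ := Forces.exists_name (p := p.ext K a) (Φ := fun U y =>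
      App Mod.mem (e.val U) ((natName j).val U) y ∧ Mod.mem y (omegaName.val U))
      ((h.mono Cd.ext_le).imp fun U h => (h.2.1 _ (natName_mem_omega j U)).imp fun y k =>
        ⟨k, ((isZFC U).app_val h k).2⟩)
    obtain ⟨q, hq, v, hv⟩ := (hy.imp fun _ h => h.2).exists_fam
    obtain ⟨R, r1, r2⟩ := id hq
    refine ⟨R, r1, in_univ, v.down, a.comp r1, ?_⟩
    rw [show p.ext (K ∘ R) (a.comp r1) = q from Subtype.ext r2.symm]
    exact ((hy.mono hq).and hv).imp fun U h => h.2 ▸ h.1.1) ∅ 0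
  choose ce c1 c2 using fun j => (k2 j).cells (hD' j)
  have : ∀ j c, ∃ v, c ∈ range (ce j) → D j v (K ∘ res c) := fun j c => by
    by_cases h : c ∈ range (ce j)
    · obtain ⟨y, rfl⟩ := h
      exact (c2 j y).imp fun _ a _ => a
    · exact ⟨0, fun a => (h a).elim⟩
  choose t ht using this
  refine ⟨p.ext K k1, Cd.ext_le, fun x j => t j (ce j x), fun j => (c1 j).lc.map _,
    fun j R hR x => ?_⟩
  obtain ⟨T, a, b⟩ := ex_const ((c1 j).lc.comp hR.cont) x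
  obtain ⟨G, -, g⟩ := (c1 j).fin (R x)
  exact ⟨T, a, fun y => congrArg _ (b y), ((hD j _).box g G.countable_toSet (subset_univ _)
    (hR.comp a) in_univ (fun y => b y ▸ (c1 j).mem _) (ht j _ ⟨_, rfl⟩)).2⟩

theorem abv {α : Ordinal.{0}} {H q : Cd} {Z R T : Om Ordinal.{0} → Om Ordinal.{0}} {hR : IsCond R}
    (hH : In (Iio α) H.1) (h : ∀ x, Lo α (q.1 x) (H.1 (Z x))) (hT : IsCond T)
    (e : rst (Iio α) Z = R ∘ T) : q ≤ H.ext R hR := by
  refine ⟨T ∘ rst (Iio α)ᶜ q.1, hT.comp (q.2.rst _), ?_⟩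
  have : rst (Iio α) q.1 = H.1 ∘ rst (Iio α) Z := by
    rw [← hH.rst, ← rst_comp H.2 (isLowerSet_Iio α)]
    funext x γ
    by_cases k : γ ∈ Iio α
    · rw [rst_in k, rst_in k]; exact h x γ k
    · rw [rst_out k, rst_out k]
  exact (rst_tl q.2 (isLowerSet_Iio α)).symm.trans (by rw [this, e]; rfl)

theorem name_ex {β : Ordinal.{0}} {H : Cd} {B : Om Ordinal.{0} → ℕ → Prop} (hH : In (Iio β) H.1)
    (h2 : Dep (Iio β) B) : ∃ A : Set (ℕ × Cd),
      (∀ t ∈ A, In (Iio β) t.2.1) ∧ ∀ (q : Cd) Z, IsCond Z → (∀ x, Lo β (q.1 x) (H.1 (Z x))) → ∀ v,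
        ((∀ x, B (Z x) v) → ∃ r ≤ q, Forces r fun U => Mod.mem ((natName v).val U) ((nm A).val U)) ∧
        ((∀ x, ¬B (Z x) v) → Forces q fun U => ¬Mod.mem ((natName v).val U) ((nm A).val U)) := by
  have lw := isLowerSet_Iio β
  let A : Set (ℕ × Cd) := {t | ∃ R hR, In (Iio β) R ∧ t.2 = H.ext R hR ∧ ∀ x, B (R x) t.1}
  refine ⟨A, ?_,
    fun q Z hZ h v => ⟨fun k => ?_, fun k => forces_not_iff.2 fun r ⟨T, t1, t2⟩ hr => ?_⟩⟩
  · rintro ⟨v, _⟩ ⟨R, hR, a, rfl, -⟩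
    exact hH.comp a
  · refine ⟨q, le_rfl, forces_el_mem (b := nm A) ⟨(v, H.ext _ (hZ.rst (Iio β))), _, hZ.rst _,
      in_rst, rfl, fun x => ?_⟩ (abv (hR := hZ.rst _) hH h isCond_id rfl)⟩
    rw [h2 _ (Z x) fun δ => rst_in]
    exact k x
  · obtain ⟨s, ⟨T', t3, t4⟩, ⟨⟨v', c⟩, R, hR, a, hc, b⟩, ⟨T'', t5, t6⟩, e⟩ := hr.exists_el
    replace t6 : s.1 = (H.1 ∘ R) ∘ T'' := t6.trans (congrArg (fun c : Cd => c.1 ∘ T'') hc)
    obtain rfl : v = v' := e.natName_inj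
    refine k (T (T' 0)) ?_
    rw [h2 _ (R (T'' 0)) (H.2.inj_low lw fun δ hδ => ?_)]
    · exact b _
    · rw [← h _ δ hδ]
      exact (congrFun (congrFun (t2 ▸ t4) 0) δ).symm.trans (congrFun (congrFun t6 0) δ)

theorem nr (U : Gen Cd) : NR (M := Mod U) Mod.mem := by
  intro w u hw h1
  obtain rfl := hw.eq_omega
  obtain ⟨u, rfl⟩ := u.exists_name
  by_contra h3
  obtain ⟨p, -, hp⟩ := exists_forces_of (p := ⊤) (U := U) (Φ := fun U =>
    (∀ a b n, Mod.mem a (u.val U) → Mod.mem b (u.val U) → Mod.mem n (omegaName.val U) →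
      ∃ k, Mod.mem k a ∧ Mod.mem k b ∧ Mod.mem n k) ∧
    ∀ m, IsFun Mod.mem m (omegaName.val U) (omegaName.val U) → ∃ e r,
      IsFun Mod.mem e (omegaName.val U) (omegaName.val U) ∧
      (∀ j j' y y', App Mod.mem m j' y' → App Mod.mem e j y → j' = j ∨ Mod.mem j' j →
        y' = y ∨ Mod.mem y' y) ∧ (∀ k, Mod.mem k r → ∃ j, App Mod.mem e j k) ∧ Mod.mem r (u.val U))
    (by rw [Iic_top]; exact univ_mem) ⟨h1, fun m hm => by
      by_contra h4
      exact h3 ⟨m, hm, fun e r a b c d => h4 ⟨e, r, a, b, c, d⟩⟩⟩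
  clear h1 h3 hw U
  have dec : ∀ (q : Cd) (A : Set (ℕ × Cd)), ∃ W ≤ q,
      (Forces W fun U => ¬∃ b, Mod.mem b (u.val U) ∧ ∀ k, Mod.mem k b → ¬Mod.mem k ((nm A).val U)) ∨
        Forces W fun U => ∃ b, Mod.mem b (u.val U) ∧ ∀ k, Mod.mem k b →
          ¬Mod.mem k ((nm A).val U) := fun q A =>
    or_iff_not_imp_right.2 (fun h => by
      push Not at h
      exact forces_not_iff.2 h) |>.elim (fun h => ⟨q, le_rfl, Or.inl h⟩)
      fun (h : ∃ W ≤ q, _) => h.imp fun _ a => ⟨a.1, Or.inr a.2⟩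
  choose W w1 w2 using dec
  have : ∀ β, ∃ β', ∀ (q : Cd) (A : Set (ℕ × Cd)), In (Iio β) q.1 → (∀ t ∈ A, In (Iio β) t.2.1) →
      In (Iio β') (W q A).1 := fun β => by
    have := small_cd β
    choose f hf using Cd.bound
    let F : {q : Cd // In (Iio β) q.1} × Set (ℕ × {q : Cd // In (Iio β) q.1}) → Ordinal.{0} :=
      fun t => f (W t.1 ((fun s => (s.1, s.2.1)) '' t.2))
    refine ⟨⨆ t, F t, fun q A a b => (hf _).mono (Iio_subset_Iio ?_)⟩
    have := Ordinal.le_iSup F (⟨q, a⟩, (fun s => (s.1, s.2.1)) ⁻¹' A)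
    simp only [F] at this
    rwa [image_preimage_eq_of_subset fun t ht => ⟨(t.1, ⟨t.2, b t ht⟩), rfl⟩] at this
  choose g hg using this
  obtain ⟨α, -, hα⟩ := ex_closed g 0
  obtain ⟨e, he⟩ := Forces.exists_name ((hp.and (gn_fun α p)).imp fun U h => h.1.2 _ h.2)
  obtain ⟨r, hr⟩ := Forces.exists_name he
  obtain ⟨q, hq, f, f1, f2⟩ := read (hr.imp fun _ h => h.1)
  obtain ⟨M, B, b, R0, R1, m1, ⟨S, s1, s2, s3⟩, r1, r2, r3, r4, r5, r6⟩ :=
    main (α := α) q.2 f1 fun x j j' hj => by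
      obtain ⟨R, a, a'⟩ := ex_const ((cont_iff.1 q.2.cont α j').map2 (f1 j) Prod.mk) x
      obtain ⟨T, c, -, c'⟩ := f2 j R a 0
      obtain ⟨U, k1, k2, k3⟩ := ((hr.mono (Cd.ext_le.trans (Cd.ext_le.trans hq))).and (c'.and
        (forces_app_graph (X := fun t => natName t.1.1) (Y := fun t => natName t.1.2.1)
          (c := fun t : {t : ℕ × ℕ × Cd // ∀ x, t.2.2.1 x α t.1 = t.2.1} => t.1.2.2)
          ⟨(j', _, (q.ext R a).ext T c), fun y => (Prod.ext_iff.1 (a' (T y))).1⟩ le_rfl))).exists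
      rw [show f (R 0) j = f x j from (Prod.ext_iff.1 (a' 0)).2] at k2
      exact (k1.2.1 _ _ _ _ k3 k2 (hj.eq_or_lt.imp (congrArg fun n => (natName n).val U)
        natName_mem_iff.2)).elim
        (fun e => (natName_inj e).le) fun e => (natName_mem_iff.1 e).le
  have lw := isLowerSet_Iio α
  let H : Cd := ⟨rst (Iio α) (q.1 ∘ M), (q.2.comp m1).rst _⟩
  obtain ⟨T, t1, t2, -⟩ := H.2.supp
  obtain ⟨β, β1, β2, β3⟩ := hα (S ∪ T ∩ Iio α) (s1.union (t1.mono inter_subset_left))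
    (union_subset s2 inter_subset_right)
  have hH : In (Iio β) H.1 := fun x γ k => by
    by_cases e : γ ∈ T
    · exact in_rst x γ fun e' => k (β1 (Or.inr ⟨e, e'⟩))
    · exact t2 x γ e
  obtain ⟨A, a1, a2⟩ := name_ex hH (s3.mono fun _ k => β1 (Or.inl k))
  obtain ⟨R', r7, r8⟩ := w1 H A
  have r9 : In (Iio α) R' := fun x γ k => (in_rst _ γ k).symm.trans ((congrFun (congrFun r8 x) γ).symm.trans
    (hg β H A hH a1 x γ fun e => k (lt_of_lt_of_le e β3)))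
  have key : ∀ R (hR : IsCond R), In (Ici α) R → 
      ∀ Ψ : ∀ U : Gen Cd, Mod U → Prop, (∀ a : Name Cd, Clopen fun U => Ψ U (a.val U)) →
      (∀ (s : Cd) Z j v, IsCond Z → (∀ x, Lo β (s.1 x) (H.1 (Z x))) →
        (∀ x, f (M (R (Z x))) j = v) → ∃ t ≤ s, Forces t fun U => Ψ U ((natName v).val U)) →
      ∃ s ≤ W H A, s ≤ p ∧ Forces s fun U => ∀ k, Mod.mem k (r.val U) → Ψ U k := by
    intro R hR i Ψ _ h
    have c := (m1.comp hR).comp r7
    have lo : ∀ x, Lo α (q.1 (M (R x))) (H.1 x) := fun x δ k =>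
      ((q.2.comp m1).low lw (fun ε hε => i x ε fun e => not_le.2 (mem_Iio.1 hε) (mem_Ici.1 e)) δ k).trans (rst_in k).symm
    refine ⟨q.ext _ c, ?_, Cd.ext_le.trans hq, ((hr.mono (Cd.ext_le.trans hq)).and
      (forces_forall_mem_omega (Φ := fun U j => IsFun Mod.mem (e.val U) (omegaName.val U)
        (omegaName.val U) → ∀ k, App Mod.mem (e.val U) j k → Ψ U k) ?_)).imp fun U h k hk => ?_⟩
    · rw [show W H A = H.ext R' r7 from Subtype.ext r8]
      exact abv in_rst (fun x => lo _) isCond_id r9.rst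
    · rintro j s ⟨T, t1, t2⟩
      obtain ⟨T', t3, t4, t5⟩ := f2 j _ (c.comp t1) 0
      obtain ⟨t, t6, t7⟩ := h ((q.ext _ (c.comp t1)).ext T' t3) (R' ∘ T ∘ T') j _ (r7.comp (t1.comp t3))
        (fun x δ k => lo _ δ (k.trans_le β2)) t4
      exact ⟨t, t6.trans ⟨T', t3, by rw [t2]; rfl⟩, ((t5.mono t6).and t7).imp fun U h a k b =>
        a.2.2 _ _ _ h.1 b ▸ h.2⟩
    · obtain ⟨j, hj⟩ := h.1.2.2.1 k hk
      exact h.2 j ((isZFC U).app_val h.1.1 hj).1 h.1.1 k hj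
  rcases w2 H A with h | h
  · obtain ⟨s, s1, s2, s3⟩ := key R0 r1 r2
      (fun U k => ¬Mod.mem k ((nm A).val U)) (fun _ => inferInstance) fun s Z j v a b c =>
        ⟨s, le_rfl, (a2 s Z a b v).2 fun x => c x ▸ r5 _ j⟩
    obtain ⟨U, k2, k3, k4⟩ := ((hr.mono s2).and ((h.mono s1).and s3)).exists
    exact k3 ⟨_, k2.2.2.2, k4⟩
  · obtain ⟨s, s1, s2, s3⟩ := key R1 r3 r4
      (fun U k => Mod.mem k ((natName b).val U) ∨ Mod.mem k ((nm A).val U)) (fun _ => by infer_instance)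
      fun s Z j v a b' c => by
        by_cases e : v < b
        · exact ⟨s, le_rfl, .of_forall (fun U => Or.inl (natName_mem e U)) _⟩
        · exact ((a2 s Z a b' v).1 fun x => c x ▸ (r6 _ j).resolve_left (c x ▸ e)).imp
            fun _ k => ⟨k.1, k.2.imp fun _ => Or.inr⟩
    obtain ⟨U, ⟨k1, k2⟩, k3, k4⟩ := (((hp.mono s2).and (hr.mono s2)).and ((h.mono s1).and s3)).exists
    obtain ⟨c, c1, c2⟩ := k3
    obtain ⟨k, k5, k6, k7⟩ := k1.1 _ _ _ k2.2.2.2 c1 (natName_mem_omega b U)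
    obtain ⟨m, m1, rfl⟩ := (mem_natName U k).1 ((k4 k k5).resolve_right (c2 k k6))
    exact lt_asymm m1 (natName_mem_iff.1 k7)

end Pool.Agent.P.MP_39acbb_lc.Mi
end

-- part Pool.Agent.P.MP_39acbb_lc.Mi.B1
section

set_option autoImplicit false
set_option linter.unusedSectionVars false
set_option synthInstance.maxSize 4000

/-! Finite combinatorics in a model of ZFC: bounds, a Ramsey bound, non-rapid filters. -/

open Filter Function Pool.Agent.P.MP_af1204_lc.Inn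

namespace Pool.Agent.P.MP_39acbb_lc.Gr

theorem imp_ex {α : Type} [Nonempty α] {p : Prop} {q : α → Prop} (h : p → ∃ x, q x) :
    ∃ x, p → q x := by
  by_cases e : p
  exacts [(h e).imp fun _ a _ => a, ⟨Classical.arbitrary α, fun a => (e a).elim⟩]

variable [Md] {X : Type} [MT X]

theorem bdd (ix : X → NN) [DD ix] (hi : Injective ix) (P : X → NN → Prop) [DP2 P]
    (mono : ∀ x b b', b ≤ b' → P x b → P x b') (h : ∀ x, ∃ b, P x b) (N : NN) :
    ∃ b, ∀ x, ix x < N → P x b := by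
  refine NN.ind (P := fun N => ∃ b, ∀ x, ix x < N → P x b) N
    ⟨0, fun x k => (NN.not_lt_zero _ k).elim⟩ fun n ⟨b, hb⟩ => ?_
  by_cases e : ∃ x, ix x = n
  · obtain ⟨x, rfl⟩ := e
    obtain ⟨c, hc⟩ := h x
    refine ⟨max b c, fun y k => (NN.lt_suc_iff.1 k).eq_or_lt.elim (fun e => ?_) fun e =>
      mono _ _ _ (le_max_left _ _) (hb y e)⟩
    exact hi e ▸ mono _ _ _ (le_max_right _ _) hc
  · exact ⟨b, fun y k => hb y ((NN.lt_suc_iff.1 k).lt_of_ne fun e' => e ⟨y, e'⟩)⟩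

theorem bdd2 (ix : X → NN) [DD ix] (hi : Injective ix) (f : X → X → NN) [DD2 f] (N : NN) :
    ∃ b, ∀ x y, ix x < N → ix y < N → f x y < b := by
  obtain ⟨b, h⟩ := bdd ix hi (fun x b => ∀ y, ix y < N → f x y < b)
    (fun _ _ _ e h y k => (h y k).trans_le e) (fun x => bdd ix hi (fun y b => f x y < b)
      (fun _ _ _ e h => h.trans_le e) (fun y => ⟨_, NN.lt_suc _⟩) N) N
  exact ⟨b, fun x y k => h x k y⟩

theorem seq_rec (I : X → Prop) [DP I] (R : NN → X → X → Prop) [DP3 R] (z : X) (hz : I z)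
    (h : ∀ n x, I x → ∃ y, I y ∧ R n x y) :
    ∃ f : Fn NN X, f 0 = z ∧ ∀ n, I (f n) ∧ R n (f n) (f n.suc) := by
  have : Nonempty X := ⟨z⟩
  obtain ⟨F, hF⟩ := chsH (P := fun p : NN × X => I p.2) (R := fun p y => I y ∧ R p.1 p.2 y)
    fun p k => h p.1 p.2 k
  obtain ⟨f, _, h0, h1⟩ := NN.exists_rec ((0 : NN), z) fun p => (p.1.suc, F p)
  have k : ∀ n, (f n).1 = n ∧ I (f n).2 := fun n =>
    NN.ind (P := fun n => (f n).1 = n ∧ I (f n).2) n (by rw [h0]; exact ⟨rfl, hz⟩) fun n ih => by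
      rw [h1]
      exact ⟨congrArg NN.suc ih.1, (hF _ ih.2).1⟩
  refine ⟨lm fun n => (f n).2, congrArg Prod.snd h0, fun n => ⟨(k n).2, ?_⟩⟩
  have := (hF _ (k n).2).2
  rw [(k n).1] at this
  simpa only [lm_apply, h1] using this

theorem ex_pair : ∃ κ : Fn (NN × NN) NN, Injective κ :=
  (Cd.le_def _ _).1 (by rw [← Cd.mul_def, Cd.mk_nat, Cd.mul_eq_self le_rfl])

/-- at most `c` elements -/
def Sz (A : PS NN) (c : NN) : Prop :=
  ∃ a : Fn NN NN, (∀ i ∈ A, a i < c) ∧ ∀ i ∈ A, ∀ j ∈ A, a i = a j → i = j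

instance {Γ : Type} [MC Γ] (A : Γ → PS NN) (c : Γ → NN) [DD A] [DD c] :
    DP fun g => Sz (A g) (c g) := by
  unfold Sz; infer_instance

theorem ramsey (n : NN) : ∃ c, ∀ (Q : Fn NN (PS (NN × NN))) (r : PS NN),
    (∀ l i j k, i < j → j < k → (i, j) ∈ Q l → (i, k) ∈ Q l → (j, k) ∉ Q l) →
    (∀ i ∈ r, ∀ j ∈ r, i < j → ∃ l < n, (i, j) ∈ Q l) → Sz r c := by
  classical
  obtain ⟨κ, hκ⟩ := ex_pair
  refine NN.ind (P := fun n => ∃ c, ∀ (Q : Fn NN (PS (NN × NN))) (r : PS NN),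
    (∀ l i j k, i < j → j < k → (i, j) ∈ Q l → (i, k) ∈ Q l → (j, k) ∉ Q l) →
    (∀ i ∈ r, ∀ j ∈ r, i < j → ∃ l < n, (i, j) ∈ Q l) → Sz r c) n
    ⟨NN.suc 0, fun Q r _ h => ⟨Fn.const _ 0, fun _ _ => NN.lt_suc _, fun i hi j hj _ => ?_⟩⟩
    fun n ⟨c, ih⟩ => ?_
  · exact le_antisymm (not_lt.1 fun k => let ⟨_, e, _⟩ := h j hj i hi k; NN.not_lt_zero _ e)
      (not_lt.1 fun k => let ⟨_, e, _⟩ := h i hi j hj k; NN.not_lt_zero _ e)
  obtain ⟨b, hb⟩ := bdd2 (fun x => x) injective_id (fun l s => (κ (l, s)).suc) (max n.suc c)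
  refine ⟨b, fun Q r h1 h2 => ?_⟩
  rcases eq_empty_or_nonempty r with rfl | h
  · exact ⟨Fn.id, fun _ h => h.elim, fun _ h => h.elim⟩
  obtain ⟨a, ha, hm⟩ := wf_min (· ∈ r) h
  obtain ⟨f, hf⟩ := chsH (P := fun l => l < n.suc) (R := fun l (f : Fn NN NN) =>
    (∀ i ∈ sb fun j => j ∈ r ∧ a < j ∧ (a, j) ∈ Q l, f i < c) ∧
      ∀ i ∈ sb fun j => j ∈ r ∧ a < j ∧ (a, j) ∈ Q l,
        ∀ j ∈ sb fun j => j ∈ r ∧ a < j ∧ (a, j) ∈ Q l, f i = f j → i = j) fun l hl =>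
    ih (Q.update l (Q n)) _ (fun l' => by
      by_cases e : l' = l
      · rw [e, Fn.update_self]; exact h1 n
      · rw [Fn.update_of_ne e]; exact h1 l') fun i hi j hj e => by
      obtain ⟨l', k1, k2⟩ := h2 i hi.1 j hj.1 e
      have ne : l' ≠ l := fun e' => h1 l a i j hi.2.1 e hi.2.2 hj.2.2 (e' ▸ k2)
      rcases (NN.lt_suc_iff.1 k1).eq_or_lt with rfl | k
      · exact ⟨l, (NN.lt_suc_iff.1 hl).lt_of_ne ne.symm, by rwa [Fn.update_self]⟩
      · exact ⟨l', k, by rwa [Fn.update_of_ne ne]⟩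
  obtain ⟨g, hg⟩ := chsH (P := fun j => j ∈ r ∧ a < j) (R := fun j l => l < n.suc ∧ (a, j) ∈ Q l)
    fun j k => h2 a ha j k.1 k.2
  have lt : ∀ i ∈ r, i ≠ a → a < i := fun i hi e => (not_lt.1 (hm i hi)).lt_of_ne e.symm
  refine ⟨lm fun j => if j = a then 0 else (κ (g j, f (g j) j)).suc, fun i hi => ?_,
    fun i hi j hj => ?_⟩
  · rw [lm_apply]
    split_ifs with e
    · have := lt_max_of_lt_left (c := c) ((NN.zero_le n).trans_lt n.lt_suc)
      exact (NN.zero_le _).trans_lt (hb 0 0 this this)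
    · have k := hg i ⟨hi, lt i hi e⟩
      exact hb _ _ (lt_max_of_lt_left k.1)
        (lt_max_of_lt_right ((hf _ k.1).1 i ⟨hi, lt i hi e, k.2⟩))
  · simp only [lm_apply]
    split_ifs with e e' e'
    · exact fun _ => e.trans e'.symm
    · exact fun k => (NN.zero_ne_suc _ k).elim
    · exact fun k => (NN.suc_ne_zero _ k).elim
    · intro k
      obtain ⟨k1, k2⟩ := Prod.ext_iff.1 (hκ (NN.suc_inj.1 k))
      have k3 := hg i ⟨hi, lt i hi e⟩
      have k4 := hg j ⟨hj, lt j hj e'⟩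
      simp only at k1 k2
      rw [k1] at k2 k3
      exact (hf _ k4.1).2 i ⟨hi, lt i hi e, k3.2⟩ j ⟨hj, lt j hj e', k4.2⟩ k2

theorem ex_block (s : NN → NN) [DD s] (h : ∀ n, s n < s n.suc) (i : NN) (h0 : s 0 ≤ i) :
    ∃ n, s n ≤ i ∧ i < s n.suc := by
  have k : ∀ n, n ≤ s n := fun n => NN.ind (P := fun n => n ≤ s n) n (NN.zero_le _) fun n ih =>
    NN.suc_le_iff.2 (ih.trans_lt (h n))
  obtain ⟨m, h1, h2⟩ := wf_min (fun n => i < s n) ⟨i.suc, i.lt_suc.trans_le (k _)⟩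
  rcases m.cases with rfl | ⟨n, rfl⟩
  · exact (h0.not_gt h1).elim
  · exact ⟨n, not_lt.1 fun e => h2 n e n.lt_suc, h1⟩

/-- no filter on the natural numbers of the model is rapid -/
def NRt : Prop := ∀ u : PS (PS NN), (∀ a ∈ u, ∀ b ∈ u, ∀ n, ∃ k, k ∈ a ∧ k ∈ b ∧ n < k) →
  ∃ m : Fn NN NN, ∀ (e : Fn NN NN) (r : PS NN), (∀ j j', j' ≤ j → m j' ≤ e j) →
    (∀ k ∈ r, ∃ j, e j = k) → r ∉ u

theorem NRt.slalom (h : NRt) (F : Filter X) [DF1 F] [F.NeBot] (f : X → NN) [DD f]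
    (hf : Tendsto f F atTop) (c : NN → NN) [DD c] :
    ∃ T : Fn NN NN, ∀ A : PS X, A.s ∈ F → ∃ n, ¬Sz (image f A ∩ Iio (T n)) (c n) := by
  obtain ⟨κ, hκ⟩ := ex_pair
  obtain ⟨m, hm⟩ := h (sb fun r => ∀ᶠ x in F, f x ∈ r) fun a ha b hb n =>
    let ⟨x, k⟩ := ((Eventually.and ha hb).and (hf.eventually (eventually_gt_atTop n))).exists
    ⟨f x, k.1.1, k.1.2, k.2⟩
  obtain ⟨M, hM⟩ := chs fun j : NN => bdd (fun x => x) injective_id (fun i b => m i ≤ b)
    (fun _ _ _ e h => h.trans e) (fun _ => ⟨_, le_rfl⟩) j.suc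
  obtain ⟨T, -, hT⟩ := seq_rec (fun _ => True)
    (fun n a b => a < b ∧ ∀ s < c n.suc.suc, M (κ (n.suc, s)) ≤ b) 0 trivial fun n a _ => by
      obtain ⟨b, k⟩ := bdd (fun x => x) injective_id (fun s b => M (κ (n.suc, s)) ≤ b)
        (fun _ _ _ e h => h.trans e) (fun _ => ⟨_, le_rfl⟩) (c n.suc.suc)
      exact ⟨max a.suc b, trivial, lt_max_of_lt_left a.lt_suc, fun s e => le_max_of_le_right (k s e)⟩
  refine ⟨T, fun A hA => by_contra fun k => ?_⟩
  push Not at k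
  obtain ⟨a, ha⟩ := chs k
  have mo := (NN.strictMono_of_lt_suc fun n => (hT n).2.1).monotone
  obtain ⟨e, he⟩ := chs (R := fun j y => M j ≤ y ∧ ∀ n : NN, ∀ i ∈ image f A ∩ Iio (T n.suc.suc),
      T n.suc ≤ i → j = κ (n.suc, a n.suc.suc i) → y = i) fun j => by
    by_cases e : ∃ n : NN, ∃ i ∈ image f A ∩ Iio (T n.suc.suc), T n.suc ≤ i ∧
      j = κ (n.suc, a n.suc.suc i)
    · obtain ⟨n, i, h1, h2, rfl⟩ := e
      refine ⟨i, ((hT n).2.2 _ ((ha _).1 i h1)).trans h2, fun n' i' g1 _ g2 => ?_⟩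
      obtain ⟨k1, k2⟩ := Prod.ext_iff.1 (hκ g2)
      obtain rfl : n = n' := NN.suc_inj.1 k1
      exact (ha _).2 i h1 i' g1 k2
    · exact ⟨M j, le_rfl, fun n i h1 h2 h3 => (e ⟨n, i, h1, h2, h3⟩).elim⟩
  refine hm e (sb fun i => i ∈ image f A ∧ T (NN.suc 0) ≤ i)
    (fun j j' k => (hM j j' (NN.lt_suc_iff.2 k)).trans (he j).1) (fun i hi => ?_)
    (((hf.eventually (eventually_ge_atTop _)).and hA).mono fun x k => ⟨⟨x, k.2, rfl⟩, k.1⟩)
  obtain ⟨n, k1, k2⟩ := ex_block (fun n => T n.suc) (fun n => (hT _).2.1) i hi.2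
  exact ⟨_, (he _).2 n i ⟨hi.1, k2⟩ k1 rfl⟩

end Pool.Agent.P.MP_39acbb_lc.Gr
end

-- part Pool.Agent.P.MP_39acbb_lc.Mi.B2
section

set_option autoImplicit false
set_option linter.unusedSectionVars false
set_option synthInstance.maxSize 4000

/-! Countable groups of the model: differences that avoid given sets; the tree of products. -/

open Filter Function Topology Pool.Agent.P.MP_af1204_lc.Inn

namespace Pool.Agent.P.MP_39acbb_lc.Gr

variable [Md]

/-- groups of the model -/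
class GD (G : Type) [MT G] [Group G] : Prop where
  mul : DD2 fun a b : G => a * b
  inv : DD fun a : G => a⁻¹

variable {G : Type} [MT G] [Group G] [GD G]

instance dd_gmul {Γ : Type} [MC Γ] (a b : Γ → G) [DD a] [DD b] : DD fun g => a g * b g :=
  GD.mul.out.comp fun g => ⟨a g, b g⟩

instance dd_ginv {Γ : Type} [MC Γ] (a : Γ → G) [DD a] : DD fun g => (a g)⁻¹ := GD.inv.comp a

variable {ix : G → NN} [DD ix]

theorem rs (h : NRt) (hi : Injective ix) (F : Filter G) [DF1 F] [F.NeBot]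
    (hF : Tendsto ix F atTop) (W : NN → PS G) [DD W]
    (hW : ∀ n, ∀ a ∈ W n, ∀ b ∈ W n, a⁻¹ * b ∉ W n) (Z A0 : PS G) (h0 : A0.s ∈ F)
    (hZ : ∀ g ∈ A0, ∃ N, ∀ x ∈ A0, N ≤ ix x → g⁻¹ * x ∉ Z) :
    ∃ ξ : PS G, (∀ x ∈ ξ, x ∉ Z) ∧ (∀ n, ∃ N, ∀ x ∈ ξ, x ∈ W n → ix x < N) ∧
      ∀ A ∈ F, ∃ a ∈ A, ∃ b ∈ A, a⁻¹ * b ∈ ξ := by
  obtain ⟨s, s0, hs⟩ := seq_rec (fun _ => True)
    (fun _ a b => a < b ∧ ∀ g, ix g < a → g ∈ A0 → ∀ x ∈ A0, b ≤ ix x → g⁻¹ * x ∉ Z) 0 trivial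
    fun _ a _ => by
      obtain ⟨b, k⟩ := bdd ix hi (fun g N => g ∈ A0 → ∀ x ∈ A0, N ≤ ix x → g⁻¹ * x ∉ Z)
        (fun _ _ _ e h g x k k' => h g x k (e.trans k'))
        (fun g => imp_ex (hZ g)) a
      exact ⟨max a.suc b, trivial, lt_max_of_lt_left a.lt_suc,
        fun g e e' x k1 k2 => k g e e' x k1 (le_of_max_le_right k2)⟩
  have mo := (NN.strictMono_of_lt_suc fun n => (hs n).2.1).monotone
  obtain ⟨f, hf⟩ := chs fun x : G => ex_block s (fun n => (hs n).2.1) (ix x)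
    (s0.trans_le (NN.zero_le _))
  obtain ⟨c, hc⟩ := chs fun n : NN => ramsey n.suc
  obtain ⟨T, hT⟩ := h.slalom F f (tendsto_atTop.2 fun n =>
    (hF.eventually (eventually_ge_atTop (s n))).mono fun x k => not_lt.1 fun e =>
      k.not_gt ((hf x).2.trans_le (mo (NN.suc_le_iff.2 e)))) c
  refine ⟨sb fun x => x ∉ Z ∧ ∃ n a b, f a < T n ∧ f b < T n ∧ x = a⁻¹ * b ∧ ∀ l < n, x ∉ W l,
    fun _ k => k.1, fun l => ?_, fun A hA => by_contra fun k => ?_⟩
  · obtain ⟨t, ht⟩ := bdd (fun x => x) injective_id (fun n b => T n ≤ b) (fun _ _ _ e h => h.trans e)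
      (fun _ => ⟨_, le_rfl⟩) l.suc
    obtain ⟨N, hN⟩ := bdd2 ix hi (fun a b => ix (a⁻¹ * b)) (s t)
    refine ⟨N, ?_⟩
    rintro _ ⟨-, n, a, b, h1, h2, rfl, h3⟩ k
    have := ht n (NN.lt_suc_iff.2 (not_lt.1 fun e => h3 l e k))
    exact hN a b ((hf a).2.trans_le (mo (NN.suc_le_iff.2 (h1.trans_le this))))
      ((hf b).2.trans_le (mo (NN.suc_le_iff.2 (h2.trans_le this))))
  obtain ⟨B, b1, b2⟩ := DF1.ex (inter_mem hA h0)
  obtain ⟨n, hn⟩ := hT B b1
  have : Nonempty G := ⟨1⟩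
  obtain ⟨γ, hγ⟩ := chsH (P := fun i => i ∈ image f B) (R := fun i x => x ∈ B ∧ f x = i) fun _ k => k
  refine hn (hc n (lm fun l => sb fun p => (l = n ∧ p.2 = p.1.suc) ∨
    (l ≠ n ∧ (γ p.1)⁻¹ * γ p.2 ∈ W l)) _ (fun l i j k _ e => ?_) fun i hi j hj e => ?_)
  · rintro (⟨h1, h2⟩ | ⟨h1, h2⟩) (⟨h3, h4⟩ | ⟨h3, h4⟩) (⟨h5, h6⟩ | ⟨h5, h6⟩) <;> try contradiction
    · exact e.ne (h2.trans h4.symm)
    · exact hW l _ h2 _ h4 (by simpa [mul_assoc] using h6)
  · rcases (NN.suc_le_iff.2 e).eq_or_lt with e' | e'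
    · exact ⟨n, n.lt_suc, Or.inl ⟨rfl, e'.symm⟩⟩
    · have g1 := hγ i hi.1
      have g2 := hγ j hj.1
      by_contra k'
      refine k ⟨_, (b2 g1.1).1, _, (b2 g2.1).1, (hs i.suc).2.2 _
        ((hf _).2.trans_eq (by rw [g1.2])) (b2 g1.1).2 _ (b2 g2.1).2 ((mo (NN.suc_le_iff.2 e')).trans
          ((congrArg s g2.2).ge.trans (hf _).1)), n, _, _, g1.2.trans_lt hi.2, g2.2.trans_lt hj.2, rfl,
        fun l hl m => k' ⟨l, hl.trans n.lt_suc, Or.inr ⟨hl.ne, m⟩⟩⟩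

variable [TopologicalSpace G] [IsTopologicalGroup G] [T2Space G] [DF1 (𝓝 (1 : G))]

theorem ev_tr {y : G} {p : G → Prop} : (∀ᶠ z in 𝓝 y, p z) ↔ ∀ᶠ v in 𝓝 1, p (y * v) := by
  rw [← map_mul_left_nhds_one, eventually_map]

theorem fr_tr {y : G} {p : G → Prop} : (∃ᶠ z in 𝓝 y, p z) ↔ ∃ᶠ v in 𝓝 1, p (y * v) :=
  not_congr ev_tr

/-- there is a nonempty nowhere dense set without isolated points -/
def Concl (G : Type) [MT G] [TopologicalSpace G] : Prop :=
  ∃ A : PS G, A.Nonempty ∧ (∀ a ∈ A, ∃ᶠ z in 𝓝 a, z ≠ a ∧ z ∈ A) ∧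
    ∀ y, ¬∀ᶠ z in 𝓝 y, z ∈ closure A.s

/-- discrete sets whose only accumulation point is the identity -/
structure Ds (ξ : PS G) : Prop where
  one : 1 ∉ ξ
  acc : ∃ᶠ x in 𝓝 1, x ∈ ξ
  cd : ∀ y ≠ 1, ∀ᶠ z in 𝓝 y, z ∈ ξ → z = y

theorem ex_sym {V : Set G} (h : V ∈ 𝓝 1) :
    ∃ U : PS G, U.s ∈ 𝓝 1 ∧ (∀ a ∈ U, a⁻¹ ∈ U) ∧ ∀ a ∈ U, ∀ b ∈ U, a * b ∈ V := by
  obtain ⟨V1, h1, h2⟩ := exists_nhds_one_split h
  obtain ⟨B, b1, b2⟩ := DF1.ex h1
  exact ⟨sb fun a => a ∈ B ∧ a⁻¹ ∈ B, inter_mem b1 (inv_mem_nhds_one G b1),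
    fun a k => ⟨k.2, by simpa using k.1⟩, fun a k b k' => h2 a (b2 k.1) b (b2 k'.1)⟩

theorem tree (hi : Injective ix) {ξ η : PS G} (h1 : Ds ξ) (h2 : Ds η) (hd : ∀ x ∈ ξ, x ∉ η) :
    Concl G := by
  obtain ⟨U, -, hU⟩ := seq_rec (fun U : PS G => U.s ∈ 𝓝 1 ∧ ∀ a ∈ U, a⁻¹ ∈ U)
    (fun n U V => (∀ a ∈ V, ∀ b ∈ V, a * b ∈ U) ∧ ∀ y ≠ 1, ix y = n → y ∉ V ∧
      ∀ v ∈ V, y * v ∈ ξ ∨ y * v ∈ η → y * v = y) univ ⟨univ_mem, fun _ _ => trivial⟩
    fun n U k => by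
      have : ∀ᶠ v in 𝓝 1, ∀ y ≠ 1, ix y = n → v ≠ y ∧ (y * v ∈ ξ ∨ y * v ∈ η → y * v = y) := by
        by_cases e : ∃ y ≠ 1, ix y = n
        · obtain ⟨y, e, rfl⟩ := e
          filter_upwards [ev_tr.1 (h1.cd y e), ev_tr.1 (h2.cd y e), eventually_ne_nhds e.symm]
            with v a b c z _ e'
          exact hi e' ▸ ⟨c, fun k => k.elim a b⟩
        · exact Eventually.of_forall fun v y a b => (e ⟨y, a, b⟩).elim
      obtain ⟨V, v1, v2, v3⟩ := ex_sym (inter_mem k.1 this)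
      have v4 := fun a k => (v3 a k 1 (mem_of_mem_nhds v1)).2
      simp only [mul_one] at v4
      exact ⟨V, ⟨v1, v2⟩, fun a k b k' => (v3 a k b k').1, fun y a b =>
        ⟨fun k => (v4 y k y a b).1 rfl, fun v k => (v4 v k y a b).2⟩⟩
  have u1 : ∀ n, 1 ∈ U n := fun n => mem_of_mem_nhds (hU n).1.1
  have an : ∀ {m n}, m ≤ n → ∀ {a}, a ∈ U n → a ∈ U m := fun {m n} =>
    NN.ind (P := fun n => m ≤ n → ∀ {a}, a ∈ U n → a ∈ U m) n
      (fun e _ k => le_antisymm e (NN.zero_le m) ▸ k) fun n ih e a k =>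
        e.eq_or_lt.elim (fun e => e ▸ k) fun e => ih (NN.lt_suc_iff.1 e)
          (mul_one a ▸ (hU n).2.1 a k 1 (u1 _))
  have mu : ∀ {n j k a b}, n < j → n < k → a ∈ U j → b ∈ U k → a * b ∈ U n :=
    fun e e' k k' => (hU _).2.1 _ (an (NN.suc_le_iff.2 e) k) _ (an (NN.suc_le_iff.2 e') k')
  have iv : ∀ {n a}, a ∈ U n → a⁻¹ ∈ U n := fun k => (hU _).1.2 _ k
  have ne : ∀ x ∈ ξ, x ≠ 1 := fun x k e => h1.one (e ▸ k)
  have nu : ∀ y ≠ 1, ∀ n, y ∈ U n → n ≤ ix y := fun y e n k => not_lt.1 fun e' =>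
    ((hU _).2.2 y e rfl).1 (an (NN.suc_le_iff.2 e') k)
  have is : ∀ y ≠ 1, ∀ z, z ∈ ξ ∨ z ∈ η → y⁻¹ * z ∈ U (ix y).suc → z = y := fun y e z k k' => by
    simpa using ((hU _).2.2 y e rfl).2 _ k' (by simpa using k)
  have l1 : ∀ n : NN, n.suc < n.suc.suc := fun n => NN.lt_suc _
  let C : PS (NN × G) → Prop := fun B => (∀ m, (m, 1) ∈ B) ∧ ∀ m, ∀ x ∈ ξ, x ∈ U m → ∀ b,
    ((ix x).suc.suc.suc.suc, b) ∈ B → (m, x * b) ∈ B
  let A : NN → G → Prop := fun m a => ∀ B, C B → (m, a) ∈ B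
  have a1 : ∀ m, A m 1 := fun m B k => k.1 m
  have a2 : ∀ m, ∀ x ∈ ξ, x ∈ U m → ∀ b, A (ix x).suc.suc.suc.suc b → A m (x * b) :=
    fun m x e e' b k B k' => k'.2 m x e e' b (k B k')
  have a3 : ∀ m a, A m a → a = 1 ∨ ∃ x ∈ ξ, ∃ b, A (ix x).suc.suc.suc.suc b ∧ a = x * b :=
    fun m a k => (k (sb fun p => A p.1 p.2 ∧ (p.2 = 1 ∨ ∃ x ∈ ξ, ∃ b,
      A (ix x).suc.suc.suc.suc b ∧ p.2 = x * b)) ⟨fun m => ⟨a1 m, Or.inl rfl⟩,
        fun m x e e' b k => ⟨a2 m x e e' b k.1, Or.inr ⟨x, e, b, k.1, rfl⟩⟩⟩).2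
  have a4 : ∀ m a, A m a → ∀ j < m, a ∈ U j := fun m a k =>
    k (sb fun p => ∀ j < p.1, p.2 ∈ U j) ⟨fun _ _ _ => u1 _, fun m x e e' b k j hj =>
      mu hj hj e' (k m ((nu x (ne x e) m e').trans_lt ((ix x).lt_suc.trans ((l1 _).trans
        ((l1 _).trans (l1 _))))))⟩
  have a5 : ∀ m a, A m a → ∃ j, (∀ b, A j b → A m (a * b)) ∧
      ∃ l, ∀ u ∈ U l, A m (a * u) → A j u := fun m a k =>
    (k (sb fun p => A p.1 p.2 ∧ ∃ j, (∀ b, A j b → A p.1 (p.2 * b)) ∧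
      ∃ l, ∀ u ∈ U l, A p.1 (p.2 * u) → A j u) ⟨fun m => ⟨a1 m, m, by simp, 0, by simp⟩, by
        rintro m x e e' b ⟨k1, j, k2, l, k3⟩
        refine ⟨a2 m x e e' b k1, j, fun c k => mul_assoc x b c ▸ a2 m x e e' _ (k2 c k),
          max l (ix x).suc.suc.suc, fun u k4 k5 => k3 u (an (le_max_left _ _) k4) ?_⟩
        have k6 := mu (l1 _) (l1 _) (a4 _ _ k1 _ (l1 _)) (an (le_max_right _ _) k4)
        rcases a3 _ _ k5 with k7 | ⟨y, e1, c, k7, k8⟩
        · rw [mul_assoc, mul_eq_one_iff_eq_inv] at k7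
          exact ((nu x (ne x e) _ ((congrArg _ k7).mpr (iv k6))).not_gt
            ((ix x).lt_suc.trans (l1 _))).elim
        have k9 := a4 _ _ k7 _ (l1 _)
        simp only [mul_assoc] at k8
        obtain rfl : x = y := by
          rcases le_or_gt (ix x) (ix y) with e2 | e2
          · refine (is x (ne x e) y (Or.inl e1) ?_).symm
            rw [show x⁻¹ * y = b * u * c⁻¹ by rw [eq_mul_inv_iff_mul_eq, mul_assoc, ← k8]; simp]
            exact mu (l1 _) ((NN.lt_suc_iff.2 (NN.suc_le_suc.2 e2)).trans (l1 _)) k6 (iv k9)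
          · refine is y (ne y e1) x (Or.inl e) ?_
            rw [show y⁻¹ * x = c * (b * u)⁻¹ by rw [eq_mul_inv_iff_mul_eq, mul_assoc, k8]; simp]
            exact mu ((l1 _).trans (l1 _)) (NN.lt_suc_iff.2 (NN.suc_le_suc.2 e2.le)) k9 (iv k6)
        exact mul_left_cancel k8 ▸ k7⟩).2
  refine ⟨sb (A 0), ⟨1, a1 0⟩, fun a k => ?_, fun y k => ?_⟩
  · obtain ⟨j, k1, -⟩ := a5 0 a k
    exact fr_tr.2 ((h1.acc.and_eventually (hU j).1.1).mono fun x e => ⟨by simpa using ne x e.1,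
      k1 x (mul_one x ▸ a2 j x e.1 e.2 1 (a1 _))⟩)
  obtain ⟨a, k1, k2⟩ := ((mem_closure_iff_frequently.1 k.self_of_nhds).and_eventually
    k.eventually_nhds).exists
  obtain ⟨j, -, l, k3⟩ := a5 0 a k1
  obtain ⟨u, g1, g2, g3⟩ := (h2.acc.and_eventually ((ev_tr.1 k2).and (hU l.suc).1.1)).exists
  have e : u ≠ 1 := fun e => h2.one (e ▸ g1)
  obtain ⟨v, g4, g5, g6⟩ := ((fr_tr.1 (mem_closure_iff_frequently.1 g2)).and_eventually
    (Eventually.and (hU l.suc).1.1 (hU (ix u).suc.suc.suc).1.1)).exists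
  rcases a3 _ _ (k3 _ (mu l.lt_suc l.lt_suc g3 g5) (mul_assoc a u v ▸ g4)) with k7 | ⟨x, e1, c, k7, k8⟩
  · rw [mul_eq_one_iff_eq_inv] at k7
    exact (nu u e _ ((congrArg _ k7).mpr (iv g6))).not_gt ((ix u).lt_suc.trans ((l1 _).trans (l1 _)))
  have k9 := a4 _ _ k7 _ (l1 _)
  refine hd x e1 ?_
  rcases le_or_gt (ix x) (ix u) with e2 | e2
  · rw [← is x (ne x e1) u (Or.inr g1) ?_]
    · exact g1
    · rw [show x⁻¹ * u = c * v⁻¹ by rw [eq_mul_inv_iff_mul_eq, mul_assoc, k8]; simp]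
      exact mu ((l1 _).trans (l1 _)) ((NN.lt_suc_iff.2 (NN.suc_le_suc.2 e2)).trans (l1 _)) k9 (iv g6)
  · rw [is u e x (Or.inl e1) ?_]
    · exact g1
    · rw [show u⁻¹ * x = v * c⁻¹ by rw [eq_mul_inv_iff_mul_eq, mul_assoc, ← k8]; simp]
      exact mu ((l1 _).trans (l1 _)) ((NN.lt_suc_iff.2 (NN.suc_le_suc.2 e2.le)).trans (l1 _)) g6 (iv k9)

end Pool.Agent.P.MP_39acbb_lc.Gr
end

-- part Pool.Agent.P.MP_39acbb_lc.Mi.B3
section

set_option autoImplicit false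
set_option linter.unusedSectionVars false
set_option synthInstance.maxSize 4000

/-! Boolean groups, countable groups, groups with a countable set that is not closed. -/

open Filter Function Topology Pool.Agent.P.MP_af1204_lc.Inn

namespace Pool.Agent.P.MP_39acbb_lc.Gr

variable [Md] {G : Type} [MT G] [Group G] [GD G] {ix : G → NN} [DD ix]

theorem ex_char (hi : Injective ix) (hb : ∀ x : G, x * x = 1) {g : G} (hg : g ≠ 1) :
    ∃ W : PS G, (∀ a ∈ W, ∀ b ∈ W, a⁻¹ * b ∉ W) ∧ ∀ x, x ∈ W ∨ g⁻¹ * x ∈ W := by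
  have iv : ∀ x : G, x⁻¹ = x := fun x => inv_eq_of_mul_eq_one_right (hb x)
  have co : ∀ x y : G, x * y = y * x := fun x y => by rw [← iv (x * y), mul_inv_rev, iv, iv]
  let _ : CommGroup G := { mul_comm := co }
  obtain ⟨K, -, hK⟩ := seq_rec (fun K : PS G => 1 ∈ K ∧ g ∉ K ∧ ∀ a ∈ K, ∀ b ∈ K, a * b ∈ K)
    (fun n K L => K ⊆ L ∧ ∀ x, ix x = n → x ∈ L ∨ g * x ∈ L) {1}
    ⟨rfl, hg, fun a (h : a = 1) b (h' : b = 1) => (by rw [h, h', mul_one] : a * b = 1)⟩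
    fun n K ⟨k1, k2, k3⟩ => by
      by_cases e : ∃ x, ix x = n ∧ g * x ∉ K
      · obtain ⟨x, rfl, e⟩ := e
        refine ⟨sb fun a => a ∈ K ∨ x * a ∈ K, ⟨Or.inl k1, fun k => k.elim k2 fun k => e (co x g ▸ k),
          ?_⟩, fun _ => Or.inl, fun y e' => Or.inl (Or.inr (by rwa [hi e', hb]))⟩
        rintro a (h | h) b (h' | h')
        · exact Or.inl (k3 a h b h')
        · exact Or.inr (mul_left_comm a x b ▸ k3 a h _ h')
        · exact Or.inr (mul_assoc x a b ▸ k3 _ h b h')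
        · exact Or.inl (by simpa only [mul_mul_mul_comm x a, hb, one_mul] using k3 _ h _ h')
      · exact ⟨K, ⟨k1, k2, k3⟩, fun _ => id, fun x e' => Or.inr (not_not.1 fun k => e ⟨x, e', k⟩)⟩
  have mo : Monotone K := fun m n => NN.ind (P := fun n => m ≤ n → K m ⊆ K n) n
    (fun e => le_antisymm e (NN.zero_le m) ▸ le_rfl) fun n ih e => e.eq_or_lt.elim
      (fun e => e ▸ le_rfl) fun e => (ih (NN.lt_suc_iff.1 e)).trans (hK n).2.1
  have mu : ∀ a ∈ iU K, ∀ b ∈ iU K, a * b ∈ iU K := fun a ⟨m, h⟩ b ⟨n, h'⟩ =>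
    ⟨max m n, (hK _).1.2.2 a (mo (le_max_left m n) h) b (mo (le_max_right m n) h')⟩
  have al : ∀ x, x ∉ iU K → g * x ∈ iU K := fun x h =>
    ⟨_, ((hK _).2.2 x rfl).resolve_left fun k => h ⟨_, k⟩⟩
  refine ⟨(iU K)ᶜ, fun a h b h' k => k ?_, fun x => by_contra fun k => ?_⟩
  · simpa only [mul_mul_mul_comm g a, hb, one_mul, iv] using mu _ (al a h) _ (al b h')
  · simp only [not_or, mem_compl_iff, not_not] at k
    obtain ⟨n, h⟩ := mu _ k.2 _ k.1
    rw [mul_assoc, hb, mul_one, iv] at h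
    exact (hK n).1.2.1 h

variable [TopologicalSpace G] [IsTopologicalGroup G] [T2Space G] [DF1 (𝓝 (1 : G))]

theorem fin_ev (hi : Injective ix) (y : G) (N : NN) : ∀ᶠ z in 𝓝 y, ix z < N → z = y := by
  refine ev_tr.2 (NN.ind (P := fun N => ∀ᶠ v in 𝓝 1, ix (y * v) < N → y * v = y) N
    (Eventually.of_forall fun _ k => (NN.not_lt_zero _ k).elim) fun n ih => ?_)
  by_cases e : ∃ x ≠ y, ix x = n
  · obtain ⟨x, e, rfl⟩ := e
    filter_upwards [ih, ev_tr.1 (eventually_ne_nhds e.symm)] with v a b k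
    exact a ((NN.lt_suc_iff.1 k).lt_of_ne fun e' => b (hi e'))
  · exact ih.mono fun v a k => by_contra fun b =>
      (NN.lt_suc_iff.1 k).eq_or_lt.elim (fun e' => e ⟨_, b, e'⟩) fun e' => b (a e')

instance (A : PS G) : DF1 (𝓝 1 ⊓ 𝓟 A.s) :=
  let ⟨B, h⟩ := DF1.out (F := 𝓝 (1 : G))
  ⟨image (· ∩ A) B, fun _ => mem_inf_principal.trans ((h _).trans
    ⟨fun ⟨C, a, b⟩ => ⟨_, ⟨C, a, rfl⟩, fun _ k => b k.1 k.2⟩,
      fun ⟨_, ⟨C, a, e⟩, b⟩ => ⟨C, a, fun _ k k' => b (e ▸ ⟨k, k'⟩)⟩⟩)⟩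

theorem ex_ds (h : NRt) (hi : Injective ix) (W : NN → PS G) [DD W]
    (hW : ∀ n, ∀ a ∈ W n, ∀ b ∈ W n, a⁻¹ * b ∉ W n) (Z A : PS G) (h0 : 1 ∉ A)
    (h1 : ∃ᶠ x in 𝓝 1, x ∈ A) (h2 : 1 ∈ Z) (hZ : ∀ g ∈ A, ∃ N, ∀ x ∈ A, N ≤ ix x → g⁻¹ * x ∉ Z) :
    ∃ ξ : PS G, Ds ξ ∧ (∀ x ∈ ξ, x ∉ Z) ∧ ∀ n, ∃ N, ∀ x ∈ ξ, x ∈ W n → ix x < N := by
  have : (𝓝 1 ⊓ 𝓟 A.s).NeBot := frequently_mem_iff_neBot.1 h1
  obtain ⟨κ, hκ⟩ := ex_pair
  obtain ⟨V, hV⟩ := chs (R := fun (n : NN) (V : PS G) => (∀ a ∈ V, ∀ b ∈ V, a⁻¹ * b ∉ V) ∧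
      ∀ y : G, y ≠ 1 → ix y = n → ∀ᶠ v in nhds (X := G) 1, y * v ∈ V) fun n => by
    by_cases e : ∃ y ≠ 1, ix y = n
    · obtain ⟨y, e, rfl⟩ := e
      obtain ⟨U, u1, u2, u3⟩ := ex_sym (eventually_ne_nhds e.symm)
      obtain ⟨U', v1, v2, v3⟩ := ex_sym u1
      refine ⟨sb fun a => y⁻¹ * a ∈ U', fun a k b k' k'' => ?_, fun z _ e' => hi e' ▸ ?_⟩
      · refine u3 _ (v3 _ (v2 _ k) _ k') _ (v3 _ (v2 _ k'') 1 (mem_of_mem_nhds v1)) ?_
        simp [mul_assoc]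
      · exact mem_of_superset v1 fun v k => by simpa using k
    · exact ⟨∅, fun _ k => k.elim, fun y a b => (e ⟨y, a, b⟩).elim⟩
  obtain ⟨ξ, k1, k2, k3⟩ := rs h hi (𝓝 1 ⊓ 𝓟 A.s) (tendsto_atTop.2 fun N =>
    eventually_inf_principal.2 ((fin_ev hi 1 N).mono fun x a b => not_lt.1 fun e => h0 (a e ▸ b)))
    (fun l => sb fun x => ∃ n, l = κ (n, 0) ∧ x ∈ W n ∨ l = κ (n, NN.suc 0) ∧ x ∈ V n) (by
      rintro l a ⟨n, a1 | a1⟩ b ⟨m, b1 | b1⟩ ⟨k, c1 | c1⟩ <;>
        have e1 := Prod.ext_iff.1 (hκ (a1.1.symm.trans b1.1)) <;>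
        have e2 := Prod.ext_iff.1 (hκ (a1.1.symm.trans c1.1)) <;>
        simp only [NN.zero_ne_suc, NN.suc_ne_zero, and_false, and_true] at e1 e2
      · exact hW n a a1.2 b (e1 ▸ b1.2) (e2 ▸ c1.2)
      · exact (hV n).1 a a1.2 b (e1 ▸ b1.2) (e2 ▸ c1.2)) Z A (mem_inf_of_right (mem_principal_self _)) hZ
  refine ⟨ξ, ⟨fun k => k1 1 k h2, frequently_iff.2 fun {U} hU => ?_, fun y e => ?_⟩, k1,
    fun n => (k2 (κ (n, 0))).imp fun N k x a b => k x a ⟨n, Or.inl ⟨rfl, b⟩⟩⟩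
  · obtain ⟨U', u1, u2, u3⟩ := ex_sym hU
    obtain ⟨a, a1, b, b1, k⟩ := k3 _ (mem_inf_of_left u1)
    exact ⟨_, u3 _ (u2 a a1) b b1, k⟩
  · obtain ⟨N, k⟩ := k2 (κ (ix y, NN.suc 0))
    filter_upwards [fin_ev hi y N, (ev_tr (p := (· ∈ V (ix y)))).2 ((hV _).2 y e rfl)] with z a b c
    exact a (k z c ⟨_, Or.inr ⟨rfl, b⟩⟩)

theorem far (g : G) : ∃ N, ∀ x, N ≤ ix x → g⁻¹ * x ≠ 1 :=
  ⟨(ix g).suc, fun _ k e => (NN.suc_le_iff.1 k).ne (congrArg ix (inv_mul_eq_one.1 e))⟩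

theorem boolean (h : NRt) (hi : Injective ix) (hb : ∀ x : G, x * x = 1)
    (h1 : ∃ᶠ x in 𝓝 (1 : G), x ≠ 1) : Concl G := by
  obtain ⟨W, hW⟩ := chs (R := fun (n : NN) (W : PS G) => (∀ a ∈ W, ∀ b ∈ W, a⁻¹ * b ∉ W) ∧
      ∀ g ≠ 1, ix g = n → ∀ x, x ∈ W ∨ g⁻¹ * x ∈ W) fun n => by
    by_cases e : ∃ y ≠ 1, ix y = n
    · obtain ⟨y, e, rfl⟩ := e
      exact (ex_char hi hb e).imp fun W k => ⟨k.1, fun z _ e' => hi e' ▸ k.2⟩
    · exact ⟨∅, fun _ k => k.elim, fun y a b => (e ⟨y, a, b⟩).elim⟩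
  obtain ⟨ξ, k1, -, k2⟩ := ex_ds h hi W (fun n => (hW n).1) {1} {1}ᶜ (fun k => k rfl) h1 rfl
    fun g _ => (far g).imp fun N k x _ => k x
  obtain ⟨ζ, k3, k4, -⟩ := ex_ds h hi (fun _ => ∅) (fun _ _ k => k.elim) (insert 1 ξ) ξ k1.one
    k1.acc (Or.inl rfl) fun g e => by
      obtain ⟨N, k⟩ := k2 (ix g)
      obtain ⟨M, k'⟩ := bdd ix hi (fun x b => ix (g * x) < b) (fun _ _ _ e h => h.trans_le e)
        (fun _ => ⟨_, NN.lt_suc _⟩) N
      obtain ⟨L, k''⟩ := far (ix := ix) g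
      refine ⟨max L (max N M), fun x a b c => c.elim (k'' x (le_of_max_le_left b)) fun c => ?_⟩
      have := max_le_iff.1 (le_of_max_le_right b)
      rcases (hW _).2 g (fun e' => k1.one (e' ▸ e)) rfl x with d | d
      · exact this.1.not_gt (k x a d)
      · exact this.2.not_gt (by simpa using k' _ (k _ c d))
  exact tree hi k3 k1 fun x k e => k4 x k (Or.inr e)

instance (H : Subgroup G) [DP (· ∈ H)] : GD H :=
  ⟨⟨(inferInstance : DD fun p : Cx fun _ : H => H => p.1.1 * p.2.1).of_enc fun _ => rfl⟩,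
    (inferInstance : DD fun a : H => a.1⁻¹).of_enc fun _ => rfl⟩

instance (H : Subgroup G) [DP (· ∈ H)] : DF1 (𝓝 (1 : H)) :=
  let ⟨B, h⟩ := DF1.out (F := 𝓝 (1 : G))
  ⟨image (preimage Subtype.val) B, fun _ => (mem_nhds_subtype _ _ _).trans
    ⟨fun ⟨_, a, b⟩ => let ⟨C, c, d⟩ := (h _).1 a; ⟨_, ⟨C, c, rfl⟩, fun _ k => b (d k)⟩,
      fun ⟨_, ⟨C, a, e⟩, b⟩ => ⟨C.s, (h _).2 ⟨C, a, fun _ => id⟩, fun _ k => b (e ▸ k)⟩⟩⟩

theorem Concl.sub (H : Subgroup G) [DP (· ∈ H)] (h : Concl H) : Concl G := by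
  obtain ⟨A, ⟨a, a1⟩, a2, a3⟩ := h
  refine ⟨image Subtype.val A, ⟨_, a, a1, rfl⟩, ?_, fun y k => ?_⟩
  · rintro _ ⟨a, k, rfl⟩
    exact (continuous_subtype_val.tendsto a).frequently ((a2 a k).mono fun z e =>
      ⟨fun e' => e.1 (Subtype.ext e'), z, e.2, rfl⟩)
  · obtain ⟨_, ⟨a, -, rfl⟩, k2⟩ := ((mem_closure_iff_frequently.1 k.self_of_nhds).and_eventually
      k.eventually_nhds).exists
    exact a3 a (((continuous_subtype_val.tendsto a).eventually k2).mono fun z e =>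
      closure_subtype.2 e)

theorem fixed (hi : Injective ix) (hc : ¬Concl G) {ξ : PS G} (h : Ds ξ) (f : G → G) [DD f]
    (h1 : Continuous f) (h2 : f 1 = 1) (h3 : ∀ x, f (f x) = x) : ∀ᶠ x in 𝓝 1, x ∈ ξ → f x = x := by
  have inj : Injective f := LeftInverse.injective h3
  have key : ∀ (P : G → Prop) [DP P], (∀ x, P x → ¬P (f x)) → ∀ᶠ x in 𝓝 1, ¬(x ∈ ξ ∧ P x) :=
    fun P _ hP => by_contra fun k => hc (tree hi (ξ := sb fun x => x ∈ ξ ∧ P x)
      (η := sb fun x => f x ∈ ξ ∧ P (f x)) ⟨fun e => h.one e.1, k, fun y e =>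
        (h.cd y e).mono fun _ a b => a b.1⟩ ⟨fun e => h.one (h2 ▸ e.1),
          (h1.tendsto' 1 1 h2).frequently (Frequently.mono k fun x e => by simpa [h3] using e),
          fun y e => ((h1.tendsto y).eventually (h.cd _ fun e' => e (inj (e'.trans h2.symm)))).mono
            fun _ a b => inj (a b.1)⟩ fun x a b => hP x a.2 b.2)
  filter_upwards [key (fun x => ix x < ix (f x)) fun x a b => lt_asymm a (by rwa [h3] at b),
    key (fun x => ix (f x) < ix x) fun x a b => lt_asymm a (by rwa [h3] at b)] with x a b c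
  exact hi (le_antisymm (not_lt.1 fun e => a ⟨c, e⟩) (not_lt.1 fun e => b ⟨c, e⟩))

theorem opn (hc : ¬Concl G) (P : G → Prop) [DP P] (h1 : P 1) (h2 : IsClosed {x | P x})
    (h3 : ∀ a, P a → ∃ᶠ x in 𝓝 1, x ≠ 1 ∧ P (a * x)) : ∃ y, ∀ᶠ v in 𝓝 1, P (y * v) :=
  by_contra fun k => hc ⟨sb P, ⟨1, h1⟩, fun a e => fr_tr.2 ((h3 a e).mono fun x e =>
    ⟨by simpa using e.1, e.2⟩), fun y e => k ⟨y, ev_tr.1 (e.mono fun _ k => h2.closure_subset k)⟩⟩

theorem countable (h : NRt) (hi : Injective ix) (h1 : ∃ᶠ x in 𝓝 (1 : G), x ≠ 1) : Concl G := by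
  by_contra hc
  obtain ⟨ξ, k1, -, -⟩ := ex_ds h hi (fun _ => ∅) (fun _ _ k => k.elim) {1} {1}ᶜ (fun k => k rfl) h1
    rfl fun g _ => (far g).imp fun N k x _ => k x
  have a1 := fixed hi hc k1 (fun x => x⁻¹) continuous_inv inv_one inv_inv
  have a2 : ∀ y : G, y * y = 1 → ∃ᶠ x in 𝓝 1, x ≠ 1 ∧ x * x = 1 ∧ y * x = x * y := fun y e =>
    (k1.acc.and_eventually (a1.and (fixed hi hc k1 (fun x => y * x * y) (by fun_prop) (by simpa using e)
      fun x => by simp only [← mul_assoc, e, one_mul]; rw [mul_assoc, e, mul_one]))).mono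
      fun x k => ⟨fun e => k1.one (e ▸ k.1), inv_eq_iff_mul_eq_one.1 (k.2.1 k.1), by
        simpa only [mul_assoc, e, mul_one] using congrArg (· * y) (k.2.2 k.1)⟩
  obtain ⟨y, a3⟩ := opn hc (fun x => x * x = 1) (mul_one 1) (isClosed_eq (by fun_prop) (by fun_prop))
    fun a e => (a2 a e).mono fun x k => ⟨k.1, by
      rw [mul_assoc, ← mul_assoc x, ← k.2.2, mul_assoc, k.2.1, mul_one, e]⟩
  have a4 : y * y = 1 := by simpa using a3.self_of_nhds
  obtain ⟨z, a5⟩ := opn hc (fun x => y * x = x * y) (by simp)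
    (isClosed_eq (by fun_prop) (by fun_prop)) fun a e => (a2 y a4).mono fun x k => ⟨k.1, by
      rw [← mul_assoc, e, mul_assoc, k.2.2, mul_assoc]⟩
  have a6 : y * z = z * y := by simpa using a5.self_of_nhds
  obtain ⟨B, b1, b2, b3⟩ := ex_sym (V := {v : G | v * v = 1}) ((a3.and a5).mono fun v k => by
    have e : y * v = v * y := mul_left_cancel (a := z) (by
      rw [← mul_assoc, ← a6, mul_assoc, k.2, mul_assoc])
    have := k.1
    rwa [mul_assoc, ← mul_assoc v, ← e, ← mul_assoc, ← mul_assoc, a4, one_mul] at this)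
  have b4 : ∀ a ∈ B, a * a = 1 := fun a k => by simpa using b3 a k 1 (mem_of_mem_nhds b1)
  let H : Subgroup G :=
    { carrier := {a | a * a = 1 ∧ (∀ b ∈ B, a * b = b * a) ∧
        ∀ c, (∀ b ∈ B, c * b = b * c) → a * c = c * a}
      mul_mem' := fun {a c} k k' => ⟨by
        rw [mul_assoc, ← mul_assoc c, ← k.2.2 c k'.2.1, mul_assoc, k'.1, mul_one, k.1],
        fun b e => by rw [mul_assoc, k'.2.1 b e, ← mul_assoc, k.2.1 b e, mul_assoc],
        fun b e => by rw [mul_assoc, k'.2.2 b e, ← mul_assoc, k.2.2 b e, mul_assoc]⟩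
      one_mem' := by simp
      inv_mem' := fun {a} k => (inv_eq_of_mul_eq_one_right k.1).symm ▸ k }
  have : DP (· ∈ H) := (inferInstance : DP fun a => a * a = 1 ∧ (∀ b ∈ B, a * b = b * a) ∧
    ∀ c, (∀ b ∈ B, c * b = b * c) → a * c = c * a)
  have b5 : ∀ a ∈ B, a ∈ H := fun a k => ⟨b4 a k, fun b k' => by
    rw [← inv_eq_of_mul_eq_one_right (b3 a k b k'), mul_inv_rev,
      inv_eq_of_mul_eq_one_right (b4 a k), inv_eq_of_mul_eq_one_right (b4 b k')],
    fun c e => (e a k).symm⟩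
  refine hc (Concl.sub H (boolean (ix := fun x => ix x.1) h (fun _ _ e => Subtype.ext (hi e))
    (fun x => Subtype.ext x.2.1) ?_))
  rw [nhds_subtype, frequently_comap]
  exact (h1.and_eventually b1).mono fun x k => ⟨⟨x, b5 x k.2⟩, rfl, fun e => k.1 (congrArg Subtype.val e)⟩

theorem general (h : NRt) (C : PS G) (hC : cd C ≤ Cd.aleph0) (p : G)
    (hp : ∃ᶠ z in 𝓝 p, z ≠ p ∧ z ∈ C) : Concl G := by
  obtain ⟨K, k0, hK⟩ := seq_rec (fun K : PS G => 1 ∈ K ∧ cd K ≤ Cd.aleph0)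
    (fun _ K L => ∀ a ∈ K, ∀ b ∈ K, a * b⁻¹ ∈ L) (insert 1 (image (p⁻¹ * ·) C))
    ⟨Or.inl rfl, Cd.mk_insert_le.trans (Cd.add_le_of_le le_rfl (Cd.mk_image_le.trans hC)
      Cd.one_le_aleph0)⟩ fun _ K k => ⟨image (fun q => q.1 * q.2⁻¹) (K ×ˢ K),
        ⟨⟨(1, 1), ⟨k.1, k.1⟩, by simp⟩, Cd.mk_image_le.trans ((Cd.mk_setProd _ _).trans_le
          (Cd.mul_le_of_le le_rfl k.2 k.2))⟩, fun a e b e' => ⟨(a, b), ⟨e, e'⟩, rfl⟩⟩
  have mo : Monotone K := fun m n => NN.ind (P := fun n => m ≤ n → K m ⊆ K n) n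
    (fun e => le_antisymm e (NN.zero_le m) ▸ le_rfl) fun n ih e => e.eq_or_lt.elim
      (fun e => e ▸ le_rfl) fun e => (ih (NN.lt_suc_iff.1 e)).trans fun a k => by
        simpa using (hK n).2 a k 1 (hK n).1.1
  let H := Subgroup.ofDiv (iU K).s ⟨1, 0, (hK 0).1.1⟩ fun a ⟨m, k⟩ b ⟨n, k'⟩ =>
    ⟨_, (hK (max m n)).2 a (mo (le_max_left m n) k) b (mo (le_max_right m n) k')⟩
  have : DP (· ∈ H) := (iU K).dp
  obtain ⟨f, hf⟩ := (Cd.le_def H NN).1 ((Cd.mk_iUnion_le K).trans ((Cd.mul_le_of_le le_rfl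
    Cd.mk_nat.le (Cd.sup_le fun n => (hK n).1.2)).trans Cd.mk_nat.ge))
  refine Concl.sub H (countable h hf ?_)
  rw [nhds_subtype, frequently_comap]
  exact (fr_tr.1 hp).mono fun x k => ⟨⟨x, 0, k0 ▸ Or.inr ⟨_, k.2, by simp⟩⟩, rfl,
    fun e => k.1 (by simpa using congrArg Subtype.val e)⟩

end Pool.Agent.P.MP_39acbb_lc.Gr
end

-- part Pool.Agent.P.MP_39acbb_lc.Mi.B4
section

set_option autoImplicit false
set_option linter.unusedSectionVars false
set_option synthInstance.maxSize 4000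

/-! The statement in the model. -/

open Filter Function Topology Pool.Agent.P.MP_af1204_lc.Inn Pool.Agent.Lib.PosetForcing
open Pool.Agent.P.MP_5f3b23_lc.Zf (mm op op_inj om app_iff isPair_iff isFun_iff leCard_iff
  isOmega_iff mem_pow Zm UD)
open Pool.Agent.P.MP_39acbb_lc.Mi (NR nr)

namespace Pool.Agent.P.MP_39acbb_lc.Gr

section
variable [Md] {X Y : Type} [MT X] [MT Y]

theorem app_code {f : Fn X Y} {x y : MM} :
    App mm f.code x y ↔ ∃ a, enc a = x ∧ enc (f a) = y :=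
  app_iff.trans (Fn.mem_code.trans (exists_congr fun _ => ⟨op_inj, fun h => by rw [h.1, h.2]⟩))

theorem fun_code {m : MM} : IsFun mm m (car X) (car Y) ↔ ∃ f : Fn X Y, f.code = m :=
  isFun_iff.trans (fn_car m)

theorem ex_ps {a V : MM} (h : IsSub mm V a) : ∃ A : PS (El a), A.code = V :=
  (ps_car V).1 (mem_pow.2 ((car_El a).symm ▸ h))

theorem nrt (h : NR (mm (M := MM))) : NRt := by
  intro u hu
  obtain ⟨m, h1, h2⟩ := h om u.code (isOmega_iff.2 rfl) fun a b n ha hb hn => by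
    obtain ⟨A, a1, rfl⟩ := PS.mem_code.1 ha
    obtain ⟨B, b1, rfl⟩ := PS.mem_code.1 hb
    obtain ⟨k, k1, k2, k3⟩ := hu A a1 B b1 (El.mk n hn)
    exact ⟨k.v, PS.enc_mem_code.2 k1, PS.enc_mem_code.2 k2, k3⟩
  have fc : ∀ {m : MM}, IsFun mm m om om ↔ ∃ f : Fn NN NN, f.code = m := by
    simpa only [car_El] using @fun_code _ NN NN _ _
  obtain ⟨m, rfl⟩ := fc.1 h1
  refine ⟨m, fun e r k1 k2 k3 => h2 e.code r.code (fc.2 ⟨e, rfl⟩) ?_ (fun k hk => ?_)
    (PS.enc_mem_code.2 k3)⟩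
  · intro j j' y y' a b c
    obtain ⟨j', rfl, rfl⟩ := app_code.1 a
    obtain ⟨j, rfl, rfl⟩ := app_code.1 b
    exact (k1 j j' (c.elim (fun e => (El.ext e).le) fun e => le_of_lt e)).eq_or_lt.imp (congrArg El.v) id
  · obtain ⟨k, a, rfl⟩ := PS.mem_code.1 hk
    obtain ⟨j, rfl⟩ := k2 k a
    exact ⟨_, app_code.2 ⟨j, rfl, rfl⟩⟩

theorem stmt (h : NRt) : CountableCase (mm (M := MM)) := by
  rintro w g m e T hw ⟨⟨P, p1, p2⟩, g1, g2, g3⟩ ⟨t1, t2, t3, -⟩ hH hC ⟨C, p, c1, c2, c3, c4⟩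
  obtain rfl := isOmega_iff.1 hw
  obtain rfl : P = car (El g × El g) := zext fun p => (p1 p).trans (Iff.trans
    ⟨fun ⟨x, y, a, b, c⟩ => ⟨(⟨x, a⟩, ⟨y, b⟩), (isPair_iff.1 c).symm⟩,
      fun ⟨q, c⟩ => ⟨_, _, q.1.2, q.2.2, isPair_iff.2 c.symm⟩⟩ mem_car.symm)
  obtain ⟨f, rfl⟩ := (fun_code (X := El g × El g) (Y := El g)).1 (by rwa [car_El])
  have o1 : ∀ {x y z}, Op mm f.code x y z ↔ ∃ a b : El g, a.v = x ∧ b.v = y ∧ (f (a, b)).v = z :=
    ⟨fun ⟨_, a, b⟩ => let ⟨q, c, d⟩ := app_code.1 b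
      ⟨q.1, q.2, (op_inj (c.trans (isPair_iff.1 a))).1, (op_inj (c.trans (isPair_iff.1 a))).2, d⟩,
      fun ⟨a, b, c, d, k⟩ => ⟨_, isPair_iff.2 rfl, app_code.2 ⟨(a, b), c ▸ d ▸ rfl, k⟩⟩⟩
  have o2 : ∀ {a b c : El g}, Op mm f.code a.v b.v c.v ↔ f (a, b) = c :=
    o1.trans ⟨fun ⟨_, _, a, b, c⟩ => El.ext a ▸ El.ext b ▸ El.ext c, fun k => ⟨_, _, rfl, rfl, k ▸ rfl⟩⟩
  obtain ⟨i, hi⟩ := chs (R := fun a b : El g => f (b, a) = El.mk e g2) fun a =>
    let ⟨y, a, b, _⟩ := (g3 _ a.mem).2.2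
    ⟨El.mk y a, o2.1 b⟩
  let _ : Mul (El g) := ⟨fun a b => f (a, b)⟩
  let _ : One (El g) := ⟨El.mk e g2⟩
  let _ : Inv (El g) := ⟨i⟩
  let _ : Group (El g) := Group.ofLeftAxioms
    (fun a b c => (o2.1 (g1 _ _ _ _ _ _ (o2.2 rfl) (o2.2 rfl) (o2.2 rfl))).symm)
    (fun a => o2.1 (g3 _ a.mem).1) hi
  have : GD (El g) := ⟨⟨(inferInstance : DD fun p : Cx fun _ : El g => El g => f (p.1, p.2))⟩, i.dd⟩
  have cd : ∀ {V : PS (El g)} {a : El g}, a.v ∈ V.code ↔ a ∈ V := PS.enc_mem_code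
  let _ : TopologicalSpace (El g) :=
    { IsOpen := fun U => ∀ x ∈ U, ∃ V : PS (El g), V.code ∈ T ∧ x ∈ V ∧ V.s ⊆ U
      isOpen_univ := fun x _ => let ⟨V, k⟩ := ex_ps (t1 g t2)
        ⟨V, by rw [k]; exact t2, cd.1 (by rw [k]; exact x.mem), fun _ _ => trivial⟩
      isOpen_inter := fun s t a b x k =>
        let ⟨V, v1, v2, v3⟩ := a x k.1
        let ⟨W, w1, w2, w3⟩ := b x k.2
        ⟨V ∩ W, t3 _ _ _ v1 w1 fun y => PS.mem_code.trans ⟨fun ⟨_, a, b⟩ => b ▸ ⟨cd.2 a.1, cd.2 a.2⟩,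
          fun ⟨a, b⟩ => let ⟨z, c, d⟩ := PS.mem_code.1 a; ⟨z, ⟨c, cd.1 (by subst d; exact b)⟩, d⟩⟩,
          ⟨v2, w2⟩, fun _ k => ⟨v3 k.1, w3 k.2⟩⟩
      isOpen_sUnion := fun s a x ⟨t, b, k⟩ =>
        let ⟨V, v1, v2, v3⟩ := a t b x k
        ⟨V, v1, v2, fun _ k => ⟨t, b, v3 k⟩⟩ }
  have op : ∀ {V : PS (El g)}, V.code ∈ T → IsOpen V.s := fun k _ a => ⟨_, k, a, fun _ => id⟩
  have nh : ∀ {x : El g} {Z}, Z ∈ 𝓝 x ↔ ∃ V : PS (El g), V.code ∈ T ∧ x ∈ V ∧ V.s ⊆ Z :=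
    ⟨fun k => let ⟨_, a, b, c⟩ := mem_nhds_iff.1 k; let ⟨V, d, e, e'⟩ := b _ c; ⟨V, d, e, e'.trans a⟩,
      fun ⟨_, a, b, c⟩ => mem_of_superset ((op a).mem_nhds b) c⟩
  have : DF1 (𝓝 (1 : El g)) := ⟨sb fun V => enc V ∈ T ∧ 1 ∈ V, fun _ => nh.trans
    ⟨fun ⟨V, a, b, c⟩ => ⟨V, ⟨a, b⟩, c⟩, fun ⟨V, a, c⟩ => ⟨V, a.1, a.2, c⟩⟩⟩
  have : T2Space (El g) := ⟨fun x y k => by
    obtain ⟨V, W, a, b, c, d, k'⟩ := hH _ x.mem _ y.mem fun e => k (El.ext e)
    obtain ⟨V, rfl⟩ := ex_ps (t1 V a)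
    obtain ⟨W, rfl⟩ := ex_ps (t1 W b)
    exact ⟨_, _, op a, op b, cd.1 c, cd.1 d, Set.disjoint_left.2 fun z a b => k' _ (cd.2 a) (cd.2 b)⟩⟩
  have dv : Continuous fun q : El g × El g => q.1 * q.2⁻¹ :=
    continuous_iff_continuousAt.2 fun q Z k => by
      obtain ⟨W, a, b, c⟩ := nh.1 k
      obtain ⟨U, V, u, v, u', v', k'⟩ := hC _ _ _ _ (o2.2 (inv_mul_cancel_right q.1 q.2)) a (cd.2 b)
      obtain ⟨U, rfl⟩ := ex_ps (t1 U u)
      obtain ⟨V, rfl⟩ := ex_ps (t1 V v)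
      exact mem_map.2 (mem_of_superset (prod_mem_nhds ((op u).mem_nhds (cd.1 u'))
        ((op v).mem_nhds (cd.1 v'))) fun r s => c (cd.1 (k' _ _ _ (cd.2 s.1) (cd.2 s.2)
          (o2.2 (inv_mul_cancel_right r.1 r.2)))))
  have iv : Continuous fun a : El g => a⁻¹ := by
    simpa only [comp_def, one_mul] using dv.comp (Continuous.prodMk_right 1)
  have : IsTopologicalGroup (El g) :=
    { continuous_inv := iv
      continuous_mul := by
        simpa only [comp_def, inv_inv] using dv.comp (continuous_fst.prodMk (iv.comp continuous_snd)) }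
  have ac : ∀ {A : PS (El g)} {a : El g}, Accum mm T A.code a.v ↔ ∃ᶠ z in 𝓝 a, z ≠ a ∧ z ∈ A :=
    ⟨fun k => frequently_iff.2 fun hZ => by
      obtain ⟨V, a, b, c⟩ := nh.1 hZ
      obtain ⟨_, d, d', e⟩ := k _ a (cd.2 b)
      obtain ⟨z, -, rfl⟩ := PS.mem_code.1 d
      exact ⟨z, c (cd.1 d'), fun e' => e (congrArg El.v e'), cd.1 d⟩, fun k V a b => by
      obtain ⟨V, rfl⟩ := ex_ps (t1 V a)
      obtain ⟨z, c, d, e⟩ := frequently_iff.1 k ((op a).mem_nhds (cd.1 b))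
      exact ⟨_, cd.2 e, cd.2 c, fun e' => d (El.ext e')⟩⟩
  obtain ⟨C, rfl⟩ := ex_ps c1
  obtain ⟨A, ⟨a, a1⟩, a2, a3⟩ := general h C (Cd.mk_nat ▸ Cd.mk_le_iff.2 (by
    rw [car_El, show car C = C.code from zext fun _ => mem_car.trans (Iff.trans
      ⟨fun ⟨t, e⟩ => ⟨t.1, t.2, e⟩, fun ⟨t, k, e⟩ => ⟨⟨t, k⟩, e⟩⟩ PS.mem_code.symm)]
    exact leCard_iff.1 c2)) (El.mk p c3) (ac.1 c4)
  refine ⟨A.code, fun x k => ?_, ⟨_, cd.2 a1⟩, fun V y v k => ?_, fun x k => ?_⟩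
  · obtain ⟨z, -, rfl⟩ := PS.mem_code.1 k
    exact z.mem
  · obtain ⟨V, rfl⟩ := ex_ps (t1 V v)
    obtain ⟨y, k', rfl⟩ := PS.mem_code.1 k
    obtain ⟨x, b, c⟩ := frequently_iff.1 (not_eventually.1 (a3 y)) ((op v).mem_nhds k')
    obtain ⟨W, w1, w2, w3⟩ := nh.1 (isClosed_closure.isOpen_compl.mem_nhds c)
    refine ⟨_, _, cd.2 b, w1, cd.2 w2, fun z k1 k2 => ?_⟩
    obtain ⟨z, k3, rfl⟩ := PS.mem_code.1 k1
    exact w3 (cd.1 k2) (subset_closure k3)
  · obtain ⟨z, k', rfl⟩ := PS.mem_code.1 k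
    exact ac.2 (a2 z k')

end

instance : UD.{2} fun _ mem _ => NR mem := by
  unfold NR; infer_instance

theorem consistent : ∃ (N : Type) (mem : N → N → Prop), IsZFC mem ∧ CountableCase mem := by
  obtain ⟨U, -⟩ := exists_gen (⊤ : Mi.Cd)
  obtain ⟨S, m', _, h1, h2, h3⟩ := MP_af1204_lc.Lk.ex_elem' _ (isZFC U) (omegaName.val U)
  obtain ⟨f, hf⟩ := h1.exists_injective_nat'
  let e := (Equiv.ofInjective f hf).symm
  have h4 := MP_af1204_lc.Lk.zfc_map m' e h2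
  let z : Zm (Set.range f) := { mem := fun a x => m' (e x) (e a), zfc := h4 }
  let md : Md := ⟨Set.range f⟩
  refine ⟨_, _, h4, @stmt md (@nrt md (show NR fun a b => m' (e a) (e b) from ?_))⟩
  simpa only [NR, IsFun, IsFunOn, App, IsPair, IsUPair, IsOmega, IsInductive, IsSucc,
    e.surjective.forall, e.surjective.exists, e.apply_eq_iff_eq]
    using h3 (fun _ mem _ => NR mem) (nr U)

end Pool.Agent.P.MP_39acbb_lc.Gr
end
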