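import Pool.Agent.K.MP_39acbb_lc.C0

-- part Pool.Agent.P.MP_39acbb_lc.InA
section

/-! Closure points, ladders, club guessing and splitting into stationary sets. -/

set_option autoImplicit false
set_option linter.deprecated false
set_option linter.unusedSectionVars false

namespace Pool.Agent.P.MP_39acbb_lc

open Cardinal Set

universe u

variable {T : Type u} [LinearOrder T]

/-- `δ` is a closure point of `F`. -/
def Cl (F : T → Set T) (δ : T) : Prop := ∀ γ < δ, F γ ⊆ Iio δ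

/-- `F` has small values. -/
def Sm (F : T → Set T) : Prop := ∀ γ, #(F γ) < #T

/-- `x` is an increasing sequence with limit `b`. -/
def Lad (x : ℕ → T) (b : T) : Prop := StrictMono x ∧ (∀ n, x n < b) ∧ ∀ γ < b, ∃ n, γ < x n

lemma Cl.mono {F F' : T → Set T} (h : ∀ γ, F γ ⊆ F' γ) {δ : T} (hδ : Cl F' δ) : Cl F δ :=
  fun γ hγ => (h γ).trans (hδ γ hγ)

lemma Lad.cl {F : T → Set T} {x : ℕ → T} {b : T} (h : Lad x b) (hx : ∀ n, Cl F (x n)) :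
    Cl F b := fun γ hγ y hy => by
  obtain ⟨n, hn⟩ := h.2.2 γ hγ
  exact lt_trans (hx n γ hn hy) (h.2.1 n)

lemma Lad.ev {x : ℕ → T} {b : T} (h : Lad x b) {γ : T} (hγ : γ < b) :
    ∀ᶠ n in Filter.atTop, γ < x n := by
  obtain ⟨n, hn⟩ := h.2.2 γ hγ
  exact Filter.eventually_atTop.2 ⟨n, fun m hm => hn.trans_le (h.1.monotone hm)⟩

lemma Lad.shift {x : ℕ → T} {b : T} (h : Lad x b) (k : ℕ) : Lad (fun n => x (n + k)) b :=
  ⟨fun _ _ hl => h.1 (by omega), fun _ => h.2.1 _, fun γ hγ => by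
    obtain ⟨n, hn⟩ := h.2.2 γ hγ
    exact ⟨n, hn.trans_le (h.1.monotone (by omega))⟩⟩

lemma sm_seq {κ : Cardinal.{u}} (hκ : κ.IsRegular) (hun : ℵ₀ < κ) {Y : Type u} {t : ℕ → Set Y}
    (ht : ∀ n, #(t n) < κ) : #(⋃ n, t n : Set Y) < κ := by
  have := sm_biUnion hκ (s := (univ : Set (ULift.{u} ℕ))) (t := fun n => t n.down)
    (by simpa using hun) fun n _ => ht n.down
  refine sm_mono (fun y hy => ?_) this
  obtain ⟨n, hn⟩ := mem_iUnion.1 hy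
  exact mem_iUnion₂.2 ⟨⟨n⟩, mem_univ _, hn⟩

lemma bdd_seq (hT : Reg T) (hun : ℵ₀ < #T) (g : ℕ → T) : ∃ z, ∀ n, g n < z := by
  obtain ⟨z, hz⟩ := hT.bdd (range g)
    (lt_of_le_of_lt (le_aleph0_iff_set_countable.2 (countable_range g)) hun)
  exact ⟨z, fun n => hz _ ⟨n, rfl⟩⟩

/-- a ladder inside a cofinal set -/
lemma Lad.sub {L : ℕ → T} {b : T} (h : Lad L b) {C : Set T} (hC : ∀ γ < b, ∃ δ ∈ C, γ < δ ∧ δ < b)
    {a : T} (ha : a < b) : ∃ y, a < y 0 ∧ Lad y b ∧ ∀ n, y n ∈ C := by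
  have h1 : ∀ γ, ∃ δ, γ < b → δ ∈ C ∧ γ < δ ∧ δ < b := fun γ => by
    by_cases hγ : γ < b
    · obtain ⟨δ, h⟩ := hC γ hγ
      exact ⟨δ, fun _ => h⟩
    · exact ⟨γ, fun h => absurd h hγ⟩
  choose f hf using h1
  let y : ℕ → T := fun n => Nat.rec (f a) (fun n z => f (max z (L n))) n
  have hy : ∀ n, y (n + 1) = f (max (y n) (L n)) := fun _ => rfl
  have h2 : ∀ n, y n ∈ C ∧ y n < b := fun n => by
    induction n with
    | zero => exact ⟨(hf a ha).1, (hf a ha).2.2⟩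
    | succ n ih =>
      have := hf _ (max_lt ih.2 (h.2.1 n))
      exact ⟨this.1, this.2.2⟩
  have h3 : ∀ n, max (y n) (L n) < y (n + 1) := fun n => (hf _ (max_lt (h2 n).2 (h.2.1 n))).2.1
  refine ⟨y, (hf a ha).2.1, ⟨strictMono_nat_of_lt_succ fun n => (le_max_left _ _).trans_lt (h3 n),
    fun n => (h2 n).2, fun γ hγ => ?_⟩, fun n => (h2 n).1⟩
  obtain ⟨n, hn⟩ := h.2.2 γ hγ
  exact ⟨n + 1, hn.trans ((le_max_right _ _).trans_lt (h3 n))⟩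

variable [WellFoundedLT T]

lemma exists_lad (hT : Reg T) (hun : ℵ₀ < #T) {x : ℕ → T} (hx : StrictMono x) : ∃ b, Lad x b := by
  have hne : {z | ∀ n, x n < z}.Nonempty := bdd_seq hT hun x
  refine ⟨wellFounded_lt.min _ hne, hx, wellFounded_lt.min_mem _ hne, fun γ hγ => ?_⟩
  by_contra hcon
  push Not at hcon
  exact wellFounded_lt.not_lt_min {z | ∀ n, x n < z} (x := γ)
    (fun n => (hx (Nat.lt_succ_self n)).trans_le (hcon _)) hγ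

lemma exists_cl (hT : Reg T) (hun : ℵ₀ < #T) {F : T → Set T} (hF : Sm F) (a : T) :
    ∃ x b, a < b ∧ Lad x b ∧ Cl F b := by
  have h1 : ∀ y, ∃ z, y < z ∧ ∀ γ ≤ y, F γ ⊆ Iio z := fun y => by
    obtain ⟨z, hz⟩ := hT.bdd ({y} ∪ ⋃ γ ∈ Iic y, F γ) (sm_union hT.inf (sm_single hT.inf _)
      (sm_biUnion hT.reg (hT.iic y) fun γ _ => hF γ))
    exact ⟨z, hz y (Or.inl rfl), fun γ hγ w hw => hz w (Or.inr (mem_iUnion₂.2 ⟨γ, hγ, hw⟩))⟩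
  choose f hf using h1
  let g : ℕ → T := fun n => f^[n] a
  have hg : ∀ n, g (n + 1) = f (g n) := fun n => Function.iterate_succ_apply' _ _ _
  obtain ⟨b, hb⟩ := exists_lad hT hun (x := g)
    (strictMono_nat_of_lt_succ fun n => hg n ▸ (hf _).1)
  refine ⟨g, b, hb.2.1 0, hb, fun γ hγ w hw => ?_⟩
  obtain ⟨n, hn⟩ := hb.2.2 γ hγ
  exact lt_trans ((hf (g n)).2 γ hn.le hw) (hg n ▸ hb.2.1 (n + 1))

/-- closure points of `F'` are limits of closure points of `F` -/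
lemma exists_acc (hT : Reg T) (hun : ℵ₀ < #T) {F : T → Set T} (hF : Sm F) :
    ∃ F', Sm F' ∧ ∀ b, Cl F' b → ∀ γ < b, ∃ δ ∈ {δ | Cl F δ}, γ < δ ∧ δ < b := by
  choose x f hf using exists_cl hT hun hF
  exact ⟨fun γ => {f γ}, fun γ => sm_single hT.inf _,
    fun b hb γ hγ => ⟨f γ, (hf γ).2.2, (hf γ).1, hb γ hγ rfl⟩⟩

lemma exists_L : ∃ L : T → ℕ → T, ∀ x b, Lad x b → Lad (L b) b := by
  classical
  refine ⟨fun b => if h : ∃ x, Lad x b then h.choose else fun _ => b, fun x b h => ?_⟩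
  have h' : ∃ x, Lad x b := ⟨x, h⟩
  simp only [dif_pos h']
  exact h'.choose_spec

lemma exists_drop (F : T → Set T) (γ : T) :
    ∃ z, z ≤ γ ∧ Cl F z ∧ ∀ δ ≤ γ, Cl F δ → δ ≤ z := by
  have hne : {z | ∀ δ ≤ γ, Cl F δ → δ ≤ z}.Nonempty := ⟨γ, fun δ h _ => h⟩
  have hm := wellFounded_lt.min_mem _ hne
  refine ⟨wellFounded_lt.min _ hne, not_lt.1 (wellFounded_lt.not_lt_min _ fun δ h _ => h),
    fun β hβ w hw => ?_, hm⟩
  have : ∃ δ ≤ γ, Cl F δ ∧ β < δ := by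
    by_contra hcon
    push Not at hcon
    exact wellFounded_lt.not_lt_min {z | ∀ δ ≤ γ, Cl F δ → δ ≤ z} (x := β) hcon hβ
  obtain ⟨δ, h1, h2, h3⟩ := this
  exact lt_of_lt_of_le (h2 β h3 hw) (hm δ h1 h2)

/-- Club guessing on points of countable cofinality. -/
theorem club_guess (hT : Reg T) (h1 : ℵ₁ < #T) :
    ∃ d : T → ℕ → T, ∀ F, Sm F → ∀ a, ∃ ε, a < ε ∧ Lad (d ε) ε ∧ ∀ n, Cl F (d ε n) := by
  classical
  have hun : ℵ₀ < #T := aleph0_lt_aleph_one.trans h1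
  obtain ⟨L, hL⟩ := exists_L (T := T)
  choose dr hd1 hd2 hd3 using exists_drop (T := T)
  suffices h : ∃ F₀, ∀ F, Sm F → ∀ a, ∃ ε, a < ε ∧ Lad (L ε) ε ∧
      (∀ γ < ε, ∃ δ ∈ {δ | Cl F₀ δ}, γ < δ ∧ δ < ε) ∧ ∀ n, Cl F (dr F₀ (L ε n)) by
    obtain ⟨F₀, h⟩ := h
    refine ⟨fun ε => if h : ∃ y, Lad y ε ∧ ∀ n, y n ∈ range fun m => dr F₀ (L ε m) then h.choose
      else fun _ => ε, fun F hF a => ?_⟩
    obtain ⟨ε, e1, e2, e3, e4⟩ := h F hF a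
    have h' : ∃ y, Lad y ε ∧ ∀ n, y n ∈ range fun m => dr F₀ (L ε m) := by
      obtain ⟨y, -, hy⟩ := e2.sub (C := range fun m => dr F₀ (L ε m)) (fun γ hγ => by
        obtain ⟨δ, hδ, g1, g2⟩ := e3 γ hγ
        obtain ⟨m, hm⟩ := e2.2.2 δ g2
        exact ⟨_, ⟨m, rfl⟩, g1.trans_le (hd3 _ _ _ hm.le hδ), (hd1 _ _).trans_lt (e2.2.1 m)⟩) e1
      exact ⟨y, hy⟩
    refine ⟨ε, e1, ?_⟩
    simp only [dif_pos h']
    refine ⟨h'.choose_spec.1, fun n => ?_⟩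
    obtain ⟨m, hm⟩ := h'.choose_spec.2 n
    rw [← hm]
    exact e4 m
  by_contra hcon
  push Not at hcon
  choose g hg a ha using hcon
  have hW := reg_toType (κ := (ℵ₁ : Cardinal.{u})) isRegular_aleph_one
  have hW1 : #(ℵ₁ : Cardinal.{u}).ord.ToType = ℵ₁ := mk_ord_toType _
  let fb : Set (T × T) → T → Set T := fun s x => {y | (x, y) ∈ s}
  obtain ⟨r, hr⟩ := chain_rec (T := (ℵ₁ : Cardinal.{u}).ord.ToType) (∅ : Set (T × T))
    (fun s => Sm (fb s)) (fun _ s s' => ∀ x, g (fb s) x ⊆ fb s' x)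
    (fun γ r h x => by
      refine sm_mono (t := ⋃ β ∈ Iio γ, fb (r β) x) ?_
        (sm_biUnion hT.reg ((hW.init γ).trans (hW1.trans_lt h1)) fun β hβ => (h β hβ).1 x)
      rintro y (hy | hy)
      · exact hy.elim
      · obtain ⟨β, hβ, hy⟩ := mem_iUnion₂.1 hy
        exact mem_iUnion₂.2 ⟨β, hβ, hy⟩)
    (fun γ s hs => ⟨s ∪ {p | p.2 ∈ g (fb s) p.1}, fun x => sm_union hT.inf (hs x) (hg _ x),
      subset_union_left, fun x y hy => Or.inr hy⟩)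
  let s := fun γ => fb (∅ ∪ ⋃ β ∈ Iio γ, r β)
  have hs1 : ∀ γ γ', γ ≤ γ' → ∀ x, s γ x ⊆ s γ' x := by
    rintro γ γ' h x y (hy | hy)
    · exact hy.elim
    · obtain ⟨β, hβ, hy⟩ := mem_iUnion₂.1 hy
      exact Or.inr (mem_iUnion₂.2 ⟨β, lt_of_lt_of_le hβ h, hy⟩)
  have hs2 : ∀ γ γ', γ < γ' → ∀ x, g (s γ) x ⊆ s γ' x := fun γ γ' h x y hy =>
    Or.inr (mem_iUnion₂.2 ⟨γ, h, (hr γ).2.2.2 x hy⟩)
  have hu : #(univ : Set (ℵ₁ : Cardinal.{u}).ord.ToType) < #T := by rwa [mk_univ, hW1]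
  obtain ⟨F', hF', hacc⟩ := exists_acc hT hun (F := fun x => ⋃ β ∈ Set.univ, fb (r β) x)
    fun x => sm_biUnion hT.reg hu fun β _ => (hr β).1 x
  obtain ⟨a₀, ha₀⟩ := hT.bdd ((fun γ => a (s γ)) '' Set.univ) (sm_image _ hu)
  obtain ⟨x, ε, e1, e2, e3⟩ := exists_cl hT hun hF' a₀
  have h2 : ∀ n, ∃ ξ, ∀ ξ', ξ ≤ ξ' → dr (s ξ') (L ε n) = dr (s ξ) (L ε n) := fun n => by
    obtain ⟨ξ₀⟩ := hW.nonempty
    obtain ⟨_, ⟨ξ, rfl⟩, hm⟩ := wellFounded_lt.has_min (range fun ξ => dr (s ξ) (L ε n))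
      ⟨_, ξ₀, rfl⟩
    exact ⟨ξ, fun ξ' h => le_antisymm (hd3 _ _ _ (hd1 _ _) ((hd2 _ _).mono (hs1 _ _ h)))
      (not_lt.1 (hm _ ⟨ξ', rfl⟩))⟩
  choose ξ hξ using h2
  obtain ⟨z, hz⟩ := bdd_seq hW (by rw [hW1]; exact aleph0_lt_aleph_one) ξ
  obtain ⟨z', hz'⟩ := hW.exists_gt z
  obtain ⟨n, hn⟩ := ha (s z) ε ((ha₀ _ ⟨z, mem_univ _, rfl⟩).trans e1) (hL x ε e2)
    fun γ hγ => by
      obtain ⟨δ, hδ, h⟩ := hacc ε e3 γ hγ
      refine ⟨δ, Cl.mono ?_ hδ, h⟩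
      rintro x y (hy | hy)
      · exact hy.elim
      · obtain ⟨β, -, hy⟩ := mem_iUnion₂.1 hy
        exact mem_iUnion₂.2 ⟨β, mem_univ _, hy⟩
  refine hn ?_
  rw [hξ n z (hz n).le, ← hξ n z' ((hz n).trans hz').le]
  exact (hd2 _ _).mono (hs2 z z' hz')

/-- Splitting the points of countable cofinality into stationary sets. -/
theorem solovay (hT : Reg T) (hun : ℵ₀ < #T) :
    ∃ col : T → T, ∀ i F, Sm F → ∀ a, ∃ b x, a < x 0 ∧ Lad x b ∧ (∀ n, Cl F (x n)) ∧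
      col b = i := by
  classical
  obtain ⟨L, hL⟩ := exists_L (T := T)
  let St : (T → Prop) → Prop := fun P => ∀ F, Sm F → ∀ a, ∃ b, a < b ∧ Cl F b ∧ Lad (L b) b ∧ P b
  have h1 : ∃ n, ∀ γ, St fun b => γ ≤ L b n := by
    by_contra hcon
    simp only [St] at hcon
    push Not at hcon
    choose γ F hF a h using hcon
    obtain ⟨z, hz⟩ := bdd_seq hT hun fun n => max (γ n) (a n)
    obtain ⟨x, b, e1, e2, e3⟩ := exists_cl hT hun (F := fun y => ⋃ n, F n y)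
      (fun y => sm_seq hT.reg hun fun n => hF n y) z
    obtain ⟨n, hn⟩ := (hL x b e2).2.2 z e1
    have := h n b (((le_max_right _ _).trans_lt (hz n)).trans e1)
      (e3.mono fun y => subset_iUnion (fun n => F n y) n) (hL x b e2)
    exact absurd (((le_max_left _ _).trans_lt (hz n)).trans hn) (not_lt.2 this.le)
  obtain ⟨n, h1⟩ := h1
  have h2 : ∀ γ, ∃ v, γ ≤ v ∧ St fun b => L b n = v := fun γ => by
    by_contra hcon
    simp only [St] at hcon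
    push Not at hcon
    have h3 : ∀ v, ∃ F, Sm F ∧ ∃ a, γ ≤ v → ∀ b, a < b → Cl F b → Lad (L b) b → L b n ≠ v :=
      fun v => by
        by_cases hv : γ ≤ v
        · obtain ⟨F, hF, a, h⟩ := hcon v hv
          exact ⟨F, hF, a, fun _ => h⟩
        · exact ⟨fun _ => ∅, fun _ => sm_finite hT.inf finite_empty, v, fun h => absurd h hv⟩
    choose F hF a h using h3
    obtain ⟨b, -, e2, e3, e4⟩ := h1 γ (fun y => {a y} ∪ ⋃ v ∈ Iic y, ⋃ w ∈ Iic y, F v w)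
      (fun y => sm_union hT.inf (sm_single hT.inf _) (sm_biUnion hT.reg (hT.iic y) fun v _ =>
        sm_biUnion hT.reg (hT.iic y) fun w _ => hF v w)) γ
    refine h _ e4 b (e2 _ (e3.2.1 n) (Or.inl rfl)) (fun w hw y hy => ?_) e3 rfl
    exact e2 (max (L b n) w) (max_lt (e3.2.1 n) hw) (Or.inr (mem_iUnion₂.2
      ⟨_, le_max_left _ _, mem_iUnion₂.2 ⟨w, le_max_right _ _, hy⟩⟩))
  have h3 : #T ≤ #{v | St fun b => L b n = v} := by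
    by_contra hcon
    obtain ⟨z, hz⟩ := hT.bdd _ (not_le.1 hcon)
    obtain ⟨v, hv, h⟩ := h2 z
    exact absurd (hz v h) (not_lt.2 hv)
  obtain ⟨e⟩ := (le_def _ _).1 h3
  have := hT.nonempty
  have he : Function.Injective fun i => (e i).1 := fun i j h => e.injective (Subtype.ext h)
  refine ⟨fun b => Function.invFun (fun i => (e i).1) (L b n), fun i F hF a => ?_⟩
  obtain ⟨F', hF', hacc⟩ := exists_acc hT hun hF
  obtain ⟨b, e1, e2, e3, e4⟩ := (e i).2 F' hF' a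
  obtain ⟨x, g1, g2, g3⟩ := e3.sub (hacc b e2) e1
  refine ⟨b, x, g1, g2, g3, ?_⟩
  show Function.invFun _ (L b n) = i
  rw [e4]
  exact Function.leftInverse_invFun he i

end Pool.Agent.P.MP_39acbb_lc
end

-- part Pool.Agent.P.MP_39acbb_lc.InB
section

/-! Enumerations, small families of limits, closed sets of columns and one working step. -/

set_option autoImplicit false
set_option linter.deprecated false
set_option linter.unusedSectionVars false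

namespace Pool.Agent.P.MP_39acbb_lc

open Cardinal Set

universe u

variable {T : Type u} [LinearOrder T]

lemma enum_le {Y : Type u} [Nonempty Y] {𝒮 : Set Y} (h : #𝒮 ≤ #T) :
    ∃ B : T → Y, ∀ y ∈ 𝒮, ∃ i, B i = y := by
  classical
  obtain ⟨j⟩ := (le_def _ _).1 h
  refine ⟨fun β => if h : ∃ y : 𝒮, j y = β then h.choose else Classical.arbitrary Y,
    fun y hy => ⟨j ⟨y, hy⟩, ?_⟩⟩
  have h' : ∃ y' : 𝒮, j y' = j ⟨y, hy⟩ := ⟨_, rfl⟩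
  simp only [dif_pos h']
  exact congrArg Subtype.val (j.injective h'.choose_spec)

lemma enum_lt (hT : Reg T) {Y : Type u} [Nonempty Y] {𝒮 : Set Y} (h : #𝒮 < #T) :
    ∃ (B : T → Y) (z : T), ∀ y ∈ 𝒮, ∃ i < z, B i = y := by
  obtain ⟨B, hB⟩ := enum_le (T := T) h.le
  choose f hf using hB
  obtain ⟨z, hz⟩ := hT.bdd (range fun y : 𝒮 => f y.1 y.2) (mk_range_le.trans_lt h)
  exact ⟨B, z, fun y hy => ⟨f y hy, hz _ ⟨⟨y, hy⟩, rfl⟩, hf y hy⟩⟩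

/-- sequences below `a` -/
def Sq (a : T) : Set (ℕ → T) := {s | ∀ n, s n < a}

lemma sm_Sq (hT : Reg T) (hω : ∀ μ < #T, μ ^ ℵ₀ < #T) (a : T) : #(Sq a) < #T := by
  refine lt_of_le_of_lt ?_ (hω _ (hT.init a))
  have : #(ℕ → Iio a) = #(Iio a) ^ ℵ₀ := by simp
  rw [← this]
  exact mk_le_of_injective (f := fun s n => (⟨s.1 n, s.2 n⟩ : Iio a)) fun s s' h =>
    Subtype.ext (funext fun n => congrArg Subtype.val (congrFun h n))

lemma sm_closure {κ : Cardinal.{u}} (hun : ℵ₀ < κ) {Y : Type u} [AddMonoid Y] {s : Set Y}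
    (hs : #s < κ) : #(AddSubmonoid.closure s : Set Y) < κ := by
  refine lt_of_le_of_lt ?_ ((mk_list_le_max s).trans_lt (max_lt hun hs))
  refine le_trans (mk_le_mk_of_subset (t := range fun l : List s => (l.map Subtype.val).sum) ?_)
    mk_range_le
  intro x hx
  obtain ⟨l, hl, rfl⟩ := AddSubmonoid.exists_list_of_mem_closure hx
  exact ⟨l.attachWith _ hl, by simp⟩

/-- A filtration of the functions with small support that is closed under sums and limits. -/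
lemma exists_Q (hT : Reg T) (hun : ℵ₀ < #T) (hc : Cnt #T) (hω : ∀ μ < #T, μ ^ ℵ₀ < #T)
    {G : Type u} [AddCommGroup G] (hG : #G ≤ #T) (H : T → Set G) (hH : ∀ a, #(H a) < #T)
    (hHm : Monotone H) :
    ∃ (Q : T → AddSubmonoid (T → G)) (B : T → T → G), Monotone Q ∧ (∀ a, #(Q a : Set (T → G)) < #T) ∧
      (∀ a, ∀ h ∈ H a, (fun _ => h) ∈ Q a) ∧
      (∀ u : T → G, #{i | u i ≠ 0} < #T → ∃ k, B k = u) ∧
      ∀ a, ∀ s ∈ Sq a, ∀ u : T → G, (∀ i, ∀ᶠ n in Filter.atTop, B (s n) i = u i) → u ∈ Q a := by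
  classical
  have h0 := hT.inf
  obtain ⟨B, hB⟩ := enum_le (T := T) (𝒮 := {u : T → G | #{i | u i ≠ 0} < #T}) (by
    refine le_trans ?_ (hc (T × G) Set.univ (by
      rw [mk_univ, mk_prod, lift_id, lift_id]; exact mul_le_of_le h0 le_rfl hG))
    refine mk_le_of_injective (f := fun u => ⟨(fun i => (i, u.1 i)) '' {i | u.1 i ≠ 0},
      subset_univ _, sm_image _ u.2⟩) fun u u' h => Subtype.ext (funext fun i => ?_)
    have h1 := congrArg Subtype.val h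
    simp only at h1
    by_cases h2 : u.1 i = 0
    · by_contra h3
      have : (i, u'.1 i) ∈ (fun i => (i, u.1 i)) '' {i | u.1 i ≠ 0} :=
        h1 ▸ ⟨i, fun h4 => h3 (h2.trans h4.symm), rfl⟩
      obtain ⟨j, hj, e⟩ := this
      obtain ⟨rfl, -⟩ := Prod.ext_iff.1 e
      exact hj h2
    · have : (i, u.1 i) ∈ (fun i => (i, u'.1 i)) '' {i | u'.1 i ≠ 0} := h1 ▸ ⟨i, h2, rfl⟩
      obtain ⟨j, -, e⟩ := this
      obtain ⟨rfl, e2⟩ := Prod.ext_iff.1 e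
      exact e2.symm)
  let lim : (ℕ → T) → T → G := fun s i =>
    if h : ∃ v, ∀ᶠ n in Filter.atTop, B (s n) i = v then h.choose else 0
  refine ⟨fun a => AddSubmonoid.closure (lim '' Sq a ∪ (fun h _ => h) '' H a), B,
    fun a b hab => AddSubmonoid.closure_mono (union_subset_union
      (image_mono fun s hs n => (hs n).trans_le hab) (image_mono (hHm hab))),
    fun a => sm_closure hun (sm_union h0 (sm_image _ (sm_Sq hT hω a)) (sm_image _ (hH a))),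
    fun a h hh => AddSubmonoid.subset_closure (Or.inr ⟨h, hh, rfl⟩), hB,
    fun a s hs u hu => AddSubmonoid.subset_closure (Or.inl ⟨s, hs, funext fun i => ?_⟩)⟩
  have h' : ∃ v, ∀ᶠ n in Filter.atTop, B (s n) i = v := ⟨_, hu i⟩
  simp only [lim, dif_pos h']
  obtain ⟨n, h1, h2⟩ := (h'.choose_spec.and (hu i)).exists
  exact h1.symm.trans h2

section
variable {Θ G : Type u} [LinearOrder Θ] [AddCommGroup G]

/-- the conditions below `η` whose open set misses `X` -/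
def DD (κ : Cardinal.{u}) (K : Θ → AddSubgroup G) (η : Θ) (X : Set G) : Set (Set (Θ × G)) :=
  {o | Cond κ o ∧ (∀ p ∈ o, p.1 < η) ∧ ∀ g ∈ U K o, g ∉ X}

/-- density below `η` -/
def Dn (κ : Cardinal.{u}) (η : Θ) (𝒟 : Set (Set (Θ × G))) : Prop :=
  ∀ q : Set (Θ × G), Cond κ q → (∀ p ∈ q, p.1 < η) → ∃ o ∈ 𝒟, q ⊆ o

lemma DD_congr {κ : Cardinal.{u}} {K K' : Θ → AddSubgroup G} {η : Θ} (h : ∀ ζ < η, K ζ = K' ζ)
    (X : Set G) : DD κ K η X = DD κ K' η X := by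
  ext o
  refine and_congr_right fun _ => and_congr_right fun ho => ?_
  rw [U_congr h ho]

lemma Good.dn {κ : Cardinal.{u}} {K : Θ → AddSubgroup G} {η : Θ} {X : Set G} (h : Good κ K η X) :
    Dn κ η (DD κ K η X) := fun q hq hq' => by
  obtain ⟨o, h1, h2, h3, h4⟩ := h q hq hq'
  exact ⟨o, ⟨h1, h2, h4⟩, h3⟩

lemma exists_MR (hT : Reg T) (hc : Cnt #T) (hG : #G ≤ #T) (η : Θ) (𝒟 : Set (Set (Θ × G))) :
    ∃ (M : Set Θ) (rk : Θ → T), M ⊆ Iio η ∧ InjOn rk M ∧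
      ((∀ o ∈ 𝒟, Cond #T o ∧ ∀ p ∈ o, p.1 < η) → Dn #T η 𝒟 → ∀ q, Cond #T q →
        (∀ p ∈ q, p.1 ∈ M) → ∃ o ∈ 𝒟, q ⊆ o ∧ ∀ p ∈ o, p.1 ∈ M) := by
  classical
  let W : Set (Θ × G) → Set Θ := fun q =>
    if h : ∃ o ∈ 𝒟, q ⊆ o ∧ #o < #T then Prod.fst '' h.choose else ∅
  obtain ⟨S, -, hS, hW⟩ := close_off hT.reg hc hG W (fun q _ => by
    simp only [W]
    split_ifs with h
    · exact (sm_image _ h.choose_spec.2.2).le
    · simp) ∅ (by simp)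
  obtain ⟨j⟩ := (le_def _ _).1 hS
  obtain ⟨a₀⟩ := hT.nonempty
  refine ⟨S ∩ Iio η, fun ζ => if h : ζ ∈ S then j ⟨ζ, h⟩ else a₀, inter_subset_right,
    fun ζ h ζ' h' e => ?_, fun h𝒟 hd q hq hqM => ?_⟩
  · simp only [dif_pos h.1, dif_pos h'.1] at e
    exact congrArg Subtype.val (j.injective e)
  · have h : ∃ o ∈ 𝒟, q ⊆ o ∧ #o < #T := by
      obtain ⟨o, h1, h2⟩ := hd q hq fun p hp => (hqM p hp).2
      exact ⟨o, h1, h2, (h𝒟 o h1).1.1⟩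
    have h2 := hW q hq.1 fun p hp => (hqM p hp).1
    simp only [W, dif_pos h] at h2
    exact ⟨_, h.choose_spec.1, h.choose_spec.2.1,
      fun p hp => ⟨h2 ⟨p, hp, rfl⟩, (h𝒟 _ h.choose_spec.1).2 p hp⟩⟩

omit [LinearOrder Θ] [AddCommGroup G] in
lemma fn_of_dir {s : Set (Θ × G)} (h : ∀ p ∈ s, ∀ p' ∈ s, ∃ r, Fn r ∧ p ∈ r ∧ p' ∈ r) : Fn s :=
  fun x a b ha hb => by
    obtain ⟨r, h1, h2, h3⟩ := h _ ha _ hb
    exact h1 x a b h2 h3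

/-- One working step: meet a small family of shifted dense sets. -/
lemma work_step [WellFoundedLT T] (hT : Reg T) (S : Set Θ) {I : Type u} [Nonempty I] {J : Set I}
    (hJ : #J < #T) (M : I → Set Θ) (𝒟 : I → Set (Set (Θ × G))) (w : I → Θ → G)
    (hM : ∀ i ∈ J, M i ⊆ S)
    (hD : ∀ i ∈ J, ∀ q, Cond #T q → (∀ p ∈ q, p.1 ∈ M i) →
      ∃ o ∈ 𝒟 i, Cond #T o ∧ q ⊆ o ∧ ∀ p ∈ o, p.1 ∈ M i)
    (s : Set (Θ × G)) (hs : Cond #T s) (hsS : ∀ p ∈ s, p.1 ∈ S) :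
    ∃ s', Cond #T s' ∧ (∀ p ∈ s', p.1 ∈ S) ∧ s ⊆ s' ∧
      ∀ i ∈ J, ∃ o ∈ 𝒟 i, ∀ y ∈ o, y.1 ∈ M i ∧ (y.1, y.2 - w i y.1) ∈ s' := by
  have h0 := hT.inf
  obtain ⟨e, z, he⟩ := enum_lt hT hJ
  obtain ⟨r, hr⟩ := chain_rec (T := T) s (fun r => Cond #T r ∧ (∀ y ∈ r, y.1 ∈ S))
    (fun γ _ r => e γ ∈ J → ∃ o ∈ 𝒟 (e γ), ∀ y ∈ o, y.1 ∈ M (e γ) ∧ (y.1, y.2 - w (e γ) y.1) ∈ r)
    (fun γ r h => by
      refine ⟨⟨sm_union h0 hs.1 (sm_biUnion hT.reg (hT.init γ) fun β hβ => (h β hβ).1.1.1),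
        fn_of_dir ?_⟩, ?_⟩
      · rintro p (ha | ha) p' (hb | hb)
        · exact ⟨s, hs.2, ha, hb⟩
        · obtain ⟨β, hβ, hb⟩ := mem_iUnion₂.1 hb
          exact ⟨_, (h β hβ).1.1.2, (h β hβ).2.1 ha, hb⟩
        · obtain ⟨β, hβ, ha⟩ := mem_iUnion₂.1 ha
          exact ⟨_, (h β hβ).1.1.2, ha, (h β hβ).2.1 hb⟩
        · obtain ⟨β, hβ, ha⟩ := mem_iUnion₂.1 ha
          obtain ⟨β', hβ', hb⟩ := mem_iUnion₂.1 hb
          rcases lt_trichotomy β β' with hl | rfl | hl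
          · exact ⟨_, (h β' hβ').1.1.2, (h β' hβ').2.2 β hl ha, hb⟩
          · exact ⟨_, (h β hβ).1.1.2, ha, hb⟩
          · exact ⟨_, (h β hβ).1.1.2, ha, (h β hβ).2.2 β' hl hb⟩
      · rintro y (hy | hy)
        · exact hsS y hy
        · obtain ⟨β, hβ, hy⟩ := mem_iUnion₂.1 hy
          exact (h β hβ).1.2 y hy)
    (fun γ s₁ hs₁ => by
      by_cases hi : e γ ∈ J
      swap
      · exact ⟨s₁, hs₁, subset_rfl, fun h => absurd h hi⟩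
      set i := e γ
      obtain ⟨o, o1, o2, o3, o4⟩ := hD i hi
        ((fun p => (p.1, p.2 + w i p.1)) '' {p ∈ s₁ | p.1 ∈ M i})
        ⟨sm_image _ (sm_mono (sep_subset _ _) hs₁.1.1), by
          rintro x a b ⟨p, hp, e1⟩ ⟨p', hp', e2⟩
          obtain ⟨rfl, rfl⟩ := Prod.ext_iff.1 e1
          obtain ⟨e3, rfl⟩ := Prod.ext_iff.1 e2
          simp only at e3 ⊢
          rw [hs₁.1.2 p.1 p.2 p'.2 hp.1 (e3 ▸ hp'.1), e3]⟩
        (by rintro _ ⟨p, hp, rfl⟩; exact hp.2)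
      have key : ∀ x a, (x, a) ∈ s₁ → ∀ y ∈ o, y.1 = x → a = y.2 - w i y.1 := by
        rintro _ a ha y hy rfl
        have := o2.2 y.1 _ y.2 (o3 ⟨(y.1, a), ⟨ha, o4 y hy⟩, rfl⟩) hy
        rw [← this, add_sub_cancel_right]
      refine ⟨s₁ ∪ (fun y => (y.1, y.2 - w i y.1)) '' o,
        ⟨⟨sm_union h0 hs₁.1.1 (sm_image _ o2.1), ?_⟩, ?_⟩, subset_union_left,
        fun _ => ⟨o, o1, fun y hy => ⟨o4 y hy, Or.inr ⟨y, hy, rfl⟩⟩⟩⟩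
      · rintro x a b (ha | ⟨y, hy, ha⟩) (hb | ⟨y', hy', hb⟩)
        · exact hs₁.1.2 x a b ha hb
        · obtain ⟨e1, rfl⟩ := Prod.ext_iff.1 hb
          exact key x a ha y' hy' e1
        · obtain ⟨e1, rfl⟩ := Prod.ext_iff.1 ha
          exact (key x b hb y hy e1).symm
        · obtain ⟨rfl, rfl⟩ := Prod.ext_iff.1 ha
          obtain ⟨e1, rfl⟩ := Prod.ext_iff.1 hb
          simp only at e1 ⊢
          rw [o2.2 y.1 y.2 y'.2 hy (e1 ▸ hy'), e1]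
      · rintro y (hy | ⟨y', hy', rfl⟩)
        · exact hs₁.2 y hy
        · exact hM i hi (o4 y' hy'))
  refine ⟨r z, (hr z).1.1, (hr z).1.2, (hr z).2.1, fun i hi => ?_⟩
  obtain ⟨β, hβ, rfl⟩ := he i hi
  obtain ⟨o, o1, o2⟩ := (hr β).2.2.2 hi
  exact ⟨o, o1, fun y hy => ⟨(o2 y hy).1, (hr z).2.2.1 β hβ (o2 y hy).2⟩⟩

end

end Pool.Agent.P.MP_39acbb_lc
end

-- part Pool.Agent.P.MP_39acbb_lc.InC
section

/-! The club filter and the construction of one row. -/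

set_option autoImplicit false
set_option linter.deprecated false
set_option linter.unusedSectionVars false

namespace Pool.Agent.P.MP_39acbb_lc

open Cardinal Set Filter

universe u

variable {T : Type u} [LinearOrder T]

/-- the club filter -/
def cf (hT : Reg T) : Filter T where
  sets := {s | ∃ F, Sm F ∧ ∃ a, ∀ δ, a < δ → Cl F δ → δ ∈ s}
  univ_sets := by
    obtain ⟨a⟩ := hT.nonempty
    exact ⟨fun _ => ∅, fun _ => sm_finite hT.inf finite_empty, a, fun _ _ _ => mem_univ _⟩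
  sets_of_superset := by
    rintro s t ⟨F, hF, a, h⟩ hst
    exact ⟨F, hF, a, fun δ h1 h2 => hst (h δ h1 h2)⟩
  inter_sets := by
    rintro s t ⟨F, hF, a, h⟩ ⟨F', hF', a', h'⟩
    exact ⟨fun γ => F γ ∪ F' γ, fun γ => sm_union hT.inf (hF γ) (hF' γ), max a a',
      fun δ h1 h2 => ⟨h δ ((le_max_left _ _).trans_lt h1) (h2.mono fun _ => subset_union_left),
        h' δ ((le_max_right _ _).trans_lt h1) (h2.mono fun _ => subset_union_right)⟩⟩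

lemma ev_gt (hT : Reg T) (a : T) : ∀ᶠ δ in cf hT, a < δ :=
  ⟨fun _ => ∅, fun _ => sm_finite hT.inf finite_empty, a, fun _ h _ => h⟩

lemma ev_small (hT : Reg T) {I : Type u} {J : Set I} (hJ : #J < #T) {P : I → T → Prop}
    (h : ∀ i ∈ J, ∀ᶠ δ in cf hT, P i δ) : ∀ᶠ δ in cf hT, ∀ i ∈ J, P i δ := by
  choose F hF a ha using h
  obtain ⟨z, hz⟩ := hT.bdd (range fun i : J => a i.1 i.2) (mk_range_le.trans_lt hJ)
  refine ⟨fun γ => ⋃ i ∈ (Set.univ : Set J), F i.1 i.2 γ, fun γ => sm_biUnion hT.reg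
    (by rwa [mk_univ]) fun i _ => hF i.1 i.2 γ, z, fun δ h1 h2 i hi => ?_⟩
  exact ha i hi δ ((hz _ ⟨⟨i, hi⟩, rfl⟩).trans h1)
    (h2.mono fun γ y hy => mem_iUnion₂.2 ⟨⟨i, hi⟩, mem_univ _, hy⟩)

lemma ev_diag (hT : Reg T) {P : T → T → Prop} (h : ∀ i, ∀ᶠ δ in cf hT, P i δ) :
    ∀ᶠ δ in cf hT, ∀ i < δ, P i δ := by
  choose F hF a ha using h
  obtain ⟨z⟩ := hT.nonempty
  refine ⟨fun y => {a y} ∪ ⋃ v ∈ Iic y, ⋃ w ∈ Iic y, F v w,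
    fun y => sm_union hT.inf (sm_single hT.inf _) (sm_biUnion hT.reg (hT.iic y) fun v _ =>
      sm_biUnion hT.reg (hT.iic y) fun w _ => hF v w), z, fun δ _ h2 i hi => ?_⟩
  refine ha i δ (h2 i hi (Or.inl rfl)) fun w hw y hy => ?_
  exact h2 (max i w) (max_lt hi hw) (Or.inr (mem_iUnion₂.2
    ⟨_, le_max_left _ _, mem_iUnion₂.2 ⟨w, le_max_right _ _, hy⟩⟩))

lemma ev_rank (hT : Reg T) {I : Type u} {S : Set I} {f : I → T} (hf : InjOn f S)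
    {P : I → T → Prop} (h : ∀ i ∈ S, ∀ᶠ δ in cf hT, P i δ) :
    ∀ᶠ δ in cf hT, ∀ i ∈ S, f i < δ → P i δ := by
  have := ev_diag hT (P := fun γ δ => ∀ i ∈ {i ∈ S | f i = γ}, P i δ) fun γ =>
    ev_small hT (sm_finite hT.inf (Set.Subsingleton.finite fun i hi j hj =>
      hf hi.1 hj.1 (hi.2.trans hj.2.symm))) fun i hi => h i hi.1
  exact this.mono fun δ h i hi hl => h _ hl i ⟨hi, rfl⟩

lemma ev_imp (hT : Reg T) {p : Prop} {P : T → Prop} (h : p → ∀ᶠ δ in cf hT, P δ) :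
    ∀ᶠ δ in cf hT, p → P δ := by
  by_cases hp : p
  · exact (h hp).mono fun _ h _ => h
  · exact Eventually.of_forall fun _ h => absurd h hp

lemma sm_rank (hT : Reg T) {I : Type u} {S : Set I} {f : I → T} (hf : InjOn f S) (a : T) :
    #{i ∈ S | f i < a} < #T :=
  lt_of_le_of_lt (mk_le_of_injective (f := fun i => (⟨f i.1, i.2.2⟩ : Iio a)) fun i j h =>
    Subtype.ext (hf i.2.1 j.2.1 (congrArg Subtype.val h))) (hT.init a)

section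
variable {Θ G : Type u} [AddCommGroup G]

open Classical in
/-- the value that the row `(ε, A)` gives to a column with code `β₀` -/
noncomputable def tt (c : T × (T ⊕ G) → T) (ε : T) (A β₀ : Set T) : G :=
  if h : ∃ g, ∃ i < ε, (∀ β < ε, β ∈ β₀ ↔ c (i, Sum.inl β) ∈ A) ∧ c (i, Sum.inr g) ∈ A
  then h.choose else 0

/-- the pattern of work and rest along the ladder `d` -/
def Pat (d : ℕ → T) (id : T → Set T) (Q : T → AddSubmonoid (T → G)) (M : Set Θ) (rk : Θ → T)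
    (𝒟 : Set (Set (Θ × G))) (A : Set T) (t : Θ → G) : Prop :=
  ∀ᶠ n in atTop, ∃ b, d n < b ∧ b < d (n + 1) ∧ id b = A ∩ Iio (d n) ∧
    (∃ u ∈ Q b, ∀ ζ ∈ M, rk ζ < d (n + 1) → t ζ = u (rk ζ)) ∧
    ∀ a < b, ∀ u ∈ Q a, ∃ o ∈ 𝒟, ∀ y ∈ o, y.1 ∈ M ∧ rk y.1 < b ∧ y.2 = t y.1 + u (rk y.1)

/-- fill with zeros -/
def fill (S : Set Θ) (j : Θ → T) (a : T) (s : Set (Θ × G)) : Set (Θ × G) :=
  s ∪ (fun ζ => (ζ, 0)) '' {ζ ∈ {ζ ∈ S | j ζ < a} | ∀ v, (ζ, v) ∉ s}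

lemma fill_mono (S : Set Θ) (j : Θ → T) {a a' : T} (h : a ≤ a') (s : Set (Θ × G)) :
    fill S j a s ⊆ fill S j a' s :=
  union_subset_union_right _ (image_mono fun _ hζ => ⟨⟨hζ.1.1, hζ.1.2.trans_le h⟩, hζ.2⟩)

lemma fill_dom {S : Set Θ} {j : Θ → T} {a : T} (s : Set (Θ × G)) {ζ : Θ} (h : ζ ∈ S)
    (h' : j ζ < a) : ∃ v, (ζ, v) ∈ fill S j a s := by
  by_cases h1 : ∃ v, (ζ, v) ∈ s
  · obtain ⟨v, hv⟩ := h1
    exact ⟨v, Or.inl hv⟩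
  · exact ⟨0, Or.inr ⟨ζ, ⟨⟨h, h'⟩, not_exists.1 h1⟩, rfl⟩⟩

lemma fill_cond (hT : Reg T) {S : Set Θ} {j : Θ → T} (hj : InjOn j S) (a : T) {s : Set (Θ × G)}
    (hs : Cond #T s) (hsS : ∀ p ∈ s, p.1 ∈ S) :
    Cond #T (fill S j a s) ∧ ∀ p ∈ fill S j a s, p.1 ∈ S := by
  refine ⟨⟨sm_union hT.inf hs.1 (sm_image _ (sm_mono (sep_subset _ _) (sm_rank hT hj a))), ?_⟩, ?_⟩
  · rintro x a b (ha | ⟨ζ, hζ, ha⟩) (hb | ⟨ζ', hζ', hb⟩)
    · exact hs.2 x a b ha hb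
    · obtain ⟨rfl, rfl⟩ := Prod.ext_iff.1 hb
      exact absurd ha (hζ'.2 _)
    · obtain ⟨rfl, rfl⟩ := Prod.ext_iff.1 ha
      exact absurd hb (hζ.2 _)
    · exact (Prod.ext_iff.1 ha).2.symm.trans (Prod.ext_iff.1 hb).2
  · rintro p (hp | ⟨ζ, hζ, rfl⟩)
    · exact hsS p hp
    · exact hζ.1.1

open Classical in
/-- a condition, read as a function of the rank -/
noncomputable def uf (M : Set Θ) (rk : Θ → T) (s : Set (Θ × G)) (i : T) : G :=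
  if h : ∃ v, ∃ ζ ∈ M, rk ζ = i ∧ (ζ, v) ∈ s then h.choose else 0

lemma uf_eq {M : Set Θ} {rk : Θ → T} (hr : InjOn rk M) {s : Set (Θ × G)} (hs : Fn s) {ζ : Θ}
    (hζ : ζ ∈ M) {v : G} (hv : (ζ, v) ∈ s) : uf M rk s (rk ζ) = v := by
  have h : ∃ v, ∃ ζ' ∈ M, rk ζ' = rk ζ ∧ (ζ', v) ∈ s := ⟨v, ζ, hζ, rfl, hv⟩
  rw [uf, dif_pos h]
  obtain ⟨ζ', h1, h2, h3⟩ := h.choose_spec
  obtain rfl := hr h1 hζ h2
  exact hs _ _ _ h3 hv

lemma uf_zero {M : Set Θ} {rk : Θ → T} {s : Set (Θ × G)} {i : T}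
    (h : ¬ ∃ v, ∃ ζ ∈ M, rk ζ = i ∧ (ζ, v) ∈ s) : uf M rk s i = 0 := dif_neg h

lemma uf_small {M : Set Θ} {rk : Θ → T} {s : Set (Θ × G)} (hs : #s < #T) :
    #{i | uf M rk s i ≠ 0} < #T := by
  refine sm_mono (fun i hi => ?_) (sm_image (fun p : Θ × G => rk p.1) hs)
  obtain ⟨v, ζ, -, h1, h2⟩ := not_not.1 (mt uf_zero hi)
  exact ⟨_, h2, h1⟩

/-- the code of a condition -/
def Code (c : T × (T ⊕ G) → T) (b : Θ → Set T) (S : Set Θ) (j : Θ → T) (s : Set (Θ × G)) :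
    Set T :=
  c '' {x | ∃ ζ ∈ S, j ζ = x.1 ∧
    ((∃ β ∈ b ζ, x.2 = Sum.inl β) ∨ ∃ v, (ζ, v) ∈ s ∧ x.2 = Sum.inr v)}

lemma chain_fn {s : ℕ → Set (Θ × G)} (hm : Monotone s) (h : ∀ n, Fn (s n)) : Fn (⋃ n, s n) :=
  fn_of_dir fun p hp p' hp' => by
    obtain ⟨n, hn⟩ := mem_iUnion.1 hp
    obtain ⟨m, hm'⟩ := mem_iUnion.1 hp'
    exact ⟨_, h (max n m), hm (le_max_left _ _) hn, hm (le_max_right _ _) hm'⟩

variable [WellFoundedLT T]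

theorem exists_row (hT : Reg T) (hun : ℵ₀ < #T) (hc : Cnt #T) (hω : ∀ μ < #T, μ ^ ℵ₀ < #T)
    [Nonempty Θ] [LinearOrder Θ] (hG : #G ≤ #T) (H : T → AddSubgroup G) (hHm : Monotone H)
    (hH : ∀ g, ∃ a, g ∈ H a) (d : T → ℕ → T)
    (hd : ∀ F, Sm F → ∀ a, ∃ ε, a < ε ∧ Lad (d ε) ε ∧ ∀ n, Cl F (d ε n)) (col : T → T)
    (hcol : ∀ i F, Sm F → ∀ a, ∃ b x, a < x 0 ∧ Lad x b ∧ (∀ n, Cl F (x n)) ∧ col b = i)
    (Q : T → AddSubmonoid (T → G)) (B : T → T → G) (hQm : Monotone Q)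
    (hQs : ∀ a, #(Q a : Set (T → G)) < #T) (hB : ∀ u : T → G, #{i | u i ≠ 0} < #T → ∃ k, B k = u)
    (hQ : ∀ a, ∀ s ∈ Sq a, ∀ u : T → G, (∀ i, ∀ᶠ n in atTop, B (s n) i = u i) → u ∈ Q a)
    (BT : T → Set T) (hBT : ∀ A : Set T, #A < #T → ∃ k, BT k = A)
    (c : T × (T ⊕ G) → T) (hci : Function.Injective c) (b : Θ → Set T)
    (hb : Function.Injective b) (α : Θ → T) (M : Θ → Set Θ) (rk : Θ → Θ → T)
    (hrk : ∀ η, InjOn (rk η) (M η)) (𝒟 : Θ → Set (Set (Θ × G))) (Dd : Θ → Prop)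
    (hD : ∀ η, Dd η → ∀ q, Cond #T q → (∀ p ∈ q, p.1 ∈ M η) →
      ∃ o ∈ 𝒟 η, Cond #T o ∧ q ⊆ o ∧ ∀ p ∈ o, p.1 ∈ M η)
    (q : Set (Θ × G)) (hq : Cond #T q) (a₀ : T) :
    ∃ (ε : T) (A : Set T) (S' : Set Θ), a₀ < ε ∧ Lad (d ε) ε ∧ A ⊆ Iio ε ∧
      (∃ s ∈ Sq ε, A = ⋃ n, BT (s n)) ∧ (∀ y ∈ q, y.1 ∈ S' ∧ tt c ε A (b y.1) = y.2) ∧
      ∀ η ∈ S', α η < ε ∧ tt c ε A (b η) ∈ H ε ∧ (∀ ζ ∈ M η, rk η ζ < ε → ζ ∈ S') ∧
        (Dd η → Pat (d ε) (fun x => BT (col x)) Q (M η) (rk η) (𝒟 η) A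
          fun ζ => tt c ε A (b ζ)) := by
  classical
  have h0 := hT.inf
  obtain ⟨S, hS₀, hS, hSW⟩ := close_off hT.reg hc hG (fun s : Set (Θ × G) => ⋃ p ∈ s, M p.1)
    (fun s hs => le_biUnion h0 hs.le fun p _ => mk_le_of_injective
      (f := fun ζ : M p.1 => rk p.1 ζ.1) fun ζ ζ' h => Subtype.ext (hrk _ ζ.2 ζ'.2 h))
    (Prod.fst '' q) (sm_image _ hq.1).le
  have hSM : ∀ η ∈ S, M η ⊆ S := fun η hη ζ hζ =>
    hSW {(η, 0)} (sm_single h0 _) (by rintro p rfl; exact hη) (mem_iUnion₂.2 ⟨(η, 0), rfl, hζ⟩)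
  obtain ⟨j, hj⟩ : ∃ j : Θ → T, InjOn j S := by
    obtain ⟨j⟩ := (le_def _ _).1 hS
    refine ⟨fun ζ => if h : ζ ∈ S then j ⟨ζ, h⟩ else a₀, fun ζ h ζ' h' e => ?_⟩
    simp only [dif_pos h, dif_pos h'] at e
    exact congrArg Subtype.val (j.injective e)
  let St : Set (Θ × G) → Prop := fun s => Cond #T s ∧ ∀ p ∈ s, p.1 ∈ S
  obtain ⟨Bs, hBs⟩ := enum_le (T := T) (hc (Θ × G) (S ×ˢ (Set.univ : Set G)) (by
    rw [mk_setProd, mk_univ]; exact mul_le_of_le h0 hS hG))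
  have hN : ∀ s : Set (Θ × G), #s < #T → (∀ p ∈ s, p.1 ∈ S) →
      ∀ᶠ δ in cf hT, ∃ i < δ, Bs i = s := fun s h1 h2 => by
    obtain ⟨i, hi⟩ := hBs s ⟨fun p hp => ⟨h2 p hp, mem_univ _⟩, h1⟩
    exact (ev_gt hT i).mono fun δ h => ⟨i, h, hi⟩
  have hE : ∀ a s, ∃ s', St s → St s' ∧ fill S j a s ⊆ s' ∧ ∀ η ∈ S, j η < a → Dd η →
      ∀ u ∈ Q a, ∃ o ∈ 𝒟 η, ∀ y ∈ o, y.1 ∈ M η ∧ (y.1, y.2 - u (rk η y.1)) ∈ s' := fun a s => by
    by_cases hs : St s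
    swap
    · exact ⟨s, fun h => absurd h hs⟩
    obtain ⟨f1, f2⟩ := fill_cond hT hj a hs.1 hs.2
    obtain ⟨s', g1, g2, g3, g4⟩ := work_step hT S (I := Θ × (T → G))
      (J := {η ∈ {η ∈ S | j η < a} | Dd η} ×ˢ (Q a : Set (T → G)))
      (sm_prod h0 (sm_mono (sep_subset _ _) (sm_rank hT hj a)) (hQs a)) (fun i => M i.1)
      (fun i => 𝒟 i.1) (fun i ζ => i.2 (rk i.1 ζ)) (fun i hi => hSM _ hi.1.1.1)
      (fun i hi => hD _ hi.1.2) _ f1 f2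
    exact ⟨s', fun _ => ⟨⟨g1, g2⟩, g3, fun η h1 h2 h3 u hu => g4 (η, u) ⟨⟨⟨h1, h2⟩, h3⟩, hu⟩⟩⟩
  choose Ext hExt using hE
  let Gd : T → Prop := fun δ =>
    (∀ a < δ, ∀ i < δ, St (Bs i) → ∃ k < δ, Bs k = Ext a (Bs i)) ∧
    (∀ i < δ, St (Bs i) → ∀ y ∈ Bs i, j y.1 < δ ∧ y.2 ∈ H δ ∧ c (j y.1, Sum.inr y.2) < δ) ∧
    (∀ i < δ, St (Bs i) → ∀ η ∈ S, j η < δ → ∃ k < δ, B k = uf (M η) (rk η) (Bs i)) ∧
    (∀ η ∈ S, j η < δ → (∀ ζ ∈ M η, rk η ζ < δ → j ζ < δ) ∧ ∀ ζ ∈ M η, j ζ < δ → rk η ζ < δ) ∧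
    (∀ i < δ, ∀ β < δ, c (i, Sum.inl β) < δ) ∧ (∀ x ∈ Set.univ, c x < δ → x.1 < δ) ∧
    ∀ η ∈ S, j η < δ → α η < δ ∧ ∀ ζ ∈ S, j ζ < δ → η ≠ ζ → ∃ β < δ, ¬ (β ∈ b η ↔ β ∈ b ζ)
  have hGd : ∀ᶠ δ in cf hT, Gd δ := by
    refine (ev_diag hT fun a => ev_diag hT fun i => ev_imp hT fun hs =>
      hN _ (hExt a _ hs).1.1.1 (hExt a _ hs).1.2).and
      ((ev_diag hT fun i => ev_imp hT fun hs => ev_small hT hs.1.1 fun y _ => ?_).and
      ((ev_diag hT fun i => ev_imp hT fun hs => ev_rank hT hj fun η _ => ?_).and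
      ((ev_rank hT hj fun η hη => (ev_rank hT (hrk η) fun ζ _ => ev_gt hT _).and
        (ev_rank hT (hj.mono (hSM η hη)) fun ζ _ => ev_gt hT _)).and
      ((ev_diag hT fun i => ev_diag hT fun β => ev_gt hT _).and
      ((ev_rank hT hci.injOn fun x _ => ev_gt hT _).and
      (ev_rank hT hj fun η _ => (ev_gt hT _).and
        (ev_rank hT hj fun ζ _ => ev_imp hT fun hne => ?_)))))))
    · obtain ⟨a, ha⟩ := hH y.2
      exact (ev_gt hT _).and (((ev_gt hT a).mono fun δ h => hHm h.le ha).and (ev_gt hT _))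
    · obtain ⟨k, hk⟩ := hB _ (uf_small (M := M η) (rk := rk η) hs.1.1)
      exact (ev_gt hT k).mono fun δ h => ⟨k, h, hk⟩
    · obtain ⟨β, hβ⟩ := not_forall.1 fun h => hne (hb (Set.ext h))
      exact (ev_gt hT β).mono fun δ h => ⟨β, h, hβ⟩
  let Gd' : T → Prop := fun δ => Gd δ ∧
    (∀ e < δ, ∀ s ∈ Sq e, (∀ n, St (Bs (s n))) → ∃ k < δ, Bs k = ⋃ n, Bs (s n)) ∧
    ∀ a < δ, ∀ i < δ, ∃ k < δ, BT k = Code c b S j (fill S j a (Bs i)) ∩ Iio a ∧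
      ∃ e < δ, ∃ x, a < x 0 ∧ Lad x e ∧ (∀ n, Gd (x n)) ∧ col e = k
  have hGd' : ∀ᶠ δ in cf hT, Gd' δ := by
    refine hGd.and ((ev_diag hT fun e => ev_small hT (sm_Sq hT hω e) fun s _ =>
      ev_imp hT fun hs => hN _ (sm_seq hT.reg hun fun n => (hs n).1.1) fun p hp => ?_).and
      (ev_diag hT fun a => ev_diag hT fun i => ?_))
    · obtain ⟨n, hn⟩ := mem_iUnion.1 hp
      exact (hs n).2 p hn
    · obtain ⟨k, hk⟩ := hBT (Code c b S j (fill S j a (Bs i)) ∩ Iio a)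
        (sm_mono inter_subset_right (hT.init a))
      obtain ⟨F, hF, z, hz⟩ := hGd
      obtain ⟨e, x, x1, x2, x3, x4⟩ := hcol k F hF (max a z)
      exact ((ev_gt hT k).and (ev_gt hT e)).mono fun δ h => ⟨k, h.1, hk, e, h.2, x,
        (le_max_left _ _).trans_lt x1, x2, fun n => hz _ (((le_max_right _ _).trans_lt x1).trans_le
          (x2.1.monotone (Nat.zero_le n))) (x3 n), x4⟩
  have block : ∀ a a', a < a' → Gd' a' → ∀ i < a, St (Bs i) → ∃ i' < a', St (Bs i') ∧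
      fill S j a (Bs i) ⊆ Bs i' ∧ ∃ e, a < e ∧ e < a' ∧ col e < a' ∧
        BT (col e) = Code c b S j (fill S j a (Bs i)) ∩ Iio a ∧ ∀ η ∈ S, j η < a →
          uf (M η) (rk η) (Bs i') ∈ Q e ∧ (Dd η → ∀ a'' < e, ∀ u ∈ Q a'', ∃ o ∈ 𝒟 η, ∀ y ∈ o,
            y.1 ∈ M η ∧ rk η y.1 < e ∧ (y.1, y.2 - u (rk η y.1)) ∈ Bs i') := by
    intro a a' haa' hg i hi hs
    obtain ⟨k, k1, k2, e, e1, x, x1, x2, x3, x4⟩ := hg.2.2 a haa' i (hi.trans haa')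
    have h1 : ∀ n i, ∃ i', i < x n → St (Bs i) → i' < x (n + 1) ∧ Bs i' = Ext (x n) (Bs i) :=
      fun n i => by
        by_cases h : i < x n ∧ St (Bs i)
        · have hl := x2.1 (Nat.lt_succ_self n)
          obtain ⟨i', h'⟩ := (x3 (n + 1)).1 (x n) hl i (h.1.trans hl) h.2
          exact ⟨i', fun _ _ => h'⟩
        · exact ⟨i, fun a b => absurd ⟨a, b⟩ h⟩
    choose f hf using h1
    obtain ⟨s, hz0, hs0⟩ : ∃ s : ℕ → T, s 0 = i ∧ ∀ n, s (n + 1) = f n (s n) :=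
      ⟨fun n => Nat.rec i (fun n z => f n z) n, rfl, fun _ => rfl⟩
    have hs1 : ∀ n, s n < x n ∧ St (Bs (s n)) := fun n => by
      induction n with
      | zero => rw [hz0]; exact ⟨hi.trans x1, hs⟩
      | succ n ih =>
        have := hf n _ ih.1 ih.2
        rw [hs0]
        exact ⟨this.1, this.2 ▸ (hExt _ _ ih.2).1⟩
    have hs2 : ∀ n, Bs (s (n + 1)) = Ext (x n) (Bs (s n)) := fun n =>
      hs0 n ▸ (hf n _ (hs1 n).1 (hs1 n).2).2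
    have hs3 : Monotone fun n => Bs (s n) := monotone_nat_of_le_succ fun n => by
      rw [hs2]; exact subset_union_left.trans (hExt _ _ (hs1 n).2).2.1
    obtain ⟨i', i1, i2⟩ := hg.2.1 e e1 s (fun n => (hs1 n).1.trans (x2.2.1 n)) fun n => (hs1 n).2
    have hfn : Fn (Bs i') := i2 ▸ chain_fn hs3 fun n => (hs1 n).2.1.2
    have hsub : ∀ n, Bs (s n) ⊆ Bs i' := fun n => i2 ▸ subset_iUnion (fun n => Bs (s n)) n
    refine ⟨i', i1, ⟨⟨i2 ▸ sm_seq hT.reg hun fun n => (hs1 n).2.1.1, hfn⟩, fun p hp => ?_⟩, ?_,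
      e, x1.trans (x2.2.1 0), e1, x4 ▸ k1, x4 ▸ k2, fun η hη hηa => ⟨?_, fun hdd a'' ha u hu => ?_⟩⟩
    · obtain ⟨n, hn⟩ := mem_iUnion.1 (i2 ▸ hp)
      exact (hs1 n).2.2 p hn
    · refine ((fill_mono S j x1.le _).trans ?_).trans (hsub (0 + 1))
      rw [hs2, hz0]
      exact (hExt _ _ hs).2.1
    · have h2 : ∀ n, ∃ k < x n, B k = uf (M η) (rk η) (Bs (s n)) := fun n =>
        (x3 n).2.2.1 _ (hs1 n).1 (hs1 n).2 η hη
          ((hηa.trans x1).trans_le (x2.1.monotone (Nat.zero_le n)))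
      choose k' g1 g2 using h2
      refine hQ e k' (fun n => (g1 n).trans (x2.2.1 n)) _ fun i₁ => ?_
      simp only [g2]
      by_cases h : ∃ v, ∃ ζ ∈ M η, rk η ζ = i₁ ∧ (ζ, v) ∈ Bs i'
      · obtain ⟨v, ζ, hζ, rfl, hv⟩ := h
        obtain ⟨n, hn⟩ := mem_iUnion.1 (i2 ▸ hv)
        refine eventually_atTop.2 ⟨n, fun m hm => ?_⟩
        rw [uf_eq (hrk η) hfn hζ hv, uf_eq (hrk η) (hs1 m).2.1.2 hζ (hs3 hm hn)]
      · refine Eventually.of_forall fun m => ?_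
        rw [uf_zero h, uf_zero]
        rintro ⟨v, ζ, hζ, e, hv⟩
        exact h ⟨v, ζ, hζ, e, hsub m hv⟩
    · obtain ⟨n, hn⟩ := x2.2.2 a'' ha
      have hηn : ∀ m, j η < x m := fun m =>
        (hηa.trans x1).trans_le (x2.1.monotone (Nat.zero_le m))
      obtain ⟨o, o1, o2⟩ := (hExt (x n) _ (hs1 n).2).2.2 η hη (hηn n) hdd u (hQm hn.le hu)
      rw [← hs2] at o2
      refine ⟨o, o1, fun y hy => ⟨(o2 y hy).1, lt_trans ?_ (x2.2.1 (n + 1)), hsub _ (o2 y hy).2⟩⟩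
      exact ((x3 (n + 1)).2.2.2.1 η hη (hηn _)).2 _ (o2 y hy).1
        ((x3 (n + 1)).2.1 _ (hs1 _).1 (hs1 _).2 _ (o2 y hy).2).1
  have hqS : ∀ p ∈ q, p.1 ∈ S := fun p hp => hS₀ ⟨p, hp, rfl⟩
  obtain ⟨i₀, hi₀⟩ := hBs q ⟨fun p hp => ⟨hqS p hp, mem_univ _⟩, hq.1⟩
  obtain ⟨F, hF, z, hz⟩ := hGd'.and (ev_gt hT i₀)
  obtain ⟨ε, ε1, ε2, ε3⟩ := hd F hF (max a₀ z)
  obtain ⟨n₀, hn₀⟩ := ε2.2.2 z ((le_max_right _ _).trans_lt ε1)
  have hD' := ε2.shift n₀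
  set D : ℕ → T := fun n => d ε (n + n₀) with hDdef
  have hg : ∀ n, Gd' (D n) ∧ i₀ < D n := fun n =>
    hz _ (hn₀.trans_le (ε2.1.monotone (by omega))) (ε3 _)
  have block' := fun n => block (D n) (D (n + 1)) (hD'.1 (Nat.lt_succ_self n)) (hg _).1
  choose! f f1 f2 f3 e e1 e2 e3 e4 e5 using block'
  obtain ⟨s, hz0, hs0⟩ : ∃ s : ℕ → T, s 0 = i₀ ∧ ∀ n, s (n + 1) = f n (s n) :=
    ⟨fun n => Nat.rec i₀ (fun n z => f n z) n, rfl, fun _ => rfl⟩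
  have hs1 : ∀ n, s n < D n ∧ St (Bs (s n)) := fun n => by
    induction n with
    | zero => rw [hz0]; exact ⟨(hg 0).2, hi₀ ▸ ⟨hq, hqS⟩⟩
    | succ n ih => rw [hs0]; exact ⟨f1 n _ ih.1 ih.2, f2 n _ ih.1 ih.2⟩
  have hs2 : ∀ n, fill S j (D n) (Bs (s n)) ⊆ Bs (s (n + 1)) := fun n =>
    hs0 n ▸ f3 n _ (hs1 n).1 (hs1 n).2
  have hs3 : Monotone fun n => Bs (s n) := monotone_nat_of_le_succ fun n =>
    subset_union_left.trans (hs2 n)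
  have hfn := chain_fn hs3 fun n => (hs1 n).2.1.2
  set σ := ⋃ n, Bs (s n) with hσ
  have hsub : ∀ n, Bs (s n) ⊆ σ := subset_iUnion (fun n => Bs (s n))
  set A := Code c b S j σ ∩ Iio ε with hA
  have hAn : ∀ n, A ∩ Iio (D n) = Code c b S j (fill S j (D n) (Bs (s n))) ∩ Iio (D n) := by
    intro n
    ext y
    constructor
    · rintro ⟨⟨⟨x, ⟨ζ, hζ, h1, h2⟩, rfl⟩, -⟩, hy⟩
      refine ⟨⟨x, ⟨ζ, hζ, h1, h2.imp_right ?_⟩, rfl⟩, hy⟩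
      rintro ⟨v, hv, h3⟩
      obtain ⟨v', hv'⟩ := fill_dom (j := j) (Bs (s n)) hζ
        (h1 ▸ (hg n).1.1.2.2.2.2.2.1 x (mem_univ _) hy)
      exact ⟨v, hfn _ _ _ (hsub _ (hs2 n hv')) hv ▸ hv', h3⟩
    · rintro ⟨⟨x, ⟨ζ, hζ, h1, h2⟩, rfl⟩, hy⟩
      refine ⟨⟨⟨x, ⟨ζ, hζ, h1, h2.imp_right ?_⟩, rfl⟩, lt_trans hy (hD'.2.1 n)⟩, hy⟩
      rintro ⟨v, hv, h3⟩
      exact ⟨v, hsub _ (hs2 n hv), h3⟩
  have hval : ∀ n, ∀ y ∈ Bs (s n), j y.1 < D n ∧ y.2 ∈ H (D n) ∧ c (j y.1, Sum.inr y.2) < D n :=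
    fun n => (hg n).1.1.2.1 _ (hs1 n).1 (hs1 n).2
  have hcode : ∀ ζ ∈ S, j ζ < ε → ∀ β < ε, β ∈ b ζ ↔ c (j ζ, Sum.inl β) ∈ A := by
    intro ζ hζ h1 β h2
    constructor
    · intro h
      obtain ⟨n, g1, g2⟩ := ((hD'.ev h1).and (hD'.ev h2)).exists
      exact ⟨⟨_, ⟨ζ, hζ, rfl, Or.inl ⟨β, h, rfl⟩⟩, rfl⟩,
        ((hg n).1.1.2.2.2.2.1 _ g1 _ g2).trans (hD'.2.1 n)⟩
    · rintro ⟨⟨x, ⟨ζ', hζ', g1, g2⟩, g3⟩, -⟩
      obtain rfl := hci g3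
      obtain rfl := hj hζ' hζ g1
      rcases g2 with ⟨β', g4, g5⟩ | ⟨v, -, g5⟩
      · obtain rfl := Sum.inl.inj g5
        exact g4
      · cases g5
  have htt : ∀ y ∈ σ, tt c ε A (b y.1) = y.2 := by
    intro y hy
    obtain ⟨n, hn⟩ := mem_iUnion.1 hy
    have hyS := (hs1 n).2.2 y hn
    have hyε := (hval n y hn).1.trans (hD'.2.1 n)
    have h : ∃ g, ∃ i < ε, (∀ β < ε, β ∈ b y.1 ↔ c (i, Sum.inl β) ∈ A) ∧ c (i, Sum.inr g) ∈ A :=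
      ⟨y.2, j y.1, hyε, hcode _ hyS hyε, ⟨_, ⟨y.1, hyS, rfl, Or.inr ⟨y.2, hy, rfl⟩⟩, rfl⟩,
        (hval n y hn).2.2.trans (hD'.2.1 n)⟩
    rw [tt, dif_pos h]
    obtain ⟨i, g1, g2, ⟨x, ⟨ζ, hζ, g3, g4⟩, g5⟩, -⟩ := h.choose_spec
    obtain rfl := hci g5
    simp only at g3 g4
    subst g3
    rcases g4 with ⟨β', -, g5⟩ | ⟨v, g4, g5⟩
    · cases g5
    rw [Sum.inr.inj g5]
    have : y.1 = ζ := by
      by_contra hne
      obtain ⟨m, m1, m2⟩ := ((hD'.ev hyε).and (hD'.ev g1)).exists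
      obtain ⟨β, b1, b2⟩ := ((hg m).1.1.2.2.2.2.2.2 _ hyS m1).2 ζ hζ m2 hne
      have b3 := b1.trans (hD'.2.1 m)
      exact b2 ((g2 β b3).trans (hcode ζ hζ g1 β b3).symm)
    exact hfn ζ _ _ g4 (this ▸ hy)
  refine ⟨ε, A, {ζ ∈ S | j ζ < ε}, (le_max_left _ _).trans_lt ε1, ε2, inter_subset_right,
    ⟨fun n => col (e n (s n)), fun n => (e3 n _ (hs1 n).1 (hs1 n).2).trans (hD'.2.1 _), ?_⟩,
    fun y hy => ?_, fun η hη => ?_⟩
  · simp only [fun n => e4 n _ (hs1 n).1 (hs1 n).2, ← hAn]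
    ext y
    constructor
    · intro hy
      obtain ⟨n, hn⟩ := hD'.2.2 y hy.2
      exact mem_iUnion.2 ⟨n, hy, hn⟩
    · intro hy
      obtain ⟨n, hn⟩ := mem_iUnion.1 hy
      exact hn.1
  · have hy' : y ∈ Bs (s 0) := by rw [hz0, hi₀]; exact hy
    exact ⟨⟨hqS y hy, (hval 0 y hy').1.trans (hD'.2.1 0)⟩, htt y (hsub 0 hy')⟩
  obtain ⟨n₁, hn₁⟩ := eventually_atTop.1 (hD'.ev hη.2)
  refine ⟨((hg n₁).1.1.2.2.2.2.2.2 η hη.1 (hn₁ _ le_rfl)).1.trans (hD'.2.1 _), ?_,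
    fun ζ hζ h => ⟨hSM η hη.1 hζ, ?_⟩, fun hdd => ?_⟩
  · obtain ⟨v, hv⟩ := fill_dom (j := j) (Bs (s n₁)) hη.1 (hn₁ _ le_rfl)
    rw [htt (η, v) (hsub _ (hs2 _ hv))]
    exact hHm (hD'.2.1 _).le (hval _ _ (hs2 _ hv)).2.1
  · obtain ⟨m, m1, m2⟩ := ((hD'.ev h).and (hD'.ev hη.2)).exists
    exact (((hg m).1.1.2.2.2.1 η hη.1 m2).1 ζ hζ m1).trans (hD'.2.1 m)
  refine eventually_atTop.2 ⟨n₁ + n₀, fun m hm => ?_⟩
  obtain ⟨n, rfl⟩ : ∃ n, m = n + n₀ := ⟨m - n₀, by omega⟩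
  have hn : j η < D n := hn₁ n (by omega)
  have hn' : j η < D (n + 1) := hn₁ _ (by omega)
  rw [show d ε (n + n₀ + 1) = D (n + 1) from congrArg (d ε) (by omega)]
  obtain ⟨g1, g2⟩ := e5 n _ (hs1 n).1 (hs1 n).2 η hη.1 hn
  rw [← hs0] at g1 g2
  refine ⟨e n (s n), e1 n _ (hs1 n).1 (hs1 n).2, e2 n _ (hs1 n).1 (hs1 n).2,
    (e4 n _ (hs1 n).1 (hs1 n).2).trans (hAn n).symm, ⟨_, g1, fun ζ hζ h => ?_⟩,
    fun a ha u hu => ?_⟩
  · by_cases h1 : ∃ v, (ζ, v) ∈ Bs (s (n + 1))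
    · obtain ⟨v, hv⟩ := h1
      rw [uf_eq (hrk η) (hs1 _).2.1.2 hζ hv]
      exact htt (ζ, v) (hsub _ hv)
    · rw [uf_zero]
      · exact htt (ζ, 0) (hsub _ (hs2 (n + 1) (Or.inr ⟨ζ, ⟨⟨hSM η hη.1 hζ,
          ((hg _).1.1.2.2.2.1 η hη.1 hn').1 ζ hζ h⟩, not_exists.1 h1⟩, rfl⟩)))
      · rintro ⟨v, ζ', hζ', e, hv⟩
        obtain rfl := hrk η hζ' hζ e
        exact h1 ⟨v, hv⟩
  · obtain ⟨o, o1, o2⟩ := g2 hdd a ha u hu
    refine ⟨o, o1, fun y hy => ⟨(o2 y hy).1, (o2 y hy).2.1, ?_⟩⟩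
    have := htt _ (hsub (n + 1) (o2 y hy).2.2)
    simp only at this ⊢
    rw [this, sub_add_cancel]

end

end Pool.Agent.P.MP_39acbb_lc
end

-- part Pool.Agent.P.MP_39acbb_lc.InD
section

/-! The group. -/

set_option autoImplicit false
set_option linter.deprecated false
set_option linter.unusedSectionVars false

namespace Pool.Agent.P.MP_39acbb_lc

open Cardinal Set Filter

universe u

variable {T : Type u} [LinearOrder T]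

section
variable {R : Type u}

/-- the filtration by levels -/
def HL (lv : R → T) (ε : T) : AddSubgroup (R →₀ ZMod 2) where
  carrier := {g | ∀ ρ, ε ≤ lv ρ → g ρ = 0}
  zero_mem' := fun _ _ => rfl
  add_mem' := fun {a b} ha hb β h => by simp [ha β h, hb β h]
  neg_mem' := fun {a} ha β h => by simp [ha β h]

lemma HL_mono (lv : R → T) : Monotone (HL lv) := fun _ _ h _ hg β hβ => hg β (h.trans hβ)

lemma single_mem_HL {lv : R → T} {ρ : R} {δ : T} (h : lv ρ < δ) :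
    Finsupp.single ρ (1 : ZMod 2) ∈ HL lv δ := fun ρ' hβ =>
  Finsupp.single_eq_of_ne (by rintro rfl; exact absurd h (not_lt.2 hβ))

lemma sum_not_mem_HL {lv : R → T} {ε : T} {F : Finset R} (hne : F.Nonempty)
    (hF : ∀ ρ ∈ F, lv ρ = ε) : ∑ ρ ∈ F, Finsupp.single ρ (1 : ZMod 2) ∉ HL lv ε := fun h => by
  classical
  obtain ⟨ρ, hρ⟩ := hne
  have := h ρ (hF ρ hρ).ge
  rw [Finsupp.finsetSum_apply] at this
  simp [Finsupp.single_apply, hρ] at this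

lemma exists_mem_HL (hT : Reg T) (lv : R → T) (g : R →₀ ZMod 2) : ∃ a, g ∈ HL lv a := by
  obtain ⟨b, hb⟩ := hT.bdd (lv '' g.support) (sm_finite hT.inf (g.support.finite_toSet.image _))
  refine ⟨b, fun β hβ => ?_⟩
  by_contra h
  exact absurd (hb _ ⟨β, Finsupp.mem_support_iff.2 h, rfl⟩) (not_lt.2 hβ)

lemma ev_mem_HL {lv : R → T} {x : ℕ → T} {ε : T} (h : Lad x ε) {g : R →₀ ZMod 2}
    (hg : g ∈ HL lv ε) : ∀ᶠ n in atTop, g ∈ HL lv (x n) := by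
  have : ∀ᶠ n in atTop, ∀ ρ ∈ g.support, lv ρ < x n :=
    (eventually_all_finset _).2 fun ρ hρ => h.ev (by
      by_contra hc
      exact Finsupp.mem_support_iff.1 hρ (hg ρ (not_lt.1 hc)))
  refine this.mono fun n hn ρ hρ => ?_
  by_contra hc
  exact absurd (hn ρ (Finsupp.mem_support_iff.2 hc)) (not_lt.2 hρ)

lemma top_level (lv : R → T) (t : R → (R →₀ ZMod 2)) (A : Set R)
    (ht : ∀ ρ ∈ A, t ρ ∈ HL lv (lv ρ)) {x : R →₀ ZMod 2}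
    (hx : x ∈ AddSubgroup.closure ((fun ρ => Finsupp.single ρ (1 : ZMod 2) - t ρ) '' A)) :
    x = 0 ∨ ∃ (ε : T) (F : Finset R), F.Nonempty ∧ (∀ ρ ∈ F, ρ ∈ A ∧ lv ρ = ε) ∧
      x - ∑ ρ ∈ F, Finsupp.single ρ (1 : ZMod 2) ∈ HL lv ε := by
  classical
  obtain ⟨F, hF, rfl⟩ := closure_rep bool_G _ A hx
  rcases F.eq_empty_or_nonempty with rfl | hne
  · left; simp
  right
  obtain ⟨ρ₀, h1, h2⟩ := F.exists_max_image lv hne
  refine ⟨lv ρ₀, F.filter fun ρ => lv ρ = lv ρ₀, ⟨ρ₀, by simp [h1]⟩,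
    fun ρ hρ => ⟨hF (Finset.mem_filter.1 hρ).1, (Finset.mem_filter.1 hρ).2⟩, ?_⟩
  rw [Finset.sum_sub_distrib, ← Finset.sum_filter_add_sum_filter_not F (fun ρ => lv ρ = lv ρ₀),
    sub_right_comm, add_sub_cancel_left]
  refine sub_mem (sum_mem fun ρ hρ => ?_)
    (sum_mem fun ρ hρ => HL_mono lv (h2 ρ hρ) (ht ρ (hF hρ)))
  exact single_mem_HL (lt_of_le_of_ne (h2 ρ (Finset.mem_filter.1 hρ).1) (Finset.mem_filter.1 hρ).2)

/-- Rows that follow the pattern are mutually generic. -/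
lemma mutual_gen {Θ G : Type u} [AddCommGroup G] {d : ℕ → T} {ε : T} (hd : Lad d ε)
    {id : T → Set T} {Q : T → AddSubmonoid (T → G)} (hQ : Monotone Q) {M : Set Θ} {rk : Θ → T}
    {𝒟 : Set (Set (Θ × G))} {A : R → Set T} {t : R → Θ → G} {F : Finset R} (hne : F.Nonempty)
    (hP : ∀ ρ ∈ F, Pat d id Q M rk 𝒟 (A ρ) (t ρ)) (hA : ∀ ρ ∈ F, A ρ ⊆ Iio ε)
    (hinj : ∀ ρ ∈ F, ∀ ρ' ∈ F, A ρ = A ρ' → ρ = ρ') {h : G}
    (hh : ∀ᶠ n in atTop, (fun _ => h) ∈ Q (d n)) :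
    ∃ o ∈ 𝒟, ∀ y ∈ o, y.1 ∈ M ∧ rk y.1 < ε ∧ y.2 = ∑ ρ ∈ F, t ρ y.1 + h := by
  classical
  have h1 : ∀ᶠ n in atTop, ∀ ρ ∈ F, ∀ ρ' ∈ F, A ρ ∩ Iio (d n) = A ρ' ∩ Iio (d n) → ρ = ρ' :=
    (eventually_all_finset _).2 fun ρ hρ => (eventually_all_finset _).2 fun ρ' hρ' => by
      by_cases e : ρ = ρ'
      · exact Eventually.of_forall fun _ _ => e
      obtain ⟨β, hβ⟩ := not_forall.1 fun h => e (hinj ρ hρ ρ' hρ' (Set.ext h))
      have hε : β < ε := by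
        by_contra hc
        exact hβ ⟨fun h => absurd (hA ρ hρ h) hc, fun h => absurd (hA ρ' hρ' h) hc⟩
      refine (hd.ev hε).mono fun n hn h => absurd ⟨fun g => ?_, fun g => ?_⟩ hβ
      · exact (h.subset ⟨g, hn⟩).1
      · exact (h.symm.subset ⟨g, hn⟩).1
  obtain ⟨n, n1, n2, n3⟩ := (h1.and (hh.and ((eventually_all_finset F).2 hP))).exists
  have := (⟨d 0⟩ : Nonempty T)
  choose! b b1 b2 b3 b4 b5 using n3
  choose! u u1 u2 using b4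
  obtain ⟨ρ₁, r1, r2⟩ := F.exists_max_image b hne
  have h2 : ∀ ρ ∈ F.erase ρ₁, b ρ < b ρ₁ := fun ρ hρ => by
    obtain ⟨g1, g2⟩ := Finset.mem_erase.1 hρ
    refine lt_of_le_of_ne (r2 ρ g2) fun e => g1 (n1 ρ g2 ρ₁ r1 ?_)
    rw [← b3 ρ g2, ← b3 ρ₁ r1, e]
  obtain ⟨a, a1, a2, a3⟩ : ∃ a < b ρ₁, d n ≤ a ∧ ∀ ρ ∈ F.erase ρ₁, b ρ ≤ a := by
    refine ⟨(insert (d n) ((F.erase ρ₁).image b)).max' (Finset.insert_nonempty _ _), ?_,
      Finset.le_max' _ _ (Finset.mem_insert_self _ _), fun ρ hρ => Finset.le_max' _ _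
        (Finset.mem_insert_of_mem (Finset.mem_image_of_mem b hρ))⟩
    rw [Finset.max'_lt_iff]
    intro y hy
    rcases Finset.mem_insert.1 hy with rfl | hy
    · exact b1 ρ₁ r1
    · obtain ⟨ρ, hρ, rfl⟩ := Finset.mem_image.1 hy
      exact h2 ρ hρ
  obtain ⟨o, o1, o2⟩ := b5 ρ₁ r1 a a1 (∑ ρ ∈ F.erase ρ₁, u ρ + fun _ => h) (add_mem
    (sum_mem fun ρ hρ => hQ (a3 ρ hρ) (u1 ρ (Finset.mem_of_mem_erase hρ))) (hQ a2 n2))
  refine ⟨o, o1, fun y hy => ?_⟩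
  obtain ⟨y1, y2, y3⟩ := o2 y hy
  have y4 := y2.trans (b2 ρ₁ r1)
  refine ⟨y1, y4.trans (hd.2.1 _), ?_⟩
  rw [y3, ← Finset.add_sum_erase F _ r1, Pi.add_apply, Finset.sum_apply, add_assoc,
    Finset.sum_congr rfl fun ρ hρ => u2 ρ (Finset.mem_of_mem_erase hρ) _ y1 y4]

end

theorem nodec_of_closed [WellFoundedLT T] (hT : Reg T) (h1 : ℵ₁ < #T) (hc : Cnt #T)
    (hω : ∀ μ < #T, μ ^ ℵ₀ < #T) :
    ∃ (G : Type u) (_ : AddCommGroup G), #G ≤ #T ∧ Nodec G := by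
  classical
  have h0 := hT.inf
  have hun : ℵ₀ < #T := aleph0_lt_aleph_one.trans h1
  obtain ⟨d, hd⟩ := club_guess hT h1
  obtain ⟨col, hcol⟩ := solovay hT hun
  obtain ⟨BT, hBT⟩ := enum_le (T := T) (hc T Set.univ (by rw [mk_univ]))
  let R := {ρ : T × Set T // ρ.2 ⊆ Iio ρ.1 ∧ ∃ s ∈ Sq ρ.1, ρ.2 = ⋃ n, BT (s n)}
  let lv : R → T := fun ρ => ρ.1.1
  have hfib : ∀ ε, #{ρ : R | lv ρ = ε} < #T := fun ε => by
    refine lt_of_le_of_lt ?_ (sm_image (fun s => ⋃ n, BT (s n)) (sm_Sq hT hω ε))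
    refine mk_le_of_injective (f := fun ρ => ⟨ρ.1.1.2, ?_⟩) fun ρ ρ' h => Subtype.ext (Subtype.ext
      (Prod.ext (ρ.2.trans ρ'.2.symm) (congrArg Subtype.val h)))
    obtain ⟨s, h1, h2⟩ := ρ.1.2.2
    exact ⟨s, ρ.2 ▸ h1, h2.symm⟩
  have hR : #R ≤ #T := by
    rw [← mk_univ]
    refine (mk_le_mk_of_subset fun ρ _ => ?_).trans (le_biUnion h0 (s := (Set.univ : Set T))
      (t := fun ε => {ρ : R | lv ρ = ε}) (by rw [mk_univ]) fun ε _ => (hfib ε).le)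
    exact mem_iUnion₂.2 ⟨lv ρ, mem_univ _, rfl⟩
  have hG : #(R →₀ ZMod 2) ≤ #T := by
    rw [← mk_univ]
    refine (mk_le_mk_of_subset fun g _ => ?_).trans ((mk_supp_le (Set.univ : Set R)).trans
      (max_le h0 (by rwa [mk_univ])))
    exact fun β h => absurd (mem_univ β) h
  have hHs : ∀ a, #(HL lv a : Set (R →₀ ZMod 2)) < #T := fun a => by
    refine lt_of_le_of_lt ((mk_le_mk_of_subset fun g hg => ?_).trans
      (mk_supp_le (⋃ ε ∈ Iio a, {ρ : R | lv ρ = ε})))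
      (max_lt hun (sm_biUnion hT.reg (hT.init a) fun ε _ => hfib ε))
    exact fun β h => hg β (not_lt.1 fun hl => h (mem_iUnion₂.2 ⟨lv β, hl, rfl⟩))
  obtain ⟨Q, B, hQm, hQs, hQc, hB, hQ⟩ := exists_Q hT hun hc hω hG
    (fun a => (HL lv a : Set (R →₀ ZMod 2))) hHs fun _ _ h => HL_mono lv h
  have hθ : ℵ₀ ≤ 2 ^ #T := h0.trans (cantor _).le
  let Θ := (2 ^ #T : Cardinal.{u}).ord.ToType
  have hΘ : #Θ = 2 ^ #T := mk_ord_toType _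
  have hne : Nonempty Θ := by
    rw [← mk_ne_zero_iff, hΘ]; exact (aleph0_pos.trans_le hθ).ne'
  have := hT.nonempty
  obtain ⟨b⟩ : Nonempty (Θ ↪ Set T) := (le_def _ _).1 (by rw [hΘ, mk_set])
  obtain ⟨c⟩ : Nonempty (T × (T ⊕ (R →₀ ZMod 2)) ↪ T) := (le_def _ _).1 (by
    rw [mk_prod, mk_sum, lift_id, lift_id, lift_id]
    exact mul_le_of_le h0 le_rfl (add_le_of_le h0 le_rfl hG))
  obtain ⟨f, hf⟩ := book hθ (Y := Set (R →₀ ZMod 2) × T) (by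
    rw [mk_prod, lift_id, lift_id, mk_set]
    exact mul_le_of_le hθ (power_le_power_left two_ne_zero hG) (cantor _).le)
  let X : Θ → Set (R →₀ ZMod 2) := fun η => (f η).1
  let α : Θ → T := fun η => (f η).2
  choose M rk hM hrk hMD using exists_MR (Θ := Θ) hT hc hG
  let t : R → Θ → (R →₀ ZMod 2) := fun ρ ζ => tt c (lv ρ) ρ.1.2 (b ζ)
  let k : Θ → R → (R →₀ ZMod 2) := fun η ρ => Finsupp.single ρ (1 : ZMod 2) - t ρ η
  let A : (Θ → AddSubgroup (R →₀ ZMod 2)) → Set (Set (Θ × (R →₀ ZMod 2))) → Θ → Set R :=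
    fun K 𝒟 η => {ρ | α η ≤ lv ρ ∧ t ρ η ∈ HL lv (lv ρ) ∧ (Dn #T η 𝒟 → Lad (d (lv ρ)) (lv ρ) ∧
      Pat (d (lv ρ)) (fun x => BT (col x)) Q (M η 𝒟) (rk η 𝒟) 𝒟 ρ.1.2 (t ρ) ∧
      ∀ ζ ∈ M η 𝒟, rk η 𝒟 ζ < lv ρ → k ζ ρ ∈ K ζ)}
  obtain ⟨K, hK'⟩ := col_rec (Θ := Θ)
    (fun η K' => AddSubgroup.closure (k η '' A K' (DD #T K' η (X η)) η))
  have hK : ∀ η, K η = AddSubgroup.closure (k η '' A K (DD #T K η (X η)) η) := fun η => by
    obtain ⟨K', h1, h2⟩ := hK' η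
    rw [h2, DD_congr h1]
    congr 2
    ext ρ
    refine and_congr_right fun _ => and_congr_right fun _ => imp_congr_right fun _ =>
      and_congr_right fun _ => and_congr_right fun _ => forall₂_congr fun ζ hζ => ?_
    rw [h1 ζ (hM _ _ hζ)]
  have htop := fun η x (hx : x ∈ K η) => top_level lv (fun ρ => t ρ η) _ (fun ρ hρ => hρ.2.1)
    (hK η ▸ hx : x ∈ AddSubgroup.closure (k η '' A K (DD #T K η (X η)) η))
  refine ⟨R →₀ ZMod 2, inferInstance, hG,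
    final hT.reg hc hG K (fun X₀ S hS => ?_) (fun q hq g₀ => ?_) (fun g hg0 => ?_)⟩
  · obtain ⟨b₀, hb₀⟩ := bdd_toType S (hS.trans_lt (lt_cof_ord_power h0 (by norm_num)))
    obtain ⟨η, hη, hfη⟩ := hf (X₀, Classical.arbitrary T) b₀
    refine ⟨η, fun ζ hζ => (hb₀ ζ hζ).trans hη, fun hgd g₁ => ?_⟩
    have hX : X η = X₀ := congrArg Prod.fst hfη
    obtain ⟨a, ha⟩ := exists_mem_HL hT lv g₁
    refine sm_mono ?_ (hHs a)
    rintro g ⟨hgX, hgK⟩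
    rcases htop η _ hgK with h | ⟨ε, F, F1, F2, h⟩
    · rw [sub_eq_zero.1 h]; exact ha
    rcases le_or_gt a ε with hl | hl
    · exfalso
      have hdn := (hX ▸ hgd).dn
      obtain ⟨ρ₀, hρ₀⟩ := id F1
      have hlad : Lad (d ε) ε := (F2 ρ₀ hρ₀).2 ▸ ((F2 ρ₀ hρ₀).1.2.2 hdn).1
      obtain ⟨o, o1, o2⟩ := mutual_gen (A := fun ρ : R => ρ.1.2) (t := t) hlad hQm F1
        (fun ρ hρ => (F2 ρ hρ).2 ▸ ((F2 ρ hρ).1.2.2 hdn).2.1)
        (fun ρ hρ => (F2 ρ hρ).2 ▸ ρ.2.1)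
        (fun ρ hρ ρ' hρ' e => Subtype.ext (Prod.ext ((F2 ρ hρ).2.trans (F2 ρ' hρ').2.symm) e))
        ((ev_mem_HL hlad (add_mem h (HL_mono lv hl ha))).mono fun n hn => hQc _ _ hn)
      refine o1.2.2 g (fun y hy => ?_) (hX ▸ hgX)
      obtain ⟨y1, y2, y3⟩ := o2 y hy
      have := (K y.1).sum_mem fun ρ hρ =>
        ((F2 ρ hρ).1.2.2 hdn).2.2 y.1 y1 (y2.trans_eq (F2 ρ hρ).2.symm)
      simp only [k, Finset.sum_sub_distrib] at this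
      rw [y3]
      convert this using 1
      abel
    · have := add_mem (add_mem (HL_mono lv hl.le h) (sum_mem fun ρ hρ =>
        single_mem_HL (((F2 ρ hρ).2).trans_lt hl))) ha
      simpa using this
  · obtain ⟨a, ha⟩ := exists_mem_HL hT lv g₀
    obtain ⟨ε, A₀, S', r1, r2, r3, r4, r5, r6⟩ := exists_row hT hun hc hω hG (HL lv) (HL_mono lv)
      (exists_mem_HL hT lv) d hd col hcol Q B hQm hQs hB hQ BT
      (fun A hA => hBT A ⟨subset_univ _, hA⟩) c c.injective b b.injective α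
      (fun η => M η (DD #T K η (X η))) (fun η => rk η (DD #T K η (X η))) (fun η => hrk _ _)
      (fun η => DD #T K η (X η)) (fun η => Dn #T η (DD #T K η (X η)))
      (fun η hη q h1 h2 => by
        obtain ⟨o, o1, o2⟩ := hMD η _ (fun o ho => ⟨ho.1, ho.2.1⟩) hη q h1 h2
        exact ⟨o, o1, o1.1, o2⟩) q hq a
    let ρ : R := ⟨(ε, A₀), r3, r4⟩
    have key : ∀ η ∈ S', k η ρ ∈ K η := by
      intro η
      induction η using WellFoundedLT.induction with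
      | ind η ih =>
        intro hη
        obtain ⟨s1, s2, s3, s4⟩ := r6 η hη
        rw [hK]
        exact AddSubgroup.subset_closure ⟨ρ, ⟨s1.le, s2, fun hdn => ⟨r2, s4 hdn,
          fun ζ hζ hl => ih ζ (hM _ _ hζ) (s3 ζ hζ hl)⟩⟩, rfl⟩
    refine ⟨Finsupp.single ρ 1, fun y hy => (r5 y hy).2 ▸ key _ (r5 y hy).1, fun h => ?_⟩
    refine sum_not_mem_HL (lv := lv) (ε := ε) (Finset.singleton_nonempty ρ) (by simp [lv, ρ]) ?_
    rw [Finset.sum_singleton, h]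
    exact HL_mono lv r1.le ha
  · obtain ⟨a, ha⟩ := exists_mem_HL hT lv g
    obtain ⟨η, -, hfη⟩ := hf (∅, a) (Classical.arbitrary Θ)
    have hα : α η = a := congrArg Prod.snd hfη
    refine ⟨η, fun hgK => ?_⟩
    rcases htop η _ hgK with h | ⟨ε, F, F1, F2, h⟩
    · exact hg0 h
    · obtain ⟨ρ₀, hρ₀⟩ := id F1
      have hl : a ≤ ε := hα ▸ (F2 ρ₀ hρ₀).2 ▸ (F2 ρ₀ hρ₀).1.1
      have := sub_mem (HL_mono lv hl ha) h
      exact sum_not_mem_HL F1 (fun ρ hρ => (F2 ρ hρ).2) (by simpa using this)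

lemma cnt_of_pow (hT : Reg T) (h : ∀ μ < #T, 2 ^ μ ≤ #T) : Cnt #T := by
  classical
  intro Y S hS
  obtain ⟨a₀⟩ := hT.nonempty
  obtain ⟨j, hj⟩ : ∃ j : Y → T, InjOn j S := by
    obtain ⟨j⟩ := (le_def _ _).1 hS
    refine ⟨fun ζ => if h : ζ ∈ S then j ⟨ζ, h⟩ else a₀, fun ζ h ζ' h' e => ?_⟩
    simp only [dif_pos h, dif_pos h'] at e
    exact congrArg Subtype.val (j.injective e)
  refine (mk_le_mk_of_subset ?_).trans (le_biUnion hT.inf (s := (Set.univ : Set T))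
    (t := fun a => 𝒫 {i ∈ S | j i < a}) (by rw [mk_univ]) fun a _ => ?_)
  · rintro c ⟨h1, h2⟩
    obtain ⟨a, ha⟩ := hT.bdd _ (sm_image j h2)
    exact mem_iUnion₂.2 ⟨a, mem_univ _, fun y hy => ⟨h1 hy, ha _ ⟨y, hy, rfl⟩⟩⟩
  · rw [mk_powerset]
    exact h _ (sm_rank hT hj a)

end Pool.Agent.P.MP_39acbb_lc
end
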